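import Mathlib
import Pool.Agent.R412.RT.T1
set_option autoImplicit false

/-! Plancherel inequalities in the coordinates of `ℝ × ℝ` and of `ℝ`. -/

namespace Pool.Agent.J6H73.TPO

open MeasureTheory Complex Set Filter Topology
open scoped ENNReal RealInnerProductSpace
open Pool.Agent.R412.RT (E ee ee_norm ee_add ee_meas ee_cont planch inner_eq)

/-- the plane in coordinates -/
noncomputable def T2 : E 2 ≃L[ℝ] ℝ × ℝ :=
  (EuclideanSpace.equiv (Fin 2) ℝ).trans (ContinuousLinearEquiv.finTwoArrow ℝ ℝ)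

theorem T2_apply (x : E 2) : T2 x = (x 0, x 1) := rfl

theorem T2_mp : MeasurePreserving (T2 : E 2 → ℝ × ℝ) volume volume :=
  (volume_preserving_finTwoArrow ℝ).comp (PiLp.volume_preserving_ofLp (Fin 2))

theorem T2_me : MeasurableEmbedding (T2 : E 2 → ℝ × ℝ) :=
  T2.toHomeomorph.toMeasurableEquiv.measurableEmbedding

theorem T2_symm_mp : MeasurePreserving (T2.symm : ℝ × ℝ → E 2) volume volume := by
  have h := (T2_mp.symm (e := T2.toHomeomorph.toMeasurableEquiv))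
  exact h

theorem T2_inner (p : ℝ × ℝ) (y : E 2) : ⟪T2.symm p, y⟫ = p.1 * (T2 y).1 + p.2 * (T2 y).2 := by
  obtain ⟨x, rfl⟩ : ∃ x, p = T2 x := ⟨T2.symm p, (T2.apply_symm_apply p).symm⟩
  rw [T2.symm_apply_apply, inner_eq, Fin.sum_univ_two]
  rfl

/-- Plancherel inequality in `ℝ × ℝ` -/
theorem planch2 (P : ℝ × ℝ → ℝ × ℝ) (hPm : Measurable P) (P' : ℝ × ℝ → (ℝ × ℝ →L[ℝ] ℝ × ℝ))
    (V : Set (ℝ × ℝ)) (hV : MeasurableSet V) (hP : ∀ x ∈ V, HasFDerivAt P (P' x) x)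
    (hinj : InjOn P V) (hdet : ∀ x ∈ V, (P' x).det ≠ 0)
    (hdm : Measurable fun x => |(P' x).det|) (g : ℝ × ℝ → ℂ) (hg : Integrable g)
    (hgV : ∀ x, x ∉ V → g x = 0) :
    ∫⁻ t : ℝ × ℝ, ‖∫ x, ee ((P x).1 * t.1 + (P x).2 * t.2) * g x‖ₑ ^ 2 ≤
      ∫⁻ x, ‖g x‖ₑ ^ 2 / ENNReal.ofReal |(P' x).det| := by
  set Q' : E 2 → (E 2 →L[ℝ] E 2) := fun x =>
    (T2.symm : ℝ × ℝ →L[ℝ] E 2).comp ((P' (T2 x)).comp (T2 : E 2 →L[ℝ] ℝ × ℝ)) with hQ'
  have hdetQ : ∀ x, (Q' x).det = (P' (T2 x)).det := by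
    intro x
    have h := LinearMap.det_conj ((P' (T2 x)).toLinearMap) T2.symm.toLinearEquiv
    exact h
  have h := planch (fun x => T2.symm (P (T2 x)))
    (T2.symm.continuous.measurable.comp (hPm.comp T2.continuous.measurable)) Q' (T2 ⁻¹' V)
    (T2.continuous.measurable hV) ?_ ?_ ?_ ?_ (fun x => g (T2 x)) ?_ ?_
  · have h1 : ∀ t : E 2, ∫ x : E 2, ee ⟪T2.symm (P (T2 x)), t⟫ * g (T2 x) =
        ∫ x, ee ((P x).1 * (T2 t).1 + (P x).2 * (T2 t).2) * g x := by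
      intro t
      rw [← T2_mp.integral_comp T2_me]
      refine integral_congr_ae (Eventually.of_forall fun x => ?_)
      simp only [T2_inner]
    simp_rw [h1] at h
    have h2 : ∫⁻ t : E 2, ‖∫ x, ee ((P x).1 * (T2 t).1 + (P x).2 * (T2 t).2) * g x‖ₑ ^ 2 =
        ∫⁻ t : ℝ × ℝ, ‖∫ x, ee ((P x).1 * t.1 + (P x).2 * t.2) * g x‖ₑ ^ 2 :=
      T2_mp.lintegral_comp_emb T2_me
        (fun t => ‖∫ x, ee ((P x).1 * t.1 + (P x).2 * t.2) * g x‖ₑ ^ 2)
    have h3 : ∫⁻ x : E 2, ‖g (T2 x)‖ₑ ^ 2 / ENNReal.ofReal |(Q' x).det| =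
        ∫⁻ x, ‖g x‖ₑ ^ 2 / ENNReal.ofReal |(P' x).det| := by
      rw [← T2_mp.lintegral_comp_emb T2_me (fun x => ‖g x‖ₑ ^ 2 / ENNReal.ofReal |(P' x).det|)]
      refine lintegral_congr fun x => ?_
      rw [hdetQ]
    rw [h2, h3] at h
    exact h
  · intro x hx
    have h1 : HasFDerivAt P (P' (T2 x)) (T2 x) := hP _ hx
    exact ((T2.symm.hasFDerivAt.comp _ (h1.comp x T2.hasFDerivAt))).hasFDerivWithinAt
  · intro x hx y hy hxy
    exact T2.injective (hinj hx hy (T2.symm.injective hxy))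
  · intro x hx
    rw [hdetQ]
    exact hdet _ hx
  · have h1 : (fun x => |(Q' x).det|) = fun x => |(P' (T2 x)).det| := by
      ext x; rw [hdetQ]
    rw [h1]
    exact hdm.comp T2.continuous.measurable
  · exact (T2_mp.integrable_comp_emb T2_me).2 hg
  · intro x hx
    exact hgV _ hx

/-- the line in coordinates -/
noncomputable def T1 : E 1 ≃L[ℝ] ℝ :=
  (EuclideanSpace.equiv (Fin 1) ℝ).trans (ContinuousLinearEquiv.funUnique (Fin 1) ℝ ℝ)

theorem T1_mp : MeasurePreserving (T1 : E 1 → ℝ) volume volume :=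
  (volume_preserving_funUnique (Fin 1) ℝ).comp (PiLp.volume_preserving_ofLp (Fin 1))

theorem T1_me : MeasurableEmbedding (T1 : E 1 → ℝ) :=
  T1.toHomeomorph.toMeasurableEquiv.measurableEmbedding

theorem T1_inner (p : ℝ) (y : E 1) : ⟪T1.symm p, y⟫ = p * T1 y := by
  obtain ⟨x, rfl⟩ : ∃ x, p = T1 x := ⟨T1.symm p, (T1.apply_symm_apply p).symm⟩
  rw [T1.symm_apply_apply, inner_eq, Fin.sum_univ_one]
  rfl

/-- Plancherel inequality in `ℝ` with a change of variable -/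
theorem planch1P (P P' : ℝ → ℝ) (hPm : Measurable P) (V : Set ℝ) (hV : MeasurableSet V)
    (hP : ∀ x ∈ V, HasDerivAt P (P' x) x) (hinj : InjOn P V) (hdet : ∀ x ∈ V, P' x ≠ 0)
    (hdm : Measurable P') (g : ℝ → ℂ) (hg : Integrable g) (hgV : ∀ x, x ∉ V → g x = 0) :
    ∫⁻ t : ℝ, ‖∫ x, ee (P x * t) * g x‖ₑ ^ 2 ≤ ∫⁻ x, ‖g x‖ₑ ^ 2 / ENNReal.ofReal |P' x| := by
  set Q' : E 1 → (E 1 →L[ℝ] E 1) := fun x =>
    (T1.symm : ℝ →L[ℝ] E 1).comp
      ((ContinuousLinearMap.toSpanSingleton ℝ (P' (T1 x))).comp (T1 : E 1 →L[ℝ] ℝ)) with hQ'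
  have hdetQ : ∀ x, (Q' x).det = P' (T1 x) := by
    intro x
    have h := LinearMap.det_conj
      ((ContinuousLinearMap.toSpanSingleton ℝ (P' (T1 x))).toLinearMap) T1.symm.toLinearEquiv
    refine h.trans ?_
    have h2 : (ContinuousLinearMap.toSpanSingleton ℝ (P' (T1 x))).toLinearMap =
        (P' (T1 x)) • (LinearMap.id : ℝ →ₗ[ℝ] ℝ) := by
      ext
      simp
    rw [h2, LinearMap.det_smul]
    simp
  have h := planch (fun x => T1.symm (P (T1 x)))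
    (T1.symm.continuous.measurable.comp (hPm.comp T1.continuous.measurable)) Q' (T1 ⁻¹' V)
    (T1.continuous.measurable hV) ?_ ?_ ?_ ?_ (fun x => g (T1 x)) ?_ ?_
  · have h1 : ∀ t : E 1, ∫ x : E 1, ee ⟪T1.symm (P (T1 x)), t⟫ * g (T1 x) =
        ∫ x, ee (P x * T1 t) * g x := by
      intro t
      rw [← T1_mp.integral_comp T1_me]
      refine integral_congr_ae (Eventually.of_forall fun x => ?_)
      simp only [T1_inner]
    simp_rw [h1] at h
    have h2 : ∫⁻ t : E 1, ‖∫ x, ee (P x * T1 t) * g x‖ₑ ^ 2 =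
        ∫⁻ t : ℝ, ‖∫ x, ee (P x * t) * g x‖ₑ ^ 2 :=
      T1_mp.lintegral_comp_emb T1_me (fun t => ‖∫ x, ee (P x * t) * g x‖ₑ ^ 2)
    have h3 : ∫⁻ x : E 1, ‖g (T1 x)‖ₑ ^ 2 / ENNReal.ofReal |(Q' x).det| =
        ∫⁻ x, ‖g x‖ₑ ^ 2 / ENNReal.ofReal |P' x| := by
      rw [← T1_mp.lintegral_comp_emb T1_me (fun x => ‖g x‖ₑ ^ 2 / ENNReal.ofReal |P' x|)]
      refine lintegral_congr fun x => ?_
      rw [hdetQ]
    rw [h2, h3] at h
    exact h
  · intro x hx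
    have h1 : HasFDerivAt P (ContinuousLinearMap.toSpanSingleton ℝ (P' (T1 x))) (T1 x) :=
      (hP _ hx).hasFDerivAt
    exact ((T1.symm.hasFDerivAt.comp _ (h1.comp x T1.hasFDerivAt))).hasFDerivWithinAt
  · intro x hx y hy hxy
    exact T1.injective (hinj hx hy (T1.symm.injective hxy))
  · intro x hx
    rw [hdetQ]
    exact hdet _ hx
  · have h1 : (fun x => |(Q' x).det|) = fun x => |P' (T1 x)| := by
      ext x; rw [hdetQ]
    rw [h1]
    exact (hdm.comp T1.continuous.measurable).abs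
  · exact (T1_mp.integrable_comp_emb T1_me).2 hg
  · intro x hx
    exact hgV _ hx

end Pool.Agent.J6H73.TPO
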