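import Mathlib
import Pool.Agent.J6H73.TPO.P1
set_option autoImplicit false

/-! The local bound for the extension operator of a circle of radius `r`. -/

namespace Pool.Agent.J6H73.TPO

open MeasureTheory Set Filter Topology
open scoped ENNReal
open Pool.Agent.R412.RT (E ee ee_norm ee_add ee_meas ee_cont)

theorem ang_eq {a b : ℝ} (ha : a ∈ Ioo (-Real.pi) Real.pi) (hb : b ∈ Ioo (-Real.pi) Real.pi)
    (hc : Real.cos a = Real.cos b) (hs : Real.sin a = Real.sin b) : a = b := by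
  have h1 : ((1 : ℝ), a) ∈ polarCoord.symm.source := ⟨zero_lt_one' ℝ, ha⟩
  have h2 : ((1 : ℝ), b) ∈ polarCoord.symm.source := ⟨zero_lt_one' ℝ, hb⟩
  have h := polarCoord.symm.injOn h1 h2 (by simp [hc, hs])
  exact (Prod.ext_iff.1 h).2

/-- sum of two points of the circle of radius `r` -/
noncomputable def Pc (r : ℝ) (p : ℝ × ℝ) : ℝ × ℝ :=
  (r * (Real.cos p.1 + Real.cos p.2), r * (Real.sin p.1 + Real.sin p.2))

noncomputable def Pc' (r : ℝ) (p : ℝ × ℝ) : ℝ × ℝ →L[ℝ] ℝ × ℝ :=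
  (Matrix.toLin (.finTwoProd ℝ) (.finTwoProd ℝ)
    !![-(r * Real.sin p.1), -(r * Real.sin p.2);
      r * Real.cos p.1, r * Real.cos p.2]).toContinuousLinearMap

theorem Pc'_det (r : ℝ) (p : ℝ × ℝ) : (Pc' r p).det = r ^ 2 * Real.sin (p.2 - p.1) := by
  unfold Pc'
  simp only [LinearMap.det_toContinuousLinearMap, LinearMap.det_toLin, Matrix.det_fin_two_of]
  rw [Real.sin_sub]
  ring

theorem Pc_deriv (r : ℝ) (p : ℝ × ℝ) : HasFDerivAt (Pc r) (Pc' r p) p := by
  unfold Pc'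
  rw [Matrix.toLin_finTwoProd_toContinuousLinearMap]
  have h1 : HasFDerivAt (fun p : ℝ × ℝ => r * (Real.cos p.1 + Real.cos p.2))
      (-(r * Real.sin p.1) • ContinuousLinearMap.fst ℝ ℝ ℝ +
        -(r * Real.sin p.2) • ContinuousLinearMap.snd ℝ ℝ ℝ) p := by
    have h := (((Real.hasDerivAt_cos p.1).comp_hasFDerivAt p (hasFDerivAt_fst (𝕜 := ℝ))).add
      ((Real.hasDerivAt_cos p.2).comp_hasFDerivAt p (hasFDerivAt_snd (𝕜 := ℝ)))).const_mul r
    refine h.congr_fderiv ?_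
    ext <;> simp
  have h2 : HasFDerivAt (fun p : ℝ × ℝ => r * (Real.sin p.1 + Real.sin p.2))
      ((r * Real.cos p.1) • ContinuousLinearMap.fst ℝ ℝ ℝ +
        (r * Real.cos p.2) • ContinuousLinearMap.snd ℝ ℝ ℝ) p := by
    have h := (((Real.hasDerivAt_sin p.1).comp_hasFDerivAt p (hasFDerivAt_fst (𝕜 := ℝ))).add
      ((Real.hasDerivAt_sin p.2).comp_hasFDerivAt p (hasFDerivAt_snd (𝕜 := ℝ)))).const_mul r
    refine h.congr_fderiv ?_
    ext <;> simp
  exact h1.prodMk h2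

/-- the ordered pairs of angles -/
def Vc : Set (ℝ × ℝ) :=
  {p | p.1 ∈ Ioo (-Real.pi) Real.pi ∧ p.2 ∈ Ioo (-Real.pi) Real.pi ∧ 0 < Real.sin (p.2 - p.1)}

theorem Vc_meas : MeasurableSet Vc := by
  refine (measurableSet_Ioo.preimage measurable_fst).inter
    ((measurableSet_Ioo.preimage measurable_snd).inter ?_)
  have h : Measurable fun p : ℝ × ℝ => Real.sin (p.2 - p.1) := by fun_prop
  exact measurableSet_lt measurable_const h

theorem alg_inj (c1 s1 c2 s2 d1 u1 d2 u2 : ℝ) (t1 : s1 ^ 2 + c1 ^ 2 = 1)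
    (t2 : s2 ^ 2 + c2 ^ 2 = 1) (t3 : u1 ^ 2 + d1 ^ 2 = 1) (t4 : u2 ^ 2 + d2 ^ 2 = 1)
    (e1 : c1 + c2 = d1 + d2) (e2 : s1 + s2 = u1 + u2) (hp3 : 0 < s2 * c1 - c2 * s1)
    (hq3 : 0 < u2 * d1 - d2 * u1) : c1 = d1 ∧ s1 = u1 := by
  obtain ⟨a, ha⟩ : ∃ a, a = c1 + c2 := ⟨_, rfl⟩
  obtain ⟨b, hb⟩ : ∃ b, b = s1 + s2 := ⟨_, rfl⟩
  have hc2 : c2 = a - c1 := by rw [ha]; ring
  have hs2 : s2 = b - s1 := by rw [hb]; ring
  have hd2 : d2 = a - d1 := by rw [ha, e1]; ring
  have hu2 : u2 = b - u1 := by rw [hb, e2]; ring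
  subst hc2 hs2 hd2 hu2
  have k1 : a ^ 2 + b ^ 2 = 2 * (a * c1 + b * s1) := by linear_combination t2 - t1
  have k2 : a ^ 2 + b ^ 2 = 2 * (a * d1 + b * u1) := by linear_combination t4 - t3
  have m1 : 0 < c1 * b - s1 * a := by linarith
  have m2 : 0 < d1 * b - u1 * a := by linarith
  have n1 : (c1 * b - s1 * a) ^ 2 = a ^ 2 + b ^ 2 - (a * c1 + b * s1) ^ 2 := by
    linear_combination (a ^ 2 + b ^ 2) * t1
  have n2 : (d1 * b - u1 * a) ^ 2 = a ^ 2 + b ^ 2 - (a * d1 + b * u1) ^ 2 := by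
    linear_combination (a ^ 2 + b ^ 2) * t3
  have hin : a * c1 + b * s1 = a * d1 + b * u1 := by linarith
  have hcr : c1 * b - s1 * a = d1 * b - u1 * a := by
    have : (c1 * b - s1 * a) ^ 2 = (d1 * b - u1 * a) ^ 2 := by rw [n1, n2, hin]
    exact (pow_left_inj₀ m1.le m2.le two_ne_zero).1 this
  have hab : 0 < a ^ 2 + b ^ 2 := by
    rcases eq_or_ne a 0 with h0 | h0
    · rcases eq_or_ne b 0 with h1 | h1
      · rw [h0, h1] at m1
        simp at m1
      · positivity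
    · positivity
  constructor
  · have : (c1 - d1) * (a ^ 2 + b ^ 2) = 0 := by linear_combination a * hin + b * hcr
    rcases mul_eq_zero.1 this with h0 | h0
    · linarith
    · exact absurd h0 hab.ne'
  · have : (s1 - u1) * (a ^ 2 + b ^ 2) = 0 := by linear_combination b * hin - a * hcr
    rcases mul_eq_zero.1 this with h0 | h0
    · linarith
    · exact absurd h0 hab.ne'

theorem Pc_inj (r : ℝ) (hr : 0 < r) : InjOn (Pc r) Vc := by
  rintro ⟨p1, p2⟩ hp ⟨q1, q2⟩ hq h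
  obtain ⟨hp1, hp2, hp3⟩ := hp
  obtain ⟨hq1, hq2, hq3⟩ := hq
  simp only at hp1 hp2 hp3 hq1 hq2 hq3
  have e1 : Real.cos p1 + Real.cos p2 = Real.cos q1 + Real.cos q2 :=
    mul_left_cancel₀ hr.ne' (Prod.ext_iff.1 h).1
  have e2 : Real.sin p1 + Real.sin p2 = Real.sin q1 + Real.sin q2 :=
    mul_left_cancel₀ hr.ne' (Prod.ext_iff.1 h).2
  rw [Real.sin_sub] at hp3 hq3
  obtain ⟨hc, hs⟩ := alg_inj _ _ _ _ _ _ _ _ (Real.sin_sq_add_cos_sq p1)
    (Real.sin_sq_add_cos_sq p2) (Real.sin_sq_add_cos_sq q1) (Real.sin_sq_add_cos_sq q2)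
    e1 e2 hp3 hq3
  have hc' : Real.cos p2 = Real.cos q2 := by linarith
  have hs' : Real.sin p2 = Real.sin q2 := by linarith
  rw [ang_eq hp1 hq1 hc hs, ang_eq hp2 hq2 hc' hs']

/-- the extension operator of the circle of radius `r` -/
noncomputable def hc (r : ℝ) (g : ℝ → ℂ) (x : ℝ × ℝ) : ℂ :=
  ∫ θ, ee (r * (Real.cos θ * x.1 + Real.sin θ * x.2)) * g θ

/-- the class of densities -/
structure Den (G : Set ℝ) (g : ℝ → ℂ) : Prop where
  Gm : MeasurableSet G
  Gs : G ⊆ Ioo (-Real.pi) Real.pi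
  meas : Measurable g
  bd : ∀ θ, ‖g θ‖ₑ ≤ G.indicator 1 θ

variable {G : Set ℝ} {g : ℝ → ℂ}

theorem Den.supp (h : Den G g) (θ : ℝ) (hθ : θ ∉ G) : g θ = 0 := by
  have := h.bd θ
  rw [indicator_of_notMem hθ, nonpos_iff_eq_zero, enorm_eq_zero] at this
  exact this

theorem Den.Gfin (h : Den G g) : volume G < ∞ :=
  (measure_mono h.Gs).trans_lt (by simp)

theorem Den.int (h : Den G g) : Integrable g := by
  refine ⟨h.meas.aestronglyMeasurable, ?_⟩
  show ∫⁻ θ, ‖g θ‖ₑ < ∞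
  refine (lintegral_mono h.bd).trans_lt ?_
  rw [lintegral_indicator_one h.Gm]
  exact h.Gfin

theorem Den.int2 (h : Den G g) : Integrable (fun p : ℝ × ℝ => g p.1 * g p.2)
    (volume : Measure (ℝ × ℝ)) :=
  h.int.mul_prod h.int

theorem hc_meas (r : ℝ) (g : ℝ → ℂ) (hg : Measurable g) : Measurable (hc r g) := by
  unfold hc
  have : StronglyMeasurable (Function.uncurry fun (x : ℝ × ℝ) (θ : ℝ) =>
      ee (r * (Real.cos θ * x.1 + Real.sin θ * x.2)) * g θ) := by
    refine Measurable.stronglyMeasurable ?_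
    refine Measurable.mul (ee_meas.comp ?_) (hg.comp measurable_snd)
    fun_prop
  exact this.integral_prod_right.measurable

/-- pieces of the square -/
noncomputable def Qc (r : ℝ) (g : ℝ → ℂ) (S : Set (ℝ × ℝ)) (x : ℝ × ℝ) : ℂ :=
  ∫ p : ℝ × ℝ, ee ((Pc r p).1 * x.1 + (Pc r p).2 * x.2) *
    S.indicator (fun p => g p.1 * g p.2) p

theorem hc_sq (r : ℝ) (x : ℝ × ℝ) : hc r g x ^ 2 = Qc r g univ x := by
  unfold Qc hc
  rw [sq, ← integral_prod_mul]
  refine integral_congr_ae (Eventually.of_forall fun p => ?_)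
  simp only [Set.indicator_univ, Pc]
  rw [show (r * (Real.cos p.1 + Real.cos p.2) * x.1 + r * (Real.sin p.1 + Real.sin p.2) * x.2) =
    r * (Real.cos p.1 * x.1 + Real.sin p.1 * x.2) +
      r * (Real.cos p.2 * x.1 + Real.sin p.2 * x.2) by ring, ee_add]
  ring

theorem Qc_int (h : Den G g) (r : ℝ) (S : Set (ℝ × ℝ)) (hS : MeasurableSet S) (x : ℝ × ℝ) :
    Integrable (fun p : ℝ × ℝ => ee ((Pc r p).1 * x.1 + (Pc r p).2 * x.2) *
      S.indicator (fun p => g p.1 * g p.2) p) := by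
  refine (h.int2.indicator hS).bdd_mul (c := 1) ?_ (Eventually.of_forall fun p => ?_)
  · refine (ee_meas.comp ?_).aestronglyMeasurable
    unfold Pc
    fun_prop
  · rw [ee_norm]

theorem Qc_swap (r : ℝ) (S : Set (ℝ × ℝ)) (x : ℝ × ℝ) :
    Qc r g (Prod.swap ⁻¹' S) x = Qc r g S x := by
  unfold Qc
  have hsw : ∀ F : ℝ × ℝ → ℂ, ∫ z : ℝ × ℝ, F z.swap = ∫ z : ℝ × ℝ, F z := fun F => by
    rw [Measure.volume_eq_prod]
    exact integral_prod_swap F
  rw [← hsw (fun p => ee ((Pc r p).1 * x.1 + (Pc r p).2 * x.2) *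
    S.indicator (fun p => g p.1 * g p.2) p)]
  refine integral_congr_ae (Eventually.of_forall fun p => ?_)
  have h1 : ∀ T : Set (ℝ × ℝ), ∀ F : ℝ × ℝ → ℂ, T.indicator F (p.swap) =
      (Prod.swap ⁻¹' T).indicator (fun q => F q.swap) p := by
    intro T F
    by_cases hp : p.swap ∈ T
    · rw [indicator_of_mem hp, indicator_of_mem (show p ∈ Prod.swap ⁻¹' T from hp)]
    · rw [indicator_of_notMem hp, indicator_of_notMem (show p ∉ Prod.swap ⁻¹' T from hp)]
  simp only [h1, Pc, Prod.fst_swap, Prod.snd_swap]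
  congr 1
  · congr 1; ring
  · congr 1
    ext q
    ring

/-- the near pairs -/
def Sn (l : ℝ) : Set (ℝ × ℝ) := {p | |Real.sin (p.2 - p.1)| < l}

/-- the far pairs -/
def Sf (l : ℝ) : Set (ℝ × ℝ) := {p | l ≤ Real.sin (p.2 - p.1)}

theorem Sn_meas (l : ℝ) : MeasurableSet (Sn l) :=
  measurableSet_lt (by fun_prop) measurable_const

theorem Sf_meas (l : ℝ) : MeasurableSet (Sf l) :=
  measurableSet_le measurable_const (by fun_prop)

theorem split_sq (h : Den G g) (r l : ℝ) (hl : 0 < l) (x : ℝ × ℝ) :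
    ‖hc r g x‖ₑ ^ 2 ≤ ‖Qc r g (Sn l) x‖ₑ + 2 * ‖Qc r g (Sf l) x‖ₑ := by
  have h1 : hc r g x ^ 2 = Qc r g (Sn l) x + Qc r g (Sf l) x + Qc r g (Prod.swap ⁻¹' Sf l) x := by
    rw [hc_sq]
    unfold Qc
    have i1 := Qc_int h r (Sn l) (Sn_meas l) x
    have i2 := Qc_int h r (Sf l) (Sf_meas l) x
    have i3 := Qc_int h r (Prod.swap ⁻¹' Sf l) (measurable_swap (Sf_meas l)) x
    have i12 := i1.add i2
    rw [← integral_add i1 i2]
    refine Eq.trans ?_ (integral_add i12 i3)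
    refine integral_congr_ae (Eventually.of_forall fun p => ?_)
    simp only [Pi.add_apply]
    rw [← mul_add, ← mul_add]
    congr 1
    have hsw : Real.sin (p.1 - p.2) = -Real.sin (p.2 - p.1) := by
      rw [← Real.sin_neg]; congr 1; ring
    have e3 : p ∈ Prod.swap ⁻¹' Sf l ↔ l ≤ -Real.sin (p.2 - p.1) := by
      rw [← hsw]; rfl
    have e1 : p ∈ Sn l ↔ |Real.sin (p.2 - p.1)| < l := Iff.rfl
    have e2 : p ∈ Sf l ↔ l ≤ Real.sin (p.2 - p.1) := Iff.rfl
    rw [indicator_of_mem (mem_univ p)]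
    by_cases c1 : |Real.sin (p.2 - p.1)| < l
    · have := abs_lt.1 c1
      rw [indicator_of_mem (e1.2 c1), indicator_of_notMem (fun hh => by
        have := e2.1 hh; linarith), indicator_of_notMem (fun hh => by
        have := e3.1 hh; linarith), add_zero, add_zero]
    · rw [indicator_of_notMem (fun hh => c1 (e1.1 hh)), zero_add]
      push Not at c1
      rcases le_abs.1 c1 with c2 | c2
      · rw [indicator_of_mem (e2.2 c2), indicator_of_notMem (fun hh => by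
          have := e3.1 hh; linarith), add_zero]
      · rw [indicator_of_mem (e3.2 c2), indicator_of_notMem (fun hh => by
          have := e2.1 hh; linarith), zero_add]
  rw [Qc_swap] at h1
  rw [← enorm_pow, h1]
  calc ‖Qc r g (Sn l) x + Qc r g (Sf l) x + Qc r g (Sf l) x‖ₑ
      ≤ ‖Qc r g (Sn l) x + Qc r g (Sf l) x‖ₑ + ‖Qc r g (Sf l) x‖ₑ := enorm_add_le _ _
    _ ≤ (‖Qc r g (Sn l) x‖ₑ + ‖Qc r g (Sf l) x‖ₑ) + ‖Qc r g (Sf l) x‖ₑ :=
        add_le_add_left (enorm_add_le _ _) _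
    _ = _ := by ring

theorem enorm_gg (h : Den G g) (p : ℝ × ℝ) : ‖g p.1 * g p.2‖ₑ ≤ (G ×ˢ G).indicator 1 p := by
  rw [enorm_mul]
  refine (mul_le_mul' (h.bd p.1) (h.bd p.2)).trans (le_of_eq ?_)
  by_cases h1 : p.1 ∈ G <;> by_cases h2 : p.2 ∈ G <;> simp [h1, h2, indicator, mem_prod]

/-- the number of near pairs -/
noncomputable def Nn (G : Set ℝ) (l : ℝ) : ℝ≥0∞ := ∫⁻ p in G ×ˢ G, (Sn l).indicator 1 p

/-- the energy of the far pairs -/
noncomputable def Fn (G : Set ℝ) (l : ℝ) : ℝ≥0∞ :=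
  ∫⁻ p in G ×ˢ G, (Sf l).indicator (fun p => (ENNReal.ofReal |Real.sin (p.2 - p.1)|)⁻¹) p

theorem near_le (h : Den G g) (r l : ℝ) (x : ℝ × ℝ) : ‖Qc r g (Sn l) x‖ₑ ≤ Nn G l := by
  unfold Qc Nn
  refine (enorm_integral_le_lintegral_enorm _).trans ?_
  rw [← lintegral_indicator (h.Gm.prod h.Gm)]
  refine lintegral_mono fun p => ?_
  rw [enorm_mul, ← ofReal_norm, ee_norm, ENNReal.ofReal_one, one_mul]
  by_cases h1 : p ∈ Sn l
  · rw [indicator_of_mem h1]
    refine (enorm_gg h p).trans ?_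
    by_cases h2 : p ∈ G ×ˢ G
    · rw [indicator_of_mem h2, indicator_of_mem h2, indicator_of_mem h1]
    · rw [indicator_of_notMem h2, indicator_of_notMem h2]
  · rw [indicator_of_notMem h1, enorm_zero]
    exact zero_le

theorem far_le (h : Den G g) (r l : ℝ) (hr : 0 < r) (hl : 0 < l) :
    ∫⁻ x, ‖Qc r g (Sf l) x‖ₑ ^ 2 ≤ (ENNReal.ofReal (r ^ 2))⁻¹ * Fn G l := by
  have hS := Sf_meas l
  have hr2 : 0 < r ^ 2 := by positivity
  have hGG : ∀ p : ℝ × ℝ, p ∉ G ×ˢ G → g p.1 * g p.2 = 0 := by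
    intro p hp
    by_contra hne
    refine hp ⟨?_, ?_⟩
    · by_contra h1
      exact hne (by rw [h.supp _ h1, zero_mul])
    · by_contra h1
      exact hne (by rw [h.supp _ h1, mul_zero])
  have h0 : ∀ p : ℝ × ℝ, p ∉ Vc → (Sf l).indicator (fun p : ℝ × ℝ => g p.1 * g p.2) p = 0 := by
    intro p hp
    by_contra hne
    by_cases h1 : p ∈ Sf l
    · rw [indicator_of_mem h1] at hne
      by_cases h2 : p ∈ G ×ˢ G
      · exact hp ⟨h.Gs h2.1, h.Gs h2.2, lt_of_lt_of_le hl h1⟩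
      · exact hne (hGG p h2)
    · exact hne (indicator_of_notMem h1 _)
  have hdm : Measurable fun p : ℝ × ℝ => |(Pc' r p).det| := by
    simp_rw [Pc'_det]
    fun_prop
  have hm : Measurable (Pc r) := by unfold Pc; fun_prop
  have key := planch2 (Pc r) hm (Pc' r) Vc Vc_meas
    (fun p _ => Pc_deriv r p) (Pc_inj r hr) (fun p hp => by
      rw [Pc'_det]; exact (mul_pos hr2 hp.2.2).ne') hdm
    ((Sf l).indicator (fun p => g p.1 * g p.2)) (h.int2.indicator hS) h0
  refine key.trans ?_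
  unfold Fn
  have hmm : Measurable fun p : ℝ × ℝ =>
      (Sf l).indicator (fun p : ℝ × ℝ => (ENNReal.ofReal |Real.sin (p.2 - p.1)|)⁻¹) p :=
    Measurable.indicator (by fun_prop) hS
  rw [← lintegral_const_mul _ hmm, ← lintegral_indicator (h.Gm.prod h.Gm)]
  refine lintegral_mono fun p => ?_
  by_cases h1 : p ∈ Sf l
  · by_cases h2 : p ∈ G ×ˢ G
    · rw [indicator_of_mem h1, indicator_of_mem h2, indicator_of_mem h1, Pc'_det]
      have h3 : 0 < Real.sin (p.2 - p.1) := lt_of_lt_of_le hl h1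
      have h4 : ‖g p.1 * g p.2‖ₑ ^ 2 ≤ 1 := by
        have h5 := enorm_gg h p
        rw [indicator_of_mem h2, Pi.one_apply] at h5
        calc ‖g p.1 * g p.2‖ₑ ^ 2 ≤ 1 ^ 2 := by gcongr
          _ = 1 := one_pow 2
      rw [abs_mul, abs_of_pos hr2, ENNReal.ofReal_mul hr2.le, ENNReal.div_eq_inv_mul,
        ENNReal.mul_inv (Or.inl (by simpa using hr.ne')) (Or.inl ENNReal.ofReal_ne_top)]
      exact mul_le_of_le_one_right zero_le h4
    · rw [indicator_of_mem h1, indicator_of_notMem h2, hGG p h2, enorm_zero]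
      simp
  · rw [indicator_of_notMem h1, enorm_zero]
    simp

/-- **circle bound** -/
theorem circle_bound (h : Den G g) (r l : ℝ) (hr : 0 < r) (hl : 0 < l) (A : Set (ℝ × ℝ)) :
    ∫⁻ x in A, ‖hc r g x‖ₑ ^ 2 ≤ volume A * Nn G l +
      2 * (volume A ^ (1 / 2 : ℝ) * ((ENNReal.ofReal (r ^ 2))⁻¹ * Fn G l) ^ (1 / 2 : ℝ)) := by
  have hQm : AEMeasurable (fun x => ‖Qc r g (Sf l) x‖ₑ) (volume.restrict A) := by
    refine Measurable.aemeasurable ?_
    refine Measurable.enorm ?_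
    unfold Qc
    have : StronglyMeasurable (Function.uncurry fun (x p : ℝ × ℝ) =>
        ee ((Pc r p).1 * x.1 + (Pc r p).2 * x.2) *
          (Sf l).indicator (fun p => g p.1 * g p.2) p) := by
      refine Measurable.stronglyMeasurable ?_
      refine Measurable.mul (ee_meas.comp ?_) ?_
      · unfold Pc; fun_prop
      · refine Measurable.comp (Measurable.indicator ?_ (Sf_meas l)) measurable_snd
        exact (h.meas.comp measurable_fst).mul (h.meas.comp measurable_snd)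
    exact this.integral_prod_right.measurable
  calc ∫⁻ x in A, ‖hc r g x‖ₑ ^ 2 ≤ ∫⁻ x in A, (Nn G l + 2 * ‖Qc r g (Sf l) x‖ₑ) := by
        refine lintegral_mono fun x => (split_sq h r l hl x).trans ?_
        exact add_le_add_left (near_le h r l x) _
    _ = volume A * Nn G l + 2 * ∫⁻ x in A, ‖Qc r g (Sf l) x‖ₑ := by
        rw [lintegral_add_left measurable_const, setLIntegral_const, mul_comm,
          lintegral_const_mul'' _ hQm]
    _ ≤ _ := by
        refine add_le_add_right (mul_le_mul_right ?_ _) _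
        have hH := ENNReal.lintegral_mul_le_Lp_mul_Lq (volume.restrict A)
          Real.HolderConjugate.two_two (f := fun _ => 1) (g := fun x => ‖Qc r g (Sf l) x‖ₑ)
          aemeasurable_const hQm
        simp only [Pi.mul_apply, one_mul, ENNReal.one_rpow, lintegral_one,
          Measure.restrict_apply_univ] at hH
        refine hH.trans (mul_le_mul_right (ENNReal.rpow_le_rpow ?_ (by norm_num)) _)
        refine le_trans ?_ (far_le h r l hr hl)
        simp_rw [ENNReal.rpow_two]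
        exact setLIntegral_le_lintegral _ _

/-- trivial bound -/
theorem circle_triv (h : Den G g) (r : ℝ) (A : Set (ℝ × ℝ)) :
    ∫⁻ x in A, ‖hc r g x‖ₑ ^ 2 ≤ volume A * volume G ^ 2 := by
  have h1 : ∀ x, ‖hc r g x‖ₑ ≤ volume G := by
    intro x
    unfold hc
    refine (enorm_integral_le_lintegral_enorm _).trans ?_
    rw [← lintegral_indicator_one h.Gm]
    refine lintegral_mono fun θ => ?_
    rw [enorm_mul, ← ofReal_norm, ee_norm, ENNReal.ofReal_one, one_mul]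
    exact h.bd θ
  calc ∫⁻ x in A, ‖hc r g x‖ₑ ^ 2 ≤ ∫⁻ _ in A, volume G ^ 2 :=
        lintegral_mono fun x => by gcongr; exact h1 x
    _ = _ := by rw [setLIntegral_const, mul_comm]

end Pool.Agent.J6H73.TPO
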