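import Mathlib
import Pool.Agent.J6H73.TPO.P2
set_option autoImplicit false

/-! The kernel `|sin|^(η-1)` on short arcs. -/

namespace Pool.Agent.J6H73.TPO

open MeasureTheory Set Filter Topology
open scoped ENNReal

theorem rpow_anti {a b : ℝ≥0∞} {z : ℝ} (hz : z ≤ 0) (h : a ≤ b) : b ^ z ≤ a ^ z := by
  have h1 : ∀ c : ℝ≥0∞, c ^ z = (c ^ (-z))⁻¹ := fun c => by
    rw [← ENNReal.rpow_neg, neg_neg]
  rw [h1, h1]
  exact ENNReal.inv_le_inv.2 (ENNReal.rpow_le_rpow h (by linarith))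

theorem scaleR (a : ℝ) (ha : a ≠ 0) (F : ℝ → ℝ≥0∞) (hF : Measurable F) :
    ∫⁻ x, F (a * x) = ENNReal.ofReal |a⁻¹| * ∫⁻ x, F x := by
  have h := Real.map_volume_mul_left ha
  have h2 : ∫⁻ x, F x ∂(Measure.map (a * ·) (volume : Measure ℝ)) = ∫⁻ x, F (a * x) :=
    lintegral_map hF (measurable_const_mul a)
  rw [← h2, h, lintegral_smul_measure, smul_eq_mul]

/-- one sided model -/
noncomputable def ps (η τ w : ℝ) : ℝ≥0∞ :=
  (Ioc (0 : ℝ) τ).indicator (fun w => ENNReal.ofReal (w ^ (η - 1))) w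

theorem ps_meas (η τ : ℝ) : Measurable (ps η τ) :=
  Measurable.indicator (by fun_prop) measurableSet_Ioc

theorem ps_int (η τ : ℝ) (hη : 0 < η) (hτ : 0 ≤ τ) :
    ∫⁻ w, ps η τ w = ENNReal.ofReal (τ ^ η / η) := by
  unfold ps
  rw [lintegral_indicator measurableSet_Ioc]
  have hex : -1 < η - 1 := by linarith
  have hint : IntervalIntegrable (fun t : ℝ => t ^ (η - 1)) volume 0 τ :=
    intervalIntegral.intervalIntegrable_rpow' hex
  rw [← ofReal_integral_eq_lintegral_ofReal, ← intervalIntegral.integral_of_le hτ,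
    integral_rpow (Or.inl hex)]
  · congr 1
    rw [sub_add_cancel, Real.zero_rpow hη.ne', sub_zero]
  · rw [intervalIntegrable_iff_integrableOn_Ioc_of_le hτ] at hint
    exact hint
  · refine (ae_restrict_mem measurableSet_Ioc).mono fun t ht => ?_
    have : 0 ≤ t := ht.1.le
    positivity

/-- the kernel -/
noncomputable def Ks (η τ v : ℝ) : ℝ≥0∞ :=
  if |Real.sin v| ≤ τ then ENNReal.ofReal |Real.sin v| ^ (η - 1) else 0

/-- the model of the kernel -/
noncomputable def ph (η τ w : ℝ) : ℝ≥0∞ :=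
  if |2 / Real.pi * w| ≤ τ then ENNReal.ofReal |2 / Real.pi * w| ^ (η - 1) else 0

theorem Ks_meas (η τ : ℝ) : Measurable (Ks η τ) := by
  unfold Ks
  refine Measurable.ite ?_ (by fun_prop) measurable_const
  have h : Measurable fun v : ℝ => |Real.sin v| := by fun_prop
  exact measurableSet_le h measurable_const

theorem ph_meas (η τ : ℝ) : Measurable (ph η τ) := by
  unfold ph
  refine Measurable.ite ?_ (by fun_prop) measurable_const
  have h : Measurable fun w : ℝ => |2 / Real.pi * w| := by fun_prop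
  exact measurableSet_le h measurable_const

theorem ph_int (η τ : ℝ) (hη : 0 < η) (hτ : 0 ≤ τ) :
    ∫⁻ w, ph η τ w ≤ ENNReal.ofReal (Real.pi * τ ^ η / η) := by
  have hpi := Real.pi_pos
  have h0 : (2 / Real.pi) ≠ 0 := by positivity
  have h1 : ∫⁻ w, ph η τ w = ENNReal.ofReal |(2 / Real.pi)⁻¹| *
      ∫⁻ r : ℝ, (if |r| ≤ τ then ENNReal.ofReal |r| ^ (η - 1) else 0) := by
    rw [← scaleR (2 / Real.pi) h0]
    · rfl
    · refine Measurable.ite ?_ (by fun_prop) measurable_const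
      have h : Measurable fun w : ℝ => |w| := by fun_prop
      exact measurableSet_le h measurable_const
  have h2 : ∫⁻ r : ℝ, (if |r| ≤ τ then ENNReal.ofReal |r| ^ (η - 1) else 0) ≤
      ∫⁻ r, (ps η τ r + ps η τ (-r)) := by
    have hne : ∀ᵐ r : ℝ, r ≠ 0 := by
      have : (volume : Measure ℝ) {0} = 0 := Real.volume_singleton
      exact (measure_eq_zero_iff_ae_notMem.1 this).mono fun r hr => by simpa using hr
    refine lintegral_mono_ae (hne.mono fun r hr => ?_)
    split_ifs with hrt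
    · rcases lt_or_gt_of_ne hr with h3 | h3
      · rw [abs_of_neg h3] at hrt ⊢
        refine le_trans (le_of_eq ?_) le_add_self
        unfold ps
        rw [indicator_of_mem (show -r ∈ Ioc 0 τ from ⟨by linarith, hrt⟩),
          ENNReal.ofReal_rpow_of_pos (by linarith)]
      · rw [abs_of_pos h3] at hrt ⊢
        refine le_trans (le_of_eq ?_) le_self_add
        unfold ps
        rw [indicator_of_mem (show r ∈ Ioc 0 τ from ⟨h3, hrt⟩),
          ENNReal.ofReal_rpow_of_pos h3]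
    · exact zero_le
  have h3 : ∫⁻ r, (ps η τ r + ps η τ (-r)) = 2 * ENNReal.ofReal (τ ^ η / η) := by
    rw [lintegral_add_left (ps_meas η τ), lintegral_neg_eq_self (ps η τ), ps_int η τ hη hτ, two_mul]
  rw [h1]
  refine (mul_le_mul_right (h2.trans (le_of_eq h3)) _).trans (le_of_eq ?_)
  rw [show (2 : ℝ≥0∞) = ENNReal.ofReal 2 by simp, ← ENNReal.ofReal_mul zero_le_two,
    ← ENNReal.ofReal_mul (abs_nonneg _)]
  congr 1
  rw [abs_of_pos (by positivity)]
  field_simp

theorem Ks_le (η τ v : ℝ) (hη1 : η ≤ 1) (hv : v ∈ Ioo (-(2 * Real.pi)) (2 * Real.pi)) :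
    Ks η τ v ≤ ∑ k ∈ Finset.Icc (-2 : ℤ) 2, ph η τ (v - k * Real.pi) := by
  have hpi := Real.pi_pos
  set k : ℤ := round (v / Real.pi) with hk
  have h1 : |v / Real.pi - k| ≤ 1 / 2 := abs_sub_round _
  have h2 : |v - k * Real.pi| ≤ Real.pi / 2 := by
    have : v - k * Real.pi = (v / Real.pi - k) * Real.pi := by field_simp
    rw [this, abs_mul, abs_of_pos hpi]
    nlinarith
  have hv1 : -2 < v / Real.pi := by
    rw [lt_div_iff₀ hpi]; linarith [hv.1]
  have hv2 : v / Real.pi < 2 := by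
    rw [div_lt_iff₀ hpi]; linarith [hv.2]
  have h3 := abs_le.1 h1
  have hk1 : (-2 : ℤ) ≤ k := by
    by_contra hh
    push Not at hh
    have : k ≤ -3 := by omega
    have : (k : ℝ) ≤ -3 := by exact_mod_cast this
    linarith
  have hk2 : k ≤ 2 := by
    by_contra hh
    push Not at hh
    have : 3 ≤ k := by omega
    have : (3 : ℝ) ≤ k := by exact_mod_cast this
    linarith
  have hmem : k ∈ Finset.Icc (-2 : ℤ) 2 := Finset.mem_Icc.2 ⟨hk1, hk2⟩
  refine le_trans ?_ (Finset.single_le_sum (f := fun k : ℤ => ph η τ (v - k * Real.pi))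
    (fun _ _ => zero_le) hmem)
  have hsin : |Real.sin (v - k * Real.pi)| = |Real.sin v| := by
    rw [Real.sin_sub_int_mul_pi, abs_mul, abs_zpow, abs_neg, abs_one, one_zpow, one_mul]
  have hb := Real.mul_abs_le_abs_sin h2
  rw [hsin] at hb
  have hb' : |2 / Real.pi * (v - k * Real.pi)| ≤ |Real.sin v| := by
    rw [abs_mul, abs_of_pos (by positivity : (0 : ℝ) < 2 / Real.pi)]
    exact hb
  unfold Ks ph
  split_ifs with c1 c2 c2
  · exact rpow_anti (by linarith) (ENNReal.ofReal_le_ofReal hb')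
  · exact absurd (hb'.trans c1) c2
  · exact zero_le
  · exact le_rfl

theorem Ks_int (η τ : ℝ) (hη : 0 < η) (hη1 : η ≤ 1) (hτ : 0 ≤ τ) :
    ∫⁻ v in Ioo (-(2 * Real.pi)) (2 * Real.pi), Ks η τ v ≤
      ENNReal.ofReal (5 * (Real.pi * τ ^ η / η)) := by
  calc ∫⁻ v in Ioo (-(2 * Real.pi)) (2 * Real.pi), Ks η τ v
      ≤ ∫⁻ v in Ioo (-(2 * Real.pi)) (2 * Real.pi),
        ∑ k ∈ Finset.Icc (-2 : ℤ) 2, ph η τ (v - k * Real.pi) :=
        setLIntegral_mono' measurableSet_Ioo fun v hv => Ks_le η τ v hη1 hv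
    _ ≤ ∫⁻ v, ∑ k ∈ Finset.Icc (-2 : ℤ) 2, ph η τ (v - k * Real.pi) :=
        setLIntegral_le_lintegral _ _
    _ = ∑ k ∈ Finset.Icc (-2 : ℤ) 2, ∫⁻ v, ph η τ (v - k * Real.pi) := by
        refine lintegral_finsetSum _ fun k _ => ?_
        exact (ph_meas η τ).comp (by fun_prop)
    _ = ∑ k ∈ Finset.Icc (-2 : ℤ) 2, ∫⁻ v, ph η τ v := by
        refine Finset.sum_congr rfl fun k _ => ?_
        exact lintegral_sub_right_eq_self (ph η τ) _
    _ ≤ ∑ k ∈ Finset.Icc (-2 : ℤ) 2, ENNReal.ofReal (Real.pi * τ ^ η / η) :=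
        Finset.sum_le_sum fun k _ => ph_int η τ hη hτ
    _ = _ := by
        rw [Finset.sum_const, Int.card_Icc, ENNReal.ofReal_mul (by norm_num), nsmul_eq_mul]
        congr 1
        rw [show (2 + 1 - -2 : ℤ).toNat = 5 from rfl]
        norm_num

/-- the constant -/
noncomputable def cK (η : ℝ) : ℝ := 15 * Real.pi / η

theorem cK_pos (η : ℝ) (hη : 0 < η) : 0 < cK η := by
  unfold cK
  have := Real.pi_pos
  positivity

/-- short arcs -/
structure Arc (G : Set ℝ) (r : ℝ) : Prop where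
  Gm : MeasurableSet G
  Gs : G ⊆ Ioo (-Real.pi) Real.pi
  chord : ∀ θ ∈ G, ∀ θ' ∈ G, r * |Real.sin ((θ' - θ) / 2)| ≤ 1

theorem Arc.kernel {G : Set ℝ} {r : ℝ} (h : Arc G r) (hr : 0 < r) (η : ℝ) (hη : 0 < η)
    (hη1 : η ≤ 1) (θ : ℝ) (hθ : θ ∈ G) :
    ∫⁻ θ' in G, ENNReal.ofReal |Real.sin (θ' - θ)| ^ (η - 1) ≤
      ENNReal.ofReal (cK η * (1 + r) ^ (-η)) := by
  have hpi := Real.pi_pos
  have hθ1 := h.Gs hθ
  have h1r : (0 : ℝ) < 1 + r := by linarith
  rcases le_or_gt r 2 with hr2 | hr2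
  · -- all of the circle
    have e1 : ∫⁻ θ' in G, ENNReal.ofReal |Real.sin (θ' - θ)| ^ (η - 1) ≤
        ∫⁻ θ', (Ioo (-(2 * Real.pi)) (2 * Real.pi)).indicator (Ks η 1) (θ' - θ) := by
      rw [← lintegral_indicator h.Gm]
      refine lintegral_mono fun θ' => ?_
      by_cases hm : θ' ∈ G
      · have hm1 := h.Gs hm
        rw [indicator_of_mem hm, indicator_of_mem]
        · unfold Ks
          rw [if_pos (Real.abs_sin_le_one _)]
        · constructor <;> [linarith [hm1.1, hθ1.2]; linarith [hm1.2, hθ1.1]]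
      · rw [indicator_of_notMem hm]
        exact zero_le
    refine e1.trans ?_
    rw [lintegral_sub_right_eq_self, lintegral_indicator measurableSet_Ioo]
    refine (Ks_int η 1 hη hη1 zero_le_one).trans (ENNReal.ofReal_le_ofReal ?_)
    rw [Real.one_rpow]
    unfold cK
    have h3 : (1 : ℝ) / 3 ≤ (1 + r) ^ (-η) := by
      calc (1 : ℝ) / 3 = 3 ^ (-1 : ℝ) := by rw [Real.rpow_neg_one]; norm_num
        _ ≤ (3 : ℝ) ^ (-η) := Real.rpow_le_rpow_of_exponent_le (by norm_num) (by linarith)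
        _ ≤ (1 + r) ^ (-η) := Real.rpow_le_rpow_of_nonpos h1r (by linarith) (by linarith)
    calc 5 * (Real.pi * 1 / η) = 15 * Real.pi / η * (1 / 3) := by ring
      _ ≤ _ := by gcongr
  · -- a short arc
    have e1 : ∫⁻ θ' in G, ENNReal.ofReal |Real.sin (θ' - θ)| ^ (η - 1) ≤
        ∫⁻ θ', (fun w => (Ioo (-(2 * Real.pi)) (2 * Real.pi)).indicator (Ks η (1 / r))
          (1 / 2 * w)) (θ' - θ) := by
      rw [← lintegral_indicator h.Gm]
      refine lintegral_mono fun θ' => ?_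
      by_cases hm : θ' ∈ G
      · have hm1 := h.Gs hm
        simp only
        rw [indicator_of_mem hm, indicator_of_mem (s := Ioo (-(2 * Real.pi)) (2 * Real.pi))]
        · set v : ℝ := 1 / 2 * (θ' - θ) with hv
          have hc := h.chord θ hθ θ' hm
          rw [show (θ' - θ) / 2 = v by rw [hv]; ring] at hc
          have hc' : |Real.sin v| ≤ 1 / r := by
            rw [le_div_iff₀ hr]; linarith
          unfold Ks
          rw [if_pos hc']
          have hh : |Real.sin v| ≤ 1 / 2 := hc'.trans (by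
            rw [div_le_div_iff₀ hr (by norm_num)]; linarith)
          have hcos : 1 / 2 ≤ |Real.cos v| := by
            have h4 := Real.sin_sq_add_cos_sq v
            have h5 : |Real.sin v| ^ 2 ≤ (1 / 2) ^ 2 := by gcongr
            rw [sq_abs] at h5
            by_contra h6
            push Not at h6
            have h7 : |Real.cos v| ^ 2 ≤ (1 / 2) ^ 2 := by gcongr
            rw [sq_abs] at h7
            nlinarith
          have hs : |Real.sin v| ≤ |Real.sin (θ' - θ)| := by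
            rw [show θ' - θ = 2 * v by rw [hv]; ring, Real.sin_two_mul, abs_mul, abs_mul,
              abs_two]
            nlinarith [abs_nonneg (Real.sin v)]
          exact rpow_anti (by linarith) (ENNReal.ofReal_le_ofReal hs)
        · constructor <;> [linarith [hm1.1, hθ1.2]; linarith [hm1.2, hθ1.1]]
      · rw [indicator_of_notMem hm]
        exact zero_le
    refine e1.trans ?_
    rw [lintegral_sub_right_eq_self (fun w => (Ioo (-(2 * Real.pi)) (2 * Real.pi)).indicator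
      (Ks η (1 / r)) (1 / 2 * w)), scaleR (1 / 2) (by norm_num) _
      ((Ks_meas η (1 / r)).indicator measurableSet_Ioo), lintegral_indicator measurableSet_Ioo]
    refine (mul_le_mul_right (Ks_int η (1 / r) hη hη1 (by positivity)) _).trans ?_
    rw [← ENNReal.ofReal_mul (abs_nonneg _)]
    refine ENNReal.ofReal_le_ofReal ?_
    have h3 : (1 / r) ^ η ≤ 3 / 2 * (1 + r) ^ (-η) := by
      have h4 : 1 / r ≤ 3 / 2 * (1 + r)⁻¹ := by
        rw [← div_eq_mul_inv, div_le_div_iff₀ hr h1r]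
        linarith
      calc (1 / r) ^ η ≤ (3 / 2 * (1 + r)⁻¹) ^ η :=
            Real.rpow_le_rpow (by positivity) h4 hη.le
        _ = (3 / 2) ^ η * (1 + r) ^ (-η) := by
            rw [Real.mul_rpow (by norm_num) (by positivity), Real.inv_rpow h1r.le,
              Real.rpow_neg h1r.le]
        _ ≤ (3 / 2) ^ (1 : ℝ) * (1 + r) ^ (-η) := by
            gcongr
            · norm_num
        _ = _ := by rw [Real.rpow_one]
    unfold cK
    rw [show |((1 : ℝ) / 2)⁻¹| = 2 by norm_num]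
    calc 2 * (5 * (Real.pi * (1 / r) ^ η / η)) = 10 * Real.pi / η * (1 / r) ^ η := by ring
      _ ≤ 10 * Real.pi / η * (3 / 2 * (1 + r) ^ (-η)) := by gcongr
      _ = _ := by ring

theorem Arc.vol {G : Set ℝ} {r : ℝ} (h : Arc G r) (hr : 0 < r) :
    volume G ≤ ENNReal.ofReal (cK 1 / (1 + r)) := by
  rcases G.eq_empty_or_nonempty with h0 | ⟨θ, hθ⟩
  · rw [h0, measure_empty]
    exact zero_le
  · have h1 := h.kernel hr 1 one_pos le_rfl θ hθ
    simp only [sub_self, ENNReal.rpow_zero, lintegral_one, Measure.restrict_apply_univ] at h1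
    rw [Real.rpow_neg_one] at h1
    rw [div_eq_mul_inv]
    exact h1

theorem Arc.pairs {G : Set ℝ} {r : ℝ} (h : Arc G r) (hr : 0 < r) (η : ℝ) (hη : 0 < η)
    (hη1 : η ≤ 1) :
    ∫⁻ p in G ×ˢ G, ENNReal.ofReal |Real.sin (p.2 - p.1)| ^ (η - 1) ≤
      ENNReal.ofReal (cK η * (1 + r) ^ (-η)) * volume G := by
  have hm : Measurable fun p : ℝ × ℝ => ENNReal.ofReal |Real.sin (p.2 - p.1)| ^ (η - 1) := by
    fun_prop
  rw [Measure.volume_eq_prod, ← Measure.prod_restrict, lintegral_prod _ hm.aemeasurable]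
  calc ∫⁻ θ in G, ∫⁻ θ' in G, ENNReal.ofReal |Real.sin (θ' - θ)| ^ (η - 1)
      ≤ ∫⁻ _ in G, ENNReal.ofReal (cK η * (1 + r) ^ (-η)) :=
        setLIntegral_mono' h.Gm fun θ hθ => h.kernel hr η hη hη1 θ hθ
    _ = _ := setLIntegral_const _ _

/-- near pairs -/
theorem Arc.near {G : Set ℝ} {r : ℝ} (h : Arc G r) (hr : 0 < r) (η : ℝ) (hη : 0 < η)
    (hη1 : η < 1) (l : ℝ) (hl : 0 < l) :
    Nn G (l / (1 + r)) ≤ ENNReal.ofReal (cK η * l ^ (1 - η) / (1 + r)) * volume G := by
  have h1r : (0 : ℝ) < 1 + r := by linarith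
  set b : ℝ := l / (1 + r) with hb
  have hb0 : 0 < b := by positivity
  have hm : Measurable fun p : ℝ × ℝ => ENNReal.ofReal |Real.sin (p.2 - p.1)| ^ (η - 1) := by
    fun_prop
  have h1 : Nn G b ≤ ENNReal.ofReal (b ^ (1 - η)) *
      ∫⁻ p in G ×ˢ G, ENNReal.ofReal |Real.sin (p.2 - p.1)| ^ (η - 1) := by
    unfold Nn
    rw [← lintegral_const_mul _ hm]
    refine lintegral_mono fun p => ?_
    by_cases hp : p ∈ Sn b
    · rw [indicator_of_mem hp, Pi.one_apply]
      have hp' : |Real.sin (p.2 - p.1)| < b := hp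
      have h2 : ENNReal.ofReal (b ^ (1 - η)) = ENNReal.ofReal b ^ (1 - η) :=
        (ENNReal.ofReal_rpow_of_pos hb0).symm
      rw [h2]
      have h3 : ENNReal.ofReal b ^ (η - 1) ≤ ENNReal.ofReal |Real.sin (p.2 - p.1)| ^ (η - 1) :=
        rpow_anti (by linarith) (ENNReal.ofReal_le_ofReal hp'.le)
      calc (1 : ℝ≥0∞) = ENNReal.ofReal b ^ (1 - η) * ENNReal.ofReal b ^ (η - 1) := by
            rw [← ENNReal.rpow_add _ _ (by simpa using hb0) ENNReal.ofReal_ne_top]
            simp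
        _ ≤ _ := mul_le_mul_right h3 _
    · rw [indicator_of_notMem hp]
      exact zero_le
  refine h1.trans ((mul_le_mul_right (h.pairs hr η hη hη1.le) _).trans (le_of_eq ?_))
  rw [← mul_assoc, ← ENNReal.ofReal_mul (by positivity)]
  congr 2
  rw [hb, Real.div_rpow hl.le h1r.le, Real.rpow_sub h1r, Real.rpow_one, Real.rpow_neg h1r.le]
  have : (1 + r) ^ η ≠ 0 := (Real.rpow_pos_of_pos h1r η).ne'
  field_simp

/-- far pairs -/
theorem Arc.far {G : Set ℝ} {r : ℝ} (h : Arc G r) (hr : 0 < r) (η : ℝ) (hη : 0 < η)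
    (hη1 : η < 1) (l : ℝ) (hl : 0 < l) :
    Fn G (l / (1 + r)) ≤ ENNReal.ofReal (cK η * l ^ (-η)) * volume G := by
  have h1r : (0 : ℝ) < 1 + r := by linarith
  set b : ℝ := l / (1 + r) with hb
  have hb0 : 0 < b := by positivity
  have hm : Measurable fun p : ℝ × ℝ => ENNReal.ofReal |Real.sin (p.2 - p.1)| ^ (η - 1) := by
    fun_prop
  have h1 : Fn G b ≤ ENNReal.ofReal (b ^ (-η)) *
      ∫⁻ p in G ×ˢ G, ENNReal.ofReal |Real.sin (p.2 - p.1)| ^ (η - 1) := by
    unfold Fn
    rw [← lintegral_const_mul _ hm]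
    refine lintegral_mono fun p => ?_
    by_cases hp : p ∈ Sf b
    · rw [indicator_of_mem hp]
      have hp' : b ≤ Real.sin (p.2 - p.1) := hp
      have hs0 : 0 < Real.sin (p.2 - p.1) := lt_of_lt_of_le hb0 hp'
      rw [abs_of_pos hs0]
      set s := Real.sin (p.2 - p.1) with hs
      have h2 : ENNReal.ofReal (b ^ (-η)) = ENNReal.ofReal b ^ (-η) :=
        (ENNReal.ofReal_rpow_of_pos hb0).symm
      rw [h2]
      have h3 : ENNReal.ofReal s ^ (-η) ≤ ENNReal.ofReal b ^ (-η) :=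
        rpow_anti (by linarith) (ENNReal.ofReal_le_ofReal hp')
      calc (ENNReal.ofReal s)⁻¹ = ENNReal.ofReal s ^ (-η) * ENNReal.ofReal s ^ (η - 1) := by
            rw [← ENNReal.rpow_add _ _ (by simpa using hs0) ENNReal.ofReal_ne_top,
              ← ENNReal.rpow_neg_one]
            congr 1
            ring
        _ ≤ _ := mul_le_mul_left h3 _
    · rw [indicator_of_notMem hp]
      exact zero_le
  refine h1.trans ((mul_le_mul_right (h.pairs hr η hη hη1.le) _).trans (le_of_eq ?_))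
  rw [← mul_assoc, ← ENNReal.ofReal_mul (by positivity)]
  congr 2
  rw [hb, Real.div_rpow hl.le h1r.le, Real.rpow_neg h1r.le, Real.rpow_neg hl.le]
  have : (1 + r) ^ η ≠ 0 := (Real.rpow_pos_of_pos h1r η).ne'
  have : l ^ η ≠ 0 := (Real.rpow_pos_of_pos hl η).ne'
  field_simp

end Pool.Agent.J6H73.TPO
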