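import Mathlib
import Pool.Agent.J6H73.TPO.P3
set_option autoImplicit false

/-! Polar coordinates: the extension operator of the paraboloid, square integrated in time. -/

namespace Pool.Agent.J6H73.TPO

open MeasureTheory Set Filter Topology
open scoped ENNReal
open Pool.Agent.R412.RT (ee ee_norm ee_add ee_meas ee_cont)

/-- the extension operator of the paraboloid in coordinates -/
noncomputable def Tg (g : ℝ × ℝ → ℂ) (x : ℝ × ℝ) (t : ℝ) : ℂ :=
  ∫ z : ℝ × ℝ, ee (z.1 * x.1 + z.2 * x.2 + (z.1 ^ 2 + z.2 ^ 2) * t) * g z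

/-- polar coordinates -/
noncomputable def pol (r θ : ℝ) : ℝ × ℝ := (r * Real.cos θ, r * Real.sin θ)

theorem pol_meas : Measurable fun p : ℝ × ℝ => pol p.1 p.2 := by
  unfold pol
  fun_prop

/-- angular section of a set -/
def Gr (E : Set (ℝ × ℝ)) (r : ℝ) : Set ℝ := {θ | θ ∈ Ioo (-Real.pi) Real.pi ∧ pol r θ ∈ E}

/-- angular section of a function -/
noncomputable def gr (g : ℝ × ℝ → ℂ) (r θ : ℝ) : ℂ :=
  (Ioo (-Real.pi) Real.pi).indicator (fun θ => g (pol r θ)) θ

/-- the class of densities in the plane: bounded by one, supported in `E`, a subset of the unit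
disc with centre `p` -/
structure PDen (p : ℝ × ℝ) (E : Set (ℝ × ℝ)) (g : ℝ × ℝ → ℂ) : Prop where
  Em : MeasurableSet E
  Es : ∀ z ∈ E, (z.1 - p.1) ^ 2 + (z.2 - p.2) ^ 2 < 1
  meas : Measurable g
  bd : ∀ z, ‖g z‖ₑ ≤ E.indicator 1 z

variable {p : ℝ × ℝ} {E : Set (ℝ × ℝ)} {g : ℝ × ℝ → ℂ}

/-- norm of the centre -/
noncomputable def nrm (p : ℝ × ℝ) : ℝ := √(p.1 ^ 2 + p.2 ^ 2)

theorem nrm_nonneg (p : ℝ × ℝ) : 0 ≤ nrm p := Real.sqrt_nonneg _

theorem nrm_sq (p : ℝ × ℝ) : nrm p ^ 2 = p.1 ^ 2 + p.2 ^ 2 := Real.sq_sqrt (by positivity)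

theorem radius_near {r θ : ℝ} (hr : 0 ≤ r)
    (h : (r * Real.cos θ - p.1) ^ 2 + (r * Real.sin θ - p.2) ^ 2 < 1) : |r - nrm p| < 1 := by
  have h1 := nrm_sq p
  have h2 := nrm_nonneg p
  have h3 := Real.sin_sq_add_cos_sq θ
  set R := nrm p
  set c := Real.cos θ
  set s := Real.sin θ
  have h4 : (c * p.1 + s * p.2) ^ 2 ≤ R ^ 2 := by
    have : (c * p.1 + s * p.2) ^ 2 + (c * p.2 - s * p.1) ^ 2 = R ^ 2 := by
      rw [h1]; linear_combination (p.1 ^ 2 + p.2 ^ 2) * h3
    nlinarith [sq_nonneg (c * p.2 - s * p.1)]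
  have h5 : c * p.1 + s * p.2 ≤ R := (le_abs_self _).trans (abs_le_of_sq_le_sq h4 h2)
  have h6 : (r - R) ^ 2 < 1 := by
    have e : (r * c - p.1) ^ 2 + (r * s - p.2) ^ 2 =
        r ^ 2 - 2 * r * (c * p.1 + s * p.2) + R ^ 2 := by
      rw [h1]; linear_combination r ^ 2 * h3
    rw [e] at h
    nlinarith
  exact (sq_lt_one_iff_abs_lt_one _).1 h6

theorem PDen.supp (h : PDen p E g) (z : ℝ × ℝ) (hz : z ∉ E) : g z = 0 := by
  have := h.bd z
  rw [indicator_of_notMem hz, nonpos_iff_eq_zero, enorm_eq_zero] at this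
  exact this

theorem PDen.norm_le (h : PDen p E g) (z : ℝ × ℝ) : ‖g z‖ ≤ 1 := by
  have h1 : ‖g z‖ₑ ≤ 1 := (h.bd z).trans (indicator_le_self' (fun _ _ => zero_le) z |>.trans
    (le_of_eq rfl))
  rw [← ofReal_norm, ENNReal.ofReal_le_one] at h1
  exact h1

theorem Gr_meas (hE : MeasurableSet E) (r : ℝ) : MeasurableSet (Gr E r) := by
  have h1 : Measurable fun θ : ℝ => pol r θ := by unfold pol; fun_prop
  exact measurableSet_Ioo.inter (h1 hE)

theorem PDen.den (h : PDen p E g) (r : ℝ) : Den (Gr E r) (gr g r) where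
  Gm := Gr_meas h.Em r
  Gs := fun _ hθ => hθ.1
  meas := by
    have h1 : Measurable fun θ : ℝ => pol r θ := by unfold pol; fun_prop
    exact (h.meas.comp h1).indicator measurableSet_Ioo
  bd θ := by
    unfold gr
    by_cases h1 : θ ∈ Ioo (-Real.pi) Real.pi
    · rw [indicator_of_mem h1]
      refine (h.bd _).trans (le_of_eq ?_)
      by_cases h2 : pol r θ ∈ E
      · rw [indicator_of_mem h2, indicator_of_mem (show θ ∈ Gr E r from ⟨h1, h2⟩)]
        rfl
      · rw [indicator_of_notMem h2, indicator_of_notMem (fun h3 : θ ∈ Gr E r => h2 h3.2)]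
    · rw [indicator_of_notMem h1, enorm_zero]
      exact zero_le

theorem PDen.arc (h : PDen p E g) (r : ℝ) (hr : 0 < r) : Arc (Gr E r) r where
  Gm := Gr_meas h.Em r
  Gs := fun _ hθ => hθ.1
  chord := by
    intro θ hθ θ' hθ'
    have h1 := h.Es _ hθ.2
    have h2 := h.Es _ hθ'.2
    simp only [pol] at h1 h2
    set v := (θ' - θ) / 2 with hv
    have hcos : Real.cos (θ' - θ) = 1 - 2 * Real.sin v ^ 2 := by
      have := Real.cos_sq' v
      rw [show θ' - θ = 2 * v by rw [hv]; ring, Real.cos_two_mul]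
      linarith
    rw [Real.cos_sub] at hcos
    have h3 := Real.sin_sq_add_cos_sq θ
    have h4 := Real.sin_sq_add_cos_sq θ'
    set c := Real.cos θ
    set s := Real.sin θ
    set c' := Real.cos θ'
    set s' := Real.sin θ'
    have h5 : (r * c - r * c') ^ 2 + (r * s - r * s') ^ 2 = 4 * (r * Real.sin v) ^ 2 := by
      linear_combination r ^ 2 * h3 + r ^ 2 * h4 - 2 * r ^ 2 * hcos
    have h6 : (r * c - r * c') ^ 2 + (r * s - r * s') ^ 2 ≤
        2 * ((r * c - p.1) ^ 2 + (r * s - p.2) ^ 2) +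
        2 * ((r * c' - p.1) ^ 2 + (r * s' - p.2) ^ 2) := by
      nlinarith [sq_nonneg (r * c - p.1 + (r * c' - p.1)),
        sq_nonneg (r * s - p.2 + (r * s' - p.2))]
    have h7 : (r * |Real.sin v|) ^ 2 ≤ 1 := by
      rw [mul_pow, sq_abs]
      nlinarith
    exact (sq_le_one_iff₀ (by positivity)).1 h7

/-- outside of an interval the sections are empty -/
theorem PDen.empty (h : PDen p E g) (r : ℝ) (hr : 0 ≤ r) (hR : 1 ≤ |r - nrm p|) :
    Gr E r = ∅ := by
  rw [Set.eq_empty_iff_forall_notMem]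
  intro θ hθ
  have h1 := h.Es _ hθ.2
  have := radius_near hr h1
  linarith

theorem PDen.gr_zero (h : PDen p E g) (r : ℝ) (hr : 0 ≤ r) (hR : 1 ≤ |r - nrm p|) (θ : ℝ) :
    gr g r θ = 0 :=
  (h.den r).supp θ (by rw [h.empty r hr hR]; exact notMem_empty _)

/-- the radial profile -/
noncomputable def Hr (g : ℝ × ℝ → ℂ) (x : ℝ × ℝ) (r : ℝ) : ℂ :=
  (Ioi (0 : ℝ)).indicator (fun r => (r : ℂ) * hc r (gr g r) x) r

theorem hcj_meas (hg : Measurable g) :
    Measurable fun q : (ℝ × ℝ) × ℝ => hc q.2 (gr g q.2) q.1 := by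
  unfold hc
  have : StronglyMeasurable (Function.uncurry fun (q : (ℝ × ℝ) × ℝ) (θ : ℝ) =>
      ee (q.2 * (Real.cos θ * q.1.1 + Real.sin θ * q.1.2)) * gr g q.2 θ) := by
    refine Measurable.stronglyMeasurable ?_
    refine Measurable.mul (ee_meas.comp (by fun_prop)) ?_
    have h1 : (fun q : ((ℝ × ℝ) × ℝ) × ℝ => gr g q.1.2 q.2) =
        {q : ((ℝ × ℝ) × ℝ) × ℝ | q.2 ∈ Ioo (-Real.pi) Real.pi}.indicator
          (fun q => g (pol q.1.2 q.2)) := by
      ext q
      unfold gr
      by_cases h2 : q.2 ∈ Ioo (-Real.pi) Real.pi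
      · rw [indicator_of_mem h2, indicator_of_mem (by exact h2)]
      · rw [indicator_of_notMem h2, indicator_of_notMem (by exact h2)]
    show Measurable (fun q : ((ℝ × ℝ) × ℝ) × ℝ => gr g q.1.2 q.2)
    rw [h1]
    refine Measurable.indicator ?_ (measurable_snd measurableSet_Ioo)
    refine hg.comp ?_
    unfold pol
    fun_prop
  exact this.integral_prod_right.measurable

theorem Hr_meas (hg : Measurable g) (x : ℝ × ℝ) : Measurable (Hr g x) := by
  unfold Hr
  refine Measurable.indicator ?_ measurableSet_Ioi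
  refine Measurable.mul (by fun_prop) ?_
  have h1 : Measurable fun r : ℝ => ((x, r) : (ℝ × ℝ) × ℝ) := measurable_prodMk_left
  have h2 := (hcj_meas hg).comp h1
  exact h2

theorem hc_norm_le (h : PDen p E g) (r : ℝ) (x : ℝ × ℝ) :
    ‖hc r (gr g r) x‖ₑ ≤ ENNReal.ofReal (2 * Real.pi) := by
  have hd := h.den r
  unfold hc
  refine (enorm_integral_le_lintegral_enorm _).trans ?_
  calc ∫⁻ θ, ‖ee (r * (Real.cos θ * x.1 + Real.sin θ * x.2)) * gr g r θ‖ₑ
      ≤ ∫⁻ θ, (Gr E r).indicator 1 θ := by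
        refine lintegral_mono fun θ => ?_
        rw [enorm_mul, ← ofReal_norm, ee_norm, ENNReal.ofReal_one, one_mul]
        exact hd.bd θ
    _ = volume (Gr E r) := lintegral_indicator_one hd.Gm
    _ ≤ volume (Ioo (-Real.pi) Real.pi) := measure_mono hd.Gs
    _ = _ := by rw [Real.volume_Ioo]; congr 1; ring

theorem Hr_supp (h : PDen p E g) (x : ℝ × ℝ) (r : ℝ) (hr : r ∉ Ioo 0 (nrm p + 1)) :
    Hr g x r = 0 := by
  unfold Hr
  by_cases h0 : r ∈ Ioi (0 : ℝ)
  · rw [indicator_of_mem h0]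
    have h0' : (0 : ℝ) < r := h0
    have h1 : nrm p + 1 ≤ r := by
      by_contra h2
      push Not at h2
      exact hr ⟨h0, h2⟩
    have h3 : 1 ≤ |r - nrm p| := by
      rw [le_abs]; left; linarith
    have h4 : hc r (gr g r) x = 0 := by
      unfold hc
      simp_rw [h.gr_zero r h0'.le h3, mul_zero, integral_zero]
    rw [h4, mul_zero]
  · exact indicator_of_notMem h0 _

theorem Hr_int (h : PDen p E g) (x : ℝ × ℝ) : Integrable (Hr g x) := by
  refine ⟨(Hr_meas h.meas x).aestronglyMeasurable, ?_⟩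
  show ∫⁻ r, ‖Hr g x r‖ₑ < ∞
  calc ∫⁻ r, ‖Hr g x r‖ₑ ≤ ∫⁻ r, (Ioo 0 (nrm p + 1)).indicator
        (fun _ => ENNReal.ofReal (nrm p + 1) * ENNReal.ofReal (2 * Real.pi)) r := by
        refine lintegral_mono fun r => ?_
        by_cases hr : r ∈ Ioo 0 (nrm p + 1)
        · rw [indicator_of_mem hr]
          unfold Hr
          rw [indicator_of_mem (show r ∈ Ioi (0 : ℝ) from hr.1), enorm_mul]
          refine mul_le_mul' ?_ (hc_norm_le h r x)
          rw [← ofReal_norm, Complex.norm_real, Real.norm_eq_abs, abs_of_pos hr.1]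
          exact ENNReal.ofReal_le_ofReal hr.2.le
        · rw [Hr_supp h x r hr, enorm_zero]
          exact zero_le
    _ < ∞ := by
        rw [lintegral_indicator measurableSet_Ioo, setLIntegral_const]
        refine ENNReal.mul_lt_top (ENNReal.mul_lt_top ENNReal.ofReal_lt_top
          ENNReal.ofReal_lt_top) (by simp)

theorem Tg_polar (h : PDen p E g) (x : ℝ × ℝ) (t : ℝ) :
    Tg g x t = ∫ r, ee (r ^ 2 * t) * Hr g x r := by
  unfold Tg
  rw [← integral_comp_polarCoord_symm]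
  set F : ℝ × ℝ → ℂ := fun q => q.1 • (ee ((polarCoord.symm q).1 * x.1 +
    (polarCoord.symm q).2 * x.2 + ((polarCoord.symm q).1 ^ 2 + (polarCoord.symm q).2 ^ 2) * t) *
    g (polarCoord.symm q)) with hF
  have hFe : ∀ r θ : ℝ, F (r, θ) = ee (r ^ 2 * t) * ((r : ℂ) *
      (ee (r * (Real.cos θ * x.1 + Real.sin θ * x.2)) * g (pol r θ))) := by
    intro r θ
    simp only [hF, polarCoord_symm_apply]
    have e1 : r * Real.cos θ * x.1 + r * Real.sin θ * x.2 +
        ((r * Real.cos θ) ^ 2 + (r * Real.sin θ) ^ 2) * t =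
        r ^ 2 * t + r * (Real.cos θ * x.1 + Real.sin θ * x.2) := by
      linear_combination r ^ 2 * t * Real.sin_sq_add_cos_sq θ
    rw [e1, ee_add, Complex.real_smul]
    unfold pol
    ring
  have hFm : Measurable F := by
    have e2 : F = fun q : ℝ × ℝ => ee (q.1 ^ 2 * t) * ((q.1 : ℂ) *
      (ee (q.1 * (Real.cos q.2 * x.1 + Real.sin q.2 * x.2)) * g (pol q.1 q.2))) := by
      ext q
      exact hFe q.1 q.2
    rw [e2]
    refine Measurable.mul (ee_meas.comp (by fun_prop)) (Measurable.mul (by fun_prop)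
      (Measurable.mul (ee_meas.comp (by fun_prop)) (h.meas.comp pol_meas)))
  have hFi : IntegrableOn F (Ioi (0 : ℝ) ×ˢ Ioo (-Real.pi) Real.pi)
      ((volume : Measure ℝ).prod volume) := by
    have hms : MeasurableSet (Ioo (0 : ℝ) (nrm p + 1) ×ˢ Ioo (-Real.pi) Real.pi) :=
      measurableSet_Ioo.prod measurableSet_Ioo
    have hfin : (volume : Measure (ℝ × ℝ)) (Ioo (0 : ℝ) (nrm p + 1) ×ˢ
        Ioo (-Real.pi) Real.pi) ≠ ∞ := by
      rw [Measure.volume_eq_prod, Measure.prod_prod]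
      exact ENNReal.mul_ne_top (by simp) (by simp)
    have hi : IntegrableOn F (Ioo (0 : ℝ) (nrm p + 1) ×ˢ Ioo (-Real.pi) Real.pi)
        (volume : Measure (ℝ × ℝ)) := by
      refine Measure.integrableOn_of_bounded (M := nrm p + 1) hfin hFm.aestronglyMeasurable ?_
      refine (ae_restrict_mem hms).mono fun q hq => ?_
      rw [show q = (q.1, q.2) from rfl, hFe, norm_mul, ee_norm, one_mul, norm_mul, norm_mul,
        ee_norm, one_mul, Complex.norm_real, Real.norm_eq_abs, abs_of_pos hq.1.1]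
      calc q.1 * ‖g (pol q.1 q.2)‖ ≤ q.1 * 1 :=
            mul_le_mul_of_nonneg_left (h.norm_le _) hq.1.1.le
        _ ≤ _ := by rw [mul_one]; exact hq.1.2.le
    refine hi.of_forall_sdiff_eq_zero ?_ ?_
    · exact measurableSet_Ioi.prod measurableSet_Ioo
    · rintro ⟨r, θ⟩ ⟨hq1, hq2⟩
      have hr0 : (0 : ℝ) < r := hq1.1
      have hr : nrm p + 1 ≤ r := by
        by_contra h2
        push Not at h2
        exact hq2 ⟨⟨hr0, h2⟩, hq1.2⟩
      rw [hFe]
      have h3 : 1 ≤ |r - nrm p| := by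
        rw [le_abs]; left; linarith
      have h4 := h.gr_zero r hr0.le h3 θ
      unfold gr at h4
      rw [indicator_of_mem (show θ ∈ Ioo (-Real.pi) Real.pi from hq1.2)] at h4
      rw [h4, mul_zero, mul_zero, mul_zero]
  have hstep : ∫ q in polarCoord.target, F q = ∫ r in Ioi (0 : ℝ),
      ∫ θ in Ioo (-Real.pi) Real.pi, F (r, θ) := by
    have := setIntegral_prod (μ := (volume : Measure ℝ)) (ν := (volume : Measure ℝ)) F hFi
    rw [polarCoord_target, Measure.volume_eq_prod]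
    exact this
  rw [hstep, ← integral_indicator measurableSet_Ioi]
  refine integral_congr_ae (Eventually.of_forall fun r => ?_)
  simp only
  unfold Hr
  by_cases hr : r ∈ Ioi (0 : ℝ)
  · rw [indicator_of_mem hr, indicator_of_mem hr]
    simp_rw [hFe]
    rw [integral_const_mul, integral_const_mul]
    congr 2
    unfold hc gr
    rw [← integral_indicator measurableSet_Ioo]
    refine integral_congr_ae (Eventually.of_forall fun θ => ?_)
    simp only
    by_cases hθ : θ ∈ Ioo (-Real.pi) Real.pi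
    · rw [indicator_of_mem hθ, indicator_of_mem hθ]
    · rw [indicator_of_notMem hθ, indicator_of_notMem hθ, mul_zero]
  · rw [indicator_of_notMem hr, indicator_of_notMem hr, mul_zero]

theorem Tg_time (h : PDen p E g) (x : ℝ × ℝ) :
    ∫⁻ t, ‖Tg g x t‖ₑ ^ 2 ≤ ∫⁻ r in Ioi (0 : ℝ), ENNReal.ofReal (r / 2) *
      ‖hc r (gr g r) x‖ₑ ^ 2 := by
  simp_rw [Tg_polar h x]
  refine (planch1P (fun r => r ^ 2) (fun r => 2 * r) (by fun_prop) (Ioi 0) measurableSet_Ioi
    (fun r _ => by simpa using hasDerivAt_pow 2 r) ?_ ?_ (by fun_prop) (Hr g x) (Hr_int h x)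
    ?_).trans ?_
  · intro a ha b hb hab
    have ha' : (0 : ℝ) < a := ha
    have hb' : (0 : ℝ) < b := hb
    exact (pow_left_inj₀ ha'.le hb'.le two_ne_zero).1 hab
  · intro r hr
    have hr' : (0 : ℝ) < r := hr
    positivity
  · intro r hr
    unfold Hr
    exact indicator_of_notMem hr _
  · rw [← lintegral_indicator measurableSet_Ioi]
    refine lintegral_mono fun r => ?_
    by_cases hr : r ∈ Ioi (0 : ℝ)
    · have hr' : (0 : ℝ) < r := hr
      rw [indicator_of_mem hr]
      unfold Hr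
      rw [indicator_of_mem hr, enorm_mul, mul_pow, ← ofReal_norm, Complex.norm_real,
        Real.norm_eq_abs, abs_of_pos hr', abs_of_pos (by positivity), ENNReal.div_eq_inv_mul,
        ← mul_assoc]
      refine le_of_eq ?_
      congr 1
      rw [← ENNReal.ofReal_pow hr'.le, ← ENNReal.ofReal_inv_of_pos (by positivity),
        ← ENNReal.ofReal_mul (by positivity)]
      congr 1
      field_simp
    · unfold Hr
      rw [indicator_of_notMem hr]
      simp

end Pool.Agent.J6H73.TPO
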