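import Mathlib
import Pool.Agent.J6H73.TPO.P4
set_option autoImplicit false

/-! The extension operator of the paraboloid on products of a plane set and the time axis. -/

namespace Pool.Agent.J6H73.TPO

open MeasureTheory Set Filter Topology
open scoped ENNReal
open Pool.Agent.R412.RT (ee ee_norm ee_add ee_meas ee_cont)

variable {p : ℝ × ℝ} {E : Set (ℝ × ℝ)} {g : ℝ × ℝ → ℂ}

/-- measure of the angular sections -/
noncomputable def mr (E : Set (ℝ × ℝ)) (r : ℝ) : ℝ≥0∞ := volume (Gr E r)

theorem mr_eq (hE : MeasurableSet E) (r : ℝ) : mr E r = ∫⁻ θ in Ioo (-Real.pi) Real.pi,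
    E.indicator 1 (pol r θ) := by
  unfold mr
  rw [← lintegral_indicator_one (Gr_meas hE r), ← lintegral_indicator measurableSet_Ioo]
  refine lintegral_congr fun θ => ?_
  by_cases h1 : θ ∈ Ioo (-Real.pi) Real.pi
  · rw [indicator_of_mem h1]
    by_cases h2 : pol r θ ∈ E
    · rw [indicator_of_mem h2, indicator_of_mem (show θ ∈ Gr E r from ⟨h1, h2⟩)]
      rfl
    · rw [indicator_of_notMem h2, indicator_of_notMem (fun h3 : θ ∈ Gr E r => h2 h3.2)]
  · rw [indicator_of_notMem h1, indicator_of_notMem (fun h3 : θ ∈ Gr E r => h1 h3.1)]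

theorem mr_meas (hE : MeasurableSet E) : Measurable (mr E) := by
  have h1 : mr E = fun r => ∫⁻ θ in Ioo (-Real.pi) Real.pi, E.indicator 1 (pol r θ) := by
    ext r
    exact mr_eq hE r
  rw [h1]
  have h2 : Measurable (Function.uncurry fun (r θ : ℝ) =>
      E.indicator (1 : ℝ × ℝ → ℝ≥0∞) (pol r θ)) :=
    (measurable_one.indicator hE).comp pol_meas
  exact h2.lintegral_prod_right'

theorem mr_area (hE : MeasurableSet E) :
    ∫⁻ r in Ioi (0 : ℝ), ENNReal.ofReal r * mr E r = volume E := by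
  rw [← lintegral_indicator_one hE, ← lintegral_comp_polarCoord_symm, polarCoord_target,
    Measure.volume_eq_prod, ← Measure.prod_restrict]
  have hm : Measurable fun q : ℝ × ℝ => ENNReal.ofReal q.1 •
      E.indicator (1 : ℝ × ℝ → ℝ≥0∞) (polarCoord.symm q) := by
    refine Measurable.mul (by fun_prop) ((measurable_one.indicator hE).comp ?_)
    exact continuous_polarCoord_symm.measurable
  rw [lintegral_prod _ hm.aemeasurable]
  refine lintegral_congr fun r => ?_
  rw [mr_eq hE, ← lintegral_const_mul]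
  · rfl
  · refine (measurable_one.indicator hE).comp ?_
    unfold pol
    fun_prop

theorem vol_le_four (h : PDen p E g) : volume E ≤ 4 := by
  have h1 : E ⊆ Ioo (p.1 - 1) (p.1 + 1) ×ˢ Ioo (p.2 - 1) (p.2 + 1) := by
    intro z hz
    have h2 := h.Es z hz
    have h3 : (z.1 - p.1) ^ 2 < 1 := by nlinarith [sq_nonneg (z.2 - p.2)]
    have h4 : (z.2 - p.2) ^ 2 < 1 := by nlinarith [sq_nonneg (z.1 - p.1)]
    have h5 := abs_lt.1 ((sq_lt_one_iff_abs_lt_one _).1 h3)
    have h6 := abs_lt.1 ((sq_lt_one_iff_abs_lt_one _).1 h4)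
    exact ⟨⟨by linarith [h5.1], by linarith [h5.2]⟩, ⟨by linarith [h6.1], by linarith [h6.2]⟩⟩
  refine (measure_mono h1).trans ?_
  rw [Measure.volume_eq_prod, Measure.prod_prod, Real.volume_Ioo, Real.volume_Ioo,
    ← ENNReal.ofReal_mul (by linarith), show (4 : ℝ≥0∞) = ENNReal.ofReal 4 by simp]
  refine ENNReal.ofReal_le_ofReal ?_
  ring_nf
  norm_num

/-- the quantity to be estimated -/
noncomputable def LH (g : ℝ × ℝ → ℂ) (A : Set (ℝ × ℝ)) : ℝ≥0∞ :=
  ∫⁻ x in A, ∫⁻ t, ‖Tg g x t‖ₑ ^ 2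

theorem LH_le (h : PDen p E g) (A : Set (ℝ × ℝ)) :
    LH g A ≤ ∫⁻ r in Ioi (0 : ℝ), ENNReal.ofReal (r / 2) *
      ∫⁻ x in A, ‖hc r (gr g r) x‖ₑ ^ 2 := by
  unfold LH
  have hm : Measurable (Function.uncurry fun (x : ℝ × ℝ) (r : ℝ) =>
      ENNReal.ofReal (r / 2) * ‖hc r (gr g r) x‖ₑ ^ 2) :=
    Measurable.mul (by fun_prop) ((hcj_meas h.meas).enorm.pow_const 2)
  calc ∫⁻ x in A, ∫⁻ t, ‖Tg g x t‖ₑ ^ 2
      ≤ ∫⁻ x in A, ∫⁻ r in Ioi (0 : ℝ), ENNReal.ofReal (r / 2) *
        ‖hc r (gr g r) x‖ₑ ^ 2 := lintegral_mono fun x => Tg_time h x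
    _ = ∫⁻ r in Ioi (0 : ℝ), ∫⁻ x in A, ENNReal.ofReal (r / 2) *
        ‖hc r (gr g r) x‖ₑ ^ 2 := lintegral_lintegral_swap hm.aemeasurable
    _ = _ := by
        refine lintegral_congr fun r => ?_
        rw [lintegral_const_mul]
        exact (hc_meas r _ (h.den r).meas).enorm.pow_const 2

/-- the range of radii -/
def Jr (R : ℝ) : Set ℝ := {r | 0 < r ∧ |r - R| < 1}

theorem Jr_meas (R : ℝ) : MeasurableSet (Jr R) := by
  have h : Measurable fun r : ℝ => |r - R| := by fun_prop
  exact (measurableSet_lt measurable_const measurable_id).inter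
    (measurableSet_lt h measurable_const)

theorem Jr_vol (R : ℝ) : volume (Jr R) ≤ 2 := by
  have h1 : Jr R ⊆ Ioo (R - 1) (R + 1) := by
    intro r hr
    have := abs_lt.1 hr.2
    exact ⟨by linarith [this.1], by linarith [this.2]⟩
  refine (measure_mono h1).trans ?_
  rw [Real.volume_Ioo, show (2 : ℝ≥0∞) = ENNReal.ofReal 2 by simp]
  refine ENNReal.ofReal_le_ofReal (le_of_eq ?_)
  ring

theorem LH_le_J (h : PDen p E g) (A : Set (ℝ × ℝ)) :
    LH g A ≤ ∫⁻ r in Jr (nrm p), ENNReal.ofReal (r / 2) *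
      ∫⁻ x in A, ‖hc r (gr g r) x‖ₑ ^ 2 := by
  refine (LH_le h A).trans ?_
  rw [← lintegral_indicator measurableSet_Ioi, ← lintegral_indicator (Jr_meas _)]
  refine lintegral_mono fun r => ?_
  by_cases h0 : r ∈ Ioi (0 : ℝ)
  · rw [indicator_of_mem h0]
    have h0' : (0 : ℝ) < r := h0
    by_cases h1 : |r - nrm p| < 1
    · rw [indicator_of_mem (show r ∈ Jr (nrm p) from ⟨h0', h1⟩)]
    · push Not at h1
      have h2 : ∀ x, hc r (gr g r) x = 0 := by
        intro x
        unfold hc
        simp_rw [h.gr_zero r h0'.le h1, mul_zero, integral_zero]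
      simp [h2]
  · rw [indicator_of_notMem h0]
    exact zero_le

theorem Jr_ineq {R r : ℝ} (_hR : 0 ≤ R) (hr : r ∈ Jr R) : 1 + R ≤ 2 * (1 + r) := by
  have := abs_lt.1 hr.2
  have h0 := hr.1
  linarith [this.1]

theorem area_J (h : PDen p E g) : ∫⁻ r in Jr (nrm p), ENNReal.ofReal r * mr E r ≤ volume E := by
  rw [← mr_area h.Em]
  exact lintegral_mono_set fun r hr => hr.1

/-- the trivial bound -/
theorem V0 (h : PDen p E g) (A : Set (ℝ × ℝ)) :
    LH g A ≤ ENNReal.ofReal (cK 1) * (volume A / ENNReal.ofReal (1 + nrm p)) * volume E := by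
  have hc1 := cK_pos 1 one_pos
  have hR := nrm_nonneg p
  set R := nrm p with hRd
  have h1R : 0 < 1 + R := by linarith
  refine (LH_le_J h A).trans ?_
  calc ∫⁻ r in Jr R, ENNReal.ofReal (r / 2) * ∫⁻ x in A, ‖hc r (gr g r) x‖ₑ ^ 2
      ≤ ∫⁻ r in Jr R, (ENNReal.ofReal (cK 1) * (volume A / ENNReal.ofReal (1 + R))) *
          (ENNReal.ofReal r * mr E r) := by
        refine setLIntegral_mono' (Jr_meas _) fun r hr => ?_
        have hr0 : 0 < r := hr.1
        have h1r : 0 < 1 + r := by linarith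
        have h2 := Jr_ineq hR hr
        have hv := (h.arc r hr0).vol hr0
        have h3 : ENNReal.ofReal (cK 1 / (1 + r)) ≤
            2 * (ENNReal.ofReal (cK 1) / ENNReal.ofReal (1 + R)) := by
          rw [← ENNReal.ofReal_div_of_pos h1R, show (2 : ℝ≥0∞) = ENNReal.ofReal 2 by simp,
            ← ENNReal.ofReal_mul zero_le_two]
          refine ENNReal.ofReal_le_ofReal ?_
          rw [← mul_div_assoc, div_le_div_iff₀ h1r h1R]
          nlinarith
        have h4 : ENNReal.ofReal (r / 2) * 2 = ENNReal.ofReal r := by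
          rw [show (2 : ℝ≥0∞) = ENNReal.ofReal 2 by simp, ← ENNReal.ofReal_mul (by positivity)]
          congr 1
          ring
        calc ENNReal.ofReal (r / 2) * ∫⁻ x in A, ‖hc r (gr g r) x‖ₑ ^ 2
            ≤ ENNReal.ofReal (r / 2) * (volume A * volume (Gr E r) ^ 2) :=
              mul_le_mul_right (circle_triv (h.den r) r A) _
          _ ≤ ENNReal.ofReal (r / 2) * (volume A * (mr E r *
                (2 * (ENNReal.ofReal (cK 1) / ENNReal.ofReal (1 + R))))) := by
              refine mul_le_mul_right (mul_le_mul_right ?_ _) _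
              rw [sq]
              exact mul_le_mul_right (hv.trans h3) _
          _ = (ENNReal.ofReal (r / 2) * 2) * (volume A * (mr E r *
                (ENNReal.ofReal (cK 1) / ENNReal.ofReal (1 + R)))) := by ring
          _ = _ := by
              rw [h4, ENNReal.div_eq_inv_mul, ENNReal.div_eq_inv_mul]
              ring
    _ = (ENNReal.ofReal (cK 1) * (volume A / ENNReal.ofReal (1 + R))) *
          ∫⁻ r in Jr R, ENNReal.ofReal r * mr E r := by
        rw [lintegral_const_mul]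
        exact Measurable.mul (by fun_prop) (mr_meas h.Em)
    _ ≤ _ := mul_le_mul_right (area_J h) _

/-- the weight -/
noncomputable def Wr (a r : ℝ) : ℝ≥0∞ := ENNReal.ofReal (((1 + r) / r) ^ a)

/-- the constant of Hölder's inequality -/
noncomputable def Ka (a : ℝ) : ℝ := (4 + 1 / (1 - a / (1 - a))) ^ (1 - a)

theorem holder_J (h : PDen p E g) (a : ℝ) (ha : 0 < a) (ha2 : a < 1 / 2) :
    ∫⁻ r in Jr (nrm p), Wr a r * (ENNReal.ofReal r * mr E r) ^ a ≤
      ENNReal.ofReal (Ka a) * volume E ^ a := by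
  have h1a : 0 < 1 - a := by linarith
  set s : ℝ := a / (1 - a) with hs
  have hs0 : 0 < s := by positivity
  have hs1 : s < 1 := by rw [hs, div_lt_one h1a]; linarith
  have hpq : Real.HolderConjugate (1 / (1 - a)) (1 / a) := by
    rw [Real.holderConjugate_iff]
    refine ⟨?_, ?_⟩
    · rw [lt_div_iff₀ h1a]; linarith
    · rw [one_div, one_div, inv_inv, inv_inv]; ring
  have hFm : Measurable fun r : ℝ => ENNReal.ofReal r * mr E r :=
    Measurable.mul (by fun_prop) (mr_meas h.Em)
  have hWm : Measurable (Wr a) := by unfold Wr; fun_prop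
  have hH := ENNReal.lintegral_mul_le_Lp_mul_Lq (volume.restrict (Jr (nrm p))) hpq
    (f := Wr a) (g := fun r => (ENNReal.ofReal r * mr E r) ^ a)
    hWm.aemeasurable (hFm.pow_const a).aemeasurable
  refine hH.trans (mul_le_mul' ?_ ?_)
  · rw [one_div_one_div]
    have h2 : ∫⁻ r in Jr (nrm p), Wr a r ^ (1 / (1 - a)) ≤
        ENNReal.ofReal (4 + 1 / (1 - s)) := by
      calc ∫⁻ r in Jr (nrm p), Wr a r ^ (1 / (1 - a))
          ≤ ∫⁻ r in Jr (nrm p), (2 + ps (1 - s) 1 r) := by
            refine setLIntegral_mono' (Jr_meas _) fun r hr => ?_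
            have hr0 : 0 < r := hr.1
            have hq : 0 < (1 + r) / r := by positivity
            unfold Wr
            rw [ENNReal.ofReal_rpow_of_pos (by positivity), ← Real.rpow_mul hq.le,
              show a * (1 / (1 - a)) = s by rw [hs]; ring]
            have h3 : ((1 + r) / r) ^ s ≤ 1 + (1 / r) ^ s := by
              rw [show (1 + r) / r = 1 + 1 / r by field_simp; ring]
              have := Real.rpow_add_le_add_rpow (a := 1) (b := 1 / r) zero_le_one
                (by positivity) hs0.le hs1.le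
              rwa [Real.one_rpow] at this
            rcases le_or_gt r 1 with h4 | h4
            · unfold ps
              rw [indicator_of_mem (show r ∈ Ioc (0 : ℝ) 1 from ⟨hr0, h4⟩)]
              have h5 : (1 / r) ^ s = r ^ (1 - s - 1) := by
                rw [one_div, Real.inv_rpow hr0.le, ← Real.rpow_neg hr0.le]
                congr 1
                ring
              calc ENNReal.ofReal (((1 + r) / r) ^ s)
                  ≤ ENNReal.ofReal (2 + r ^ (1 - s - 1)) :=
                    ENNReal.ofReal_le_ofReal (by rw [← h5]; linarith)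
                _ = _ := by
                    rw [ENNReal.ofReal_add zero_le_two (by positivity)]
                    simp
            · calc ENNReal.ofReal (((1 + r) / r) ^ s) ≤ ENNReal.ofReal 2 := by
                    refine ENNReal.ofReal_le_ofReal (h3.trans ?_)
                    have : (1 / r) ^ s ≤ 1 := Real.rpow_le_one (by positivity)
                      (by rw [div_le_one hr0]; exact h4.le) hs0.le
                    linarith
                _ = 2 := by simp
                _ ≤ _ := le_self_add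
        _ ≤ 2 * volume (Jr (nrm p)) + ∫⁻ r, ps (1 - s) 1 r := by
            rw [lintegral_add_left measurable_const, setLIntegral_const]
            exact add_le_add_right (setLIntegral_le_lintegral _ _) _
        _ ≤ 2 * 2 + ENNReal.ofReal (1 ^ (1 - s) / (1 - s)) := by
            rw [ps_int (1 - s) 1 (by linarith) zero_le_one]
            exact add_le_add_left (mul_le_mul_right (Jr_vol _) _) _
        _ = _ := by
            rw [Real.one_rpow, ENNReal.ofReal_add (by norm_num) (by
              have : 0 < 1 - s := by linarith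
              positivity)]
            congr 1
            norm_num
    refine (ENNReal.rpow_le_rpow h2 h1a.le).trans (le_of_eq ?_)
    have : 0 < 1 - s := by linarith
    rw [ENNReal.ofReal_rpow_of_pos (by positivity)]
    rfl
  · rw [one_div_one_div]
    refine ENNReal.rpow_le_rpow ?_ ha.le
    refine le_trans (lintegral_mono fun r => ?_) (area_J h)
    rw [← ENNReal.rpow_mul, mul_one_div_cancel ha.ne', ENNReal.rpow_one]

theorem sqrt_bound {R r a : ℝ} (hR : 0 ≤ R) (hr : r ∈ Jr R) (ha : 0 < a) (ha2 : a < 1 / 2)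
    {m : ℝ≥0∞} (hm : m ≤ ENNReal.ofReal (cK 1 / (1 + r))) :
    m ^ (1 / 2 : ℝ) ≤ ENNReal.ofReal (2 * cK 1) / ENNReal.ofReal (1 + R) ^ (1 / 2 : ℝ) *
      (Wr a r * (ENNReal.ofReal r * m) ^ a) := by
  have hr0 : 0 < r := hr.1
  have h1r : 0 < 1 + r := by linarith
  have h1R : 0 < 1 + R := by linarith
  have hc1 : 1 ≤ cK 1 := by
    unfold cK
    have := Real.pi_gt_three
    linarith
  have hine := Jr_ineq hR hr
  have hmt : m ≠ ∞ := ne_top_of_le_ne_top ENNReal.ofReal_ne_top hm
  obtain ⟨μ, hμ, rfl⟩ : ∃ μ : ℝ, 0 ≤ μ ∧ m = ENNReal.ofReal μ :=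
    ⟨m.toReal, ENNReal.toReal_nonneg, (ENNReal.ofReal_toReal hmt).symm⟩
  rw [ENNReal.ofReal_le_ofReal_iff (by positivity)] at hm
  unfold Wr
  rw [ENNReal.ofReal_rpow_of_nonneg hμ (by norm_num), ENNReal.ofReal_rpow_of_pos h1R,
    ← ENNReal.ofReal_div_of_pos (by positivity), ← ENNReal.ofReal_mul hr0.le,
    ENNReal.ofReal_rpow_of_nonneg (by positivity) ha.le, ← ENNReal.ofReal_mul (by positivity),
    ← ENNReal.ofReal_mul (by positivity)]
  refine ENNReal.ofReal_le_ofReal ?_
  have e1 : μ ^ (1 / 2 : ℝ) = μ ^ (1 / 2 - a) * μ ^ a := by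
    rcases hμ.eq_or_lt with h0 | h0
    · rw [← h0, Real.zero_rpow (by norm_num), Real.zero_rpow ha.ne', mul_zero]
    · rw [← Real.rpow_add h0]; congr 1; ring
  have e2 : ((1 + r) / r) ^ a * (r * μ) ^ a = (1 + r) ^ a * μ ^ a := by
    rw [Real.div_rpow h1r.le hr0.le, Real.mul_rpow hr0.le hμ]
    have : r ^ a ≠ 0 := (Real.rpow_pos_of_pos hr0 a).ne'
    field_simp
  have e3 : μ ^ (1 / 2 - a) ≤ cK 1 * (1 + r) ^ (a - 1 / 2) := by
    calc μ ^ (1 / 2 - a) ≤ (cK 1 / (1 + r)) ^ (1 / 2 - a) :=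
          Real.rpow_le_rpow hμ hm (by linarith)
      _ = cK 1 ^ (1 / 2 - a) * (1 + r) ^ (a - 1 / 2) := by
          rw [Real.div_rpow (by linarith) h1r.le, div_eq_mul_inv, ← Real.rpow_neg h1r.le]
          congr 2
          ring
      _ ≤ cK 1 ^ (1 : ℝ) * (1 + r) ^ (a - 1 / 2) := by
          gcongr
          linarith
      _ = _ := by rw [Real.rpow_one]
  have e4 : (1 + r) ^ (-(1 / 2) : ℝ) ≤ 2 * (1 + R) ^ (-(1 / 2) : ℝ) := by
    calc (1 + r) ^ (-(1 / 2) : ℝ) ≤ ((1 + R) / 2) ^ (-(1 / 2) : ℝ) :=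
          Real.rpow_le_rpow_of_nonpos (by positivity) (by linarith) (by norm_num)
      _ = 2 ^ (1 / 2 : ℝ) * (1 + R) ^ (-(1 / 2) : ℝ) := by
          rw [Real.div_rpow h1R.le zero_le_two, Real.rpow_neg zero_le_two, div_inv_eq_mul,
            mul_comm]
      _ ≤ 2 ^ (1 : ℝ) * (1 + R) ^ (-(1 / 2) : ℝ) := by
          gcongr
          · norm_num
          · norm_num
      _ = _ := by rw [Real.rpow_one]
  rw [e1, e2]
  calc μ ^ (1 / 2 - a) * μ ^ a ≤ cK 1 * (1 + r) ^ (a - 1 / 2) * μ ^ a := by gcongr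
    _ = cK 1 * (1 + r) ^ (-(1 / 2) : ℝ) * ((1 + r) ^ a * μ ^ a) := by
        rw [show a - 1 / 2 = -(1 / 2) + a by ring, Real.rpow_add h1r]
        ring
    _ ≤ cK 1 * (2 * (1 + R) ^ (-(1 / 2) : ℝ)) * ((1 + r) ^ a * μ ^ a) := by
        have : 0 < cK 1 := by linarith
        gcongr
    _ = _ := by
        rw [Real.rpow_neg h1R.le]
        ring

end Pool.Agent.J6H73.TPO
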