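import Mathlib
import Pool.Agent.J6H73.TPO.P5
set_option autoImplicit false

/-! The plane estimate. -/

namespace Pool.Agent.J6H73.TPO

open MeasureTheory Set Filter Topology
open scoped ENNReal
open Pool.Agent.R412.RT (ee ee_norm ee_add ee_meas ee_cont)

variable {p : ℝ × ℝ} {E : Set (ℝ × ℝ)} {g : ℝ × ℝ → ℂ}

/-- the bound with a parameter -/
theorem V1 (h : PDen p E g) (η : ℝ) (hη : 0 < η) (hη1 : η < 1) (a : ℝ) (ha : 0 < a)
    (ha2 : a < 1 / 2) (l : ℝ) (hl : 0 < l) (A : Set (ℝ × ℝ)) :
    LH g A ≤ ENNReal.ofReal (cK η * l ^ (1 - η)) *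
        ((volume A / ENNReal.ofReal (1 + nrm p)) * volume E) +
      ENNReal.ofReal ((cK η * l ^ (-η)) ^ (1 / 2 : ℝ) * (2 * cK 1) * Ka a) *
        ((volume A / ENNReal.ofReal (1 + nrm p)) ^ (1 / 2 : ℝ) * volume E ^ a) := by
  have hc1 := cK_pos 1 one_pos
  have hcη := cK_pos η hη
  have hR := nrm_nonneg p
  set R := nrm p with hRd
  have h1R : 0 < 1 + R := by linarith
  have hlp : 0 < l ^ (1 - η) := Real.rpow_pos_of_pos hl _
  have hlm : 0 < l ^ (-η) := Real.rpow_pos_of_pos hl _
  have hmm := mr_meas h.Em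
  have hWm : Measurable (Wr a) := by unfold Wr; fun_prop
  set k1 : ℝ≥0∞ := ENNReal.ofReal (cK η * l ^ (1 - η)) * (volume A / ENNReal.ofReal (1 + R))
    with hk1
  set k2 : ℝ≥0∞ := volume A ^ (1 / 2 : ℝ) * ENNReal.ofReal ((cK η * l ^ (-η)) ^ (1 / 2 : ℝ)) *
    (ENNReal.ofReal (2 * cK 1) / ENNReal.ofReal (1 + R) ^ (1 / 2 : ℝ)) with hk2
  have hmain : LH g A ≤ k1 * volume E + k2 * (ENNReal.ofReal (Ka a) * volume E ^ a) := by
    refine (LH_le_J h A).trans ?_
    calc ∫⁻ r in Jr R, ENNReal.ofReal (r / 2) * ∫⁻ x in A, ‖hc r (gr g r) x‖ₑ ^ 2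
        ≤ ∫⁻ r in Jr R, (k1 * (ENNReal.ofReal r * mr E r) +
            k2 * (Wr a r * (ENNReal.ofReal r * mr E r) ^ a)) := by
          refine setLIntegral_mono' (Jr_meas _) fun r hr => ?_
          have hr0 : 0 < r := hr.1
          have h1r : 0 < 1 + r := by linarith
          have h2 := Jr_ineq hR hr
          have harc := h.arc r hr0
          have hv := harc.vol hr0
          have hn := harc.near hr0 η hη hη1 l hl
          have hf := harc.far hr0 η hη hη1 l hl
          have hcb := circle_bound (h.den r) r (l / (1 + r)) hr0 (by positivity) A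
          have h4 : ENNReal.ofReal (r / 2) * 2 = ENNReal.ofReal r := by
            rw [show (2 : ℝ≥0∞) = ENNReal.ofReal 2 by simp, ← ENNReal.ofReal_mul (by positivity)]
            congr 1
            ring
          have h5 : ENNReal.ofReal (cK η * l ^ (1 - η) / (1 + r)) ≤
              2 * (ENNReal.ofReal (cK η * l ^ (1 - η)) / ENNReal.ofReal (1 + R)) := by
            rw [← ENNReal.ofReal_div_of_pos h1R, show (2 : ℝ≥0∞) = ENNReal.ofReal 2 by simp,
              ← ENNReal.ofReal_mul zero_le_two]
            refine ENNReal.ofReal_le_ofReal ?_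
            rw [← mul_div_assoc, div_le_div_iff₀ h1r h1R]
            have : 0 < cK η * l ^ (1 - η) := by positivity
            nlinarith
          have t1 : ENNReal.ofReal (r / 2) * (volume A * Nn (Gr E r) (l / (1 + r))) ≤
              k1 * (ENNReal.ofReal r * mr E r) := by
            calc ENNReal.ofReal (r / 2) * (volume A * Nn (Gr E r) (l / (1 + r)))
                ≤ ENNReal.ofReal (r / 2) * (volume A * (2 *
                  (ENNReal.ofReal (cK η * l ^ (1 - η)) / ENNReal.ofReal (1 + R)) * mr E r)) :=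
                  mul_le_mul_right (mul_le_mul_right (hn.trans (mul_le_mul_left h5 _)) _) _
              _ = (ENNReal.ofReal (r / 2) * 2) * (volume A *
                  (ENNReal.ofReal (cK η * l ^ (1 - η)) / ENNReal.ofReal (1 + R)) * mr E r) := by
                  ring
              _ = _ := by
                  rw [h4, hk1, ENNReal.div_eq_inv_mul, ENNReal.div_eq_inv_mul]
                  ring
          have h6 : ENNReal.ofReal (r / 2) * (2 * ((ENNReal.ofReal (r ^ 2))⁻¹) ^ (1 / 2 : ℝ)) =
              1 := by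
            rw [← mul_assoc, h4, ENNReal.inv_rpow, ENNReal.ofReal_rpow_of_nonneg (by positivity)
              (by norm_num), ← Real.sqrt_eq_rpow, Real.sqrt_sq hr0.le]
            exact ENNReal.mul_inv_cancel (by simpa using hr0) ENNReal.ofReal_ne_top
          have t2 : ENNReal.ofReal (r / 2) * (2 * (volume A ^ (1 / 2 : ℝ) *
              ((ENNReal.ofReal (r ^ 2))⁻¹ * Fn (Gr E r) (l / (1 + r))) ^ (1 / 2 : ℝ))) ≤
              k2 * (Wr a r * (ENNReal.ofReal r * mr E r) ^ a) := by
            have h7 : Fn (Gr E r) (l / (1 + r)) ^ (1 / 2 : ℝ) ≤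
                ENNReal.ofReal ((cK η * l ^ (-η)) ^ (1 / 2 : ℝ)) * mr E r ^ (1 / 2 : ℝ) := by
              refine (ENNReal.rpow_le_rpow hf (by norm_num)).trans (le_of_eq ?_)
              rw [ENNReal.mul_rpow_of_nonneg _ _ (by norm_num),
                ENNReal.ofReal_rpow_of_pos (by positivity)]
              rfl
            have h8 := sqrt_bound hR hr ha ha2 (m := mr E r) hv
            calc ENNReal.ofReal (r / 2) * (2 * (volume A ^ (1 / 2 : ℝ) *
                  ((ENNReal.ofReal (r ^ 2))⁻¹ * Fn (Gr E r) (l / (1 + r))) ^ (1 / 2 : ℝ)))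
                = (ENNReal.ofReal (r / 2) * (2 * ((ENNReal.ofReal (r ^ 2))⁻¹) ^ (1 / 2 : ℝ))) *
                  (volume A ^ (1 / 2 : ℝ) * Fn (Gr E r) (l / (1 + r)) ^ (1 / 2 : ℝ)) := by
                  rw [ENNReal.mul_rpow_of_nonneg _ _ (by norm_num)]
                  ring
              _ = volume A ^ (1 / 2 : ℝ) * Fn (Gr E r) (l / (1 + r)) ^ (1 / 2 : ℝ) := by
                  rw [h6, one_mul]
              _ ≤ volume A ^ (1 / 2 : ℝ) * (ENNReal.ofReal ((cK η * l ^ (-η)) ^ (1 / 2 : ℝ)) *
                  (ENNReal.ofReal (2 * cK 1) / ENNReal.ofReal (1 + R) ^ (1 / 2 : ℝ) *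
                    (Wr a r * (ENNReal.ofReal r * mr E r) ^ a))) :=
                  mul_le_mul_right (h7.trans (mul_le_mul_right h8 _)) _
              _ = _ := by rw [hk2]; ring
          calc ENNReal.ofReal (r / 2) * ∫⁻ x in A, ‖hc r (gr g r) x‖ₑ ^ 2
              ≤ ENNReal.ofReal (r / 2) * (volume A * Nn (Gr E r) (l / (1 + r)) +
                2 * (volume A ^ (1 / 2 : ℝ) *
                ((ENNReal.ofReal (r ^ 2))⁻¹ * Fn (Gr E r) (l / (1 + r))) ^ (1 / 2 : ℝ))) :=
                mul_le_mul_right hcb _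
            _ ≤ _ := by
                rw [mul_add]
                exact add_le_add t1 t2
      _ = (k1 * ∫⁻ r in Jr R, ENNReal.ofReal r * mr E r) +
            k2 * ∫⁻ r in Jr R, Wr a r * (ENNReal.ofReal r * mr E r) ^ a := by
          have m1 : Measurable fun r : ℝ => ENNReal.ofReal r * mr E r :=
            Measurable.mul (by fun_prop) hmm
          rw [lintegral_add_left (m1.const_mul k1), lintegral_const_mul _ m1,
            lintegral_const_mul]
          exact hWm.mul (m1.pow_const a)
      _ ≤ _ := add_le_add (mul_le_mul_right (area_J h) _)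
          (mul_le_mul_right (holder_J h a ha ha2) _)
  refine hmain.trans (le_of_eq ?_)
  have hKa : 0 ≤ Ka a := by
    unfold Ka
    have : 0 < 1 - a := by linarith
    have : a / (1 - a) < 1 := by rw [div_lt_one this]; linarith
    have : 0 < 1 - a / (1 - a) := by linarith
    positivity
  rw [hk1, hk2, ENNReal.div_rpow_of_nonneg _ _ (by norm_num : (0 : ℝ) ≤ 1 / 2),
    ENNReal.ofReal_mul (p := (cK η * l ^ (-η)) ^ (1 / 2 : ℝ) * (2 * cK 1)) (by positivity),
    ENNReal.ofReal_mul (p := (cK η * l ^ (-η)) ^ (1 / 2 : ℝ)) (by positivity)]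
  congr 1
  · ring
  · rw [ENNReal.div_eq_inv_mul, ENNReal.div_eq_inv_mul]
    ring

/-- the final constant -/
noncomputable def cV (η a : ℝ) : ℝ :=
  4 * cK 1 + 4 * cK η + cK η ^ (1 / 2 : ℝ) * (2 * cK 1) * Ka a

theorem Ka_nonneg {a : ℝ} (ha2 : a < 1 / 2) : 0 ≤ Ka a := by
  unfold Ka
  have : 0 < 1 - a := by linarith
  have : a / (1 - a) < 1 := by rw [div_lt_one this]; linarith
  have : 0 < 1 - a / (1 - a) := by linarith
  positivity

theorem cV_pos {η a : ℝ} (hη : 0 < η) (ha2 : a < 1 / 2) : 0 < cV η a := by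
  unfold cV
  have := cK_pos 1 one_pos
  have := cK_pos η hη
  have := Ka_nonneg ha2
  positivity

/-- **the plane estimate**: `β = (1 + η) / 2` -/
theorem V2 (h : PDen p E g) (η : ℝ) (hη : 0 < η) (hη1 : η < 1) (a : ℝ) (ha : 0 < a)
    (ha2 : a < 1 / 2) (A : Set (ℝ × ℝ)) :
    LH g A ≤ ENNReal.ofReal (cV η a) * ((volume A / ENNReal.ofReal (1 + nrm p)) ^ ((1 + η) / 2) *
      volume E ^ a) := by
  have hc1 := cK_pos 1 one_pos
  have hcη := cK_pos η hη
  have hR := nrm_nonneg p
  have hKa := Ka_nonneg ha2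
  have hcV := cV_pos hη ha2
  have hβ : 0 < (1 + η) / 2 := by linarith
  set X : ℝ≥0∞ := volume A / ENNReal.ofReal (1 + nrm p) with hX
  have hE4 := vol_le_four h
  have hEa : volume E ≤ 4 * volume E ^ a := by
    rcases eq_or_ne (volume E) 0 with h0 | h0
    · rw [h0]
      exact zero_le
    · have hEt : volume E ≠ ∞ := ne_top_of_le_ne_top (by norm_num) hE4
      calc volume E = volume E ^ (1 - a) * volume E ^ a := by
            rw [← ENNReal.rpow_add _ _ h0 hEt]
            simp
        _ ≤ 4 ^ (1 - a) * volume E ^ a :=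
            mul_le_mul_left (ENNReal.rpow_le_rpow hE4 (by linarith)) _
        _ ≤ 4 ^ (1 : ℝ) * volume E ^ a :=
            mul_le_mul_left (ENNReal.rpow_le_rpow_of_exponent_le (by norm_num) (by linarith)) _
        _ = _ := by rw [ENNReal.rpow_one]
  rcases eq_or_ne X ∞ with hXt | hXt
  · rcases eq_or_ne (volume E) 0 with h0 | h0
    · have h1 := V0 h A
      rw [h0, mul_zero] at h1
      exact h1.trans zero_le
    · rw [hXt, ENNReal.top_rpow_of_pos hβ]
      have h2 : volume E ^ a ≠ 0 := by
        intro h3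
        rcases ENNReal.rpow_eq_zero_iff.1 h3 with h4 | h4
        · exact h0 h4.1
        · linarith [h4.2]
      rw [ENNReal.top_mul h2, ENNReal.mul_top (by simpa using hcV)]
      exact le_top
  · obtain ⟨x, hx0, hxX⟩ : ∃ x : ℝ, 0 ≤ x ∧ X = ENNReal.ofReal x :=
      ⟨X.toReal, ENNReal.toReal_nonneg, (ENNReal.ofReal_toReal hXt).symm⟩
    rcases le_or_gt x 1 with hx1 | hx1
    · -- small
      have h1 := V0 h A
      rw [← hX] at h1
      refine h1.trans ?_
      have h2 : X ≤ X ^ ((1 + η) / 2) := by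
        rw [hxX]
        rcases hx0.eq_or_lt with h0 | h0
        · rw [← h0, ENNReal.ofReal_zero]
          exact zero_le
        · rw [ENNReal.ofReal_rpow_of_pos h0]
          refine ENNReal.ofReal_le_ofReal ?_
          calc x = x ^ (1 : ℝ) := (Real.rpow_one x).symm
            _ ≤ _ := Real.rpow_le_rpow_of_exponent_ge h0 hx1 (by linarith)
      calc ENNReal.ofReal (cK 1) * X * volume E
          ≤ ENNReal.ofReal (cK 1) * X ^ ((1 + η) / 2) * (4 * volume E ^ a) :=
            mul_le_mul' (mul_le_mul_right h2 _) hEa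
        _ = ENNReal.ofReal (4 * cK 1) * (X ^ ((1 + η) / 2) * volume E ^ a) := by
            rw [ENNReal.ofReal_mul (by norm_num)]
            have : ENNReal.ofReal 4 = 4 := by norm_num
            rw [this]
            ring
        _ ≤ _ := by
            refine mul_le_mul_left (ENNReal.ofReal_le_ofReal ?_) _
            unfold cV
            have : 0 ≤ cK η ^ (1 / 2 : ℝ) * (2 * cK 1) * Ka a := by positivity
            linarith
    · -- large
      have hx : 0 < x := by linarith
      have h1 := V1 h η hη hη1 a ha ha2 (1 / x) (by positivity) A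
      rw [← hX] at h1
      refine h1.trans ?_
      have e1 : (1 / x) ^ (1 - η) = x ^ (η - 1) := by
        rw [one_div, Real.inv_rpow hx.le, ← Real.rpow_neg hx.le]
        congr 1
        ring
      have e2 : (1 / x) ^ (-η) = x ^ η := by
        rw [one_div, Real.inv_rpow hx.le, ← Real.rpow_neg hx.le, neg_neg]
      rw [e1, e2]
      have b1 : ENNReal.ofReal (cK η * x ^ (η - 1)) * (X * volume E) ≤
          ENNReal.ofReal (4 * cK η) * (X ^ ((1 + η) / 2) * volume E ^ a) := by
        have h2 : ENNReal.ofReal (x ^ (η - 1)) * X ≤ X ^ ((1 + η) / 2) := by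
          rw [hxX, ← ENNReal.ofReal_mul (by positivity), ENNReal.ofReal_rpow_of_pos hx]
          refine ENNReal.ofReal_le_ofReal ?_
          calc x ^ (η - 1) * x = x ^ η := by
                rw [Real.rpow_sub hx, Real.rpow_one]; field_simp
            _ ≤ _ := Real.rpow_le_rpow_of_exponent_le hx1.le (by linarith)
        calc ENNReal.ofReal (cK η * x ^ (η - 1)) * (X * volume E)
            = ENNReal.ofReal (cK η) * (ENNReal.ofReal (x ^ (η - 1)) * X) * volume E := by
              rw [ENNReal.ofReal_mul hcη.le]; ring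
          _ ≤ ENNReal.ofReal (cK η) * X ^ ((1 + η) / 2) * (4 * volume E ^ a) :=
              mul_le_mul' (mul_le_mul_right h2 _) hEa
          _ = _ := by
              rw [ENNReal.ofReal_mul (by norm_num)]
              have : ENNReal.ofReal 4 = 4 := by norm_num
              rw [this]
              ring
      have b2 : ENNReal.ofReal ((cK η * x ^ η) ^ (1 / 2 : ℝ) * (2 * cK 1) * Ka a) *
          (X ^ (1 / 2 : ℝ) * volume E ^ a) =
          ENNReal.ofReal (cK η ^ (1 / 2 : ℝ) * (2 * cK 1) * Ka a) *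
            (X ^ ((1 + η) / 2) * volume E ^ a) := by
        rw [hxX, ENNReal.ofReal_rpow_of_pos hx, ENNReal.ofReal_rpow_of_pos hx]
        have e3 : (cK η * x ^ η) ^ (1 / 2 : ℝ) * (2 * cK 1) * Ka a * x ^ (1 / 2 : ℝ) =
            cK η ^ (1 / 2 : ℝ) * (2 * cK 1) * Ka a * x ^ ((1 + η) / 2) := by
          rw [Real.mul_rpow hcη.le (by positivity), ← Real.rpow_mul hx.le,
            show (1 + η) / 2 = η * (1 / 2) + 1 / 2 by ring, Real.rpow_add hx]
          ring
        have e4 := congrArg ENNReal.ofReal e3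
        rw [ENNReal.ofReal_mul (q := x ^ (1 / 2 : ℝ)) (by positivity),
          ENNReal.ofReal_mul (q := x ^ ((1 + η) / 2)) (by positivity)] at e4
        rw [← mul_assoc, e4, mul_assoc]
      rw [b2]
      calc _ ≤ ENNReal.ofReal (4 * cK η) * (X ^ ((1 + η) / 2) * volume E ^ a) +
            ENNReal.ofReal (cK η ^ (1 / 2 : ℝ) * (2 * cK 1) * Ka a) *
            (X ^ ((1 + η) / 2) * volume E ^ a) := add_le_add_left b1 _
        _ = ENNReal.ofReal (4 * cK η + cK η ^ (1 / 2 : ℝ) * (2 * cK 1) * Ka a) *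
            (X ^ ((1 + η) / 2) * volume E ^ a) := by
            rw [ENNReal.ofReal_add (by positivity) (by positivity)]
            ring
        _ ≤ _ := by
            refine mul_le_mul_left (ENNReal.ofReal_le_ofReal ?_) _
            unfold cV
            linarith

end Pool.Agent.J6H73.TPO
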