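import Mathlib
import Pool.Agent.J6H73.TPO.P6
import Pool.Agent.R412.RT.S
set_option autoImplicit false

/-! The plane estimate in a moving frame. -/

namespace Pool.Agent.J6H73.TPO

open MeasureTheory Set Filter Topology
open scoped ENNReal RealInnerProductSpace
open Pool.Agent.R412.RT (ee ee_norm ee_add ee_meas ee_cont Ex Ex_meas Phi Phi_cast Phi_last inner_eq
  split_lint)

abbrev EE (n : ℕ) := EuclideanSpace ℝ (Fin n)

/-- points of space-time -/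
noncomputable def mk3 (x : ℝ × ℝ) (t : ℝ) : EE 3 := !₂[x.1, x.2, t]

theorem mk3_0 (x : ℝ × ℝ) (t : ℝ) : mk3 x t 0 = x.1 := rfl
theorem mk3_1 (x : ℝ × ℝ) (t : ℝ) : mk3 x t 1 = x.2 := rfl
theorem mk3_2 (x : ℝ × ℝ) (t : ℝ) : mk3 x t 2 = t := rfl

theorem mk3_meas : Measurable fun q : (ℝ × ℝ) × ℝ => mk3 q.1 q.2 := by
  unfold mk3
  refine (PiLp.continuous_toLp 2 _).measurable.comp ?_
  rw [measurable_pi_iff]
  intro i
  fin_cases i
  · exact measurable_fst.comp measurable_fst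
  · exact measurable_snd.comp measurable_fst
  · exact measurable_snd

theorem lint3 (G : EE 3 → ℝ≥0∞) (hG : Measurable G) :
    ∫⁻ ξ, G ξ = ∫⁻ t : ℝ, ∫⁻ x : ℝ × ℝ, G (mk3 x t) := by
  have h1 : ∫⁻ ξ, G ξ = ∫⁻ y : Fin 3 → ℝ, G (WithLp.toLp 2 y) :=
    ((PiLp.volume_preserving_toLp (Fin 3)).lintegral_comp hG).symm
  have hm : Measurable fun y : Fin 3 → ℝ => G (WithLp.toLp 2 y) :=
    hG.comp (PiLp.continuous_toLp 2 _).measurable
  rw [h1, split_lint (n := 2) (Fin.last 2) _ hm]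
  refine lintegral_congr fun t => ?_
  have h2 := (volume_preserving_finTwoArrow ℝ).symm.lintegral_comp_emb
    (MeasurableEquiv.finTwoArrow (α := ℝ)).symm.measurableEmbedding
    (fun s : Fin 2 → ℝ => G (WithLp.toLp 2 ((Fin.last 2).insertNth t s)))
  rw [← h2]
  refine lintegral_congr fun x => ?_
  congr 1
  unfold mk3
  congr 1
  ext i
  rw [Fin.insertNth_last']
  fin_cases i
  · rfl
  · rfl
  · rfl

/-- in a frame moving with velocity `v` -/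
theorem lint3v (G : EE 3 → ℝ≥0∞) (hG : Measurable G) (v : ℝ × ℝ) :
    ∫⁻ ξ, G ξ = ∫⁻ x : ℝ × ℝ, ∫⁻ t : ℝ, G (mk3 (x + t • v) t) := by
  rw [lint3 G hG]
  have h1 : ∀ t : ℝ, ∫⁻ x : ℝ × ℝ, G (mk3 x t) = ∫⁻ x : ℝ × ℝ, G (mk3 (x + t • v) t) := by
    intro t
    exact (lintegral_add_right_eq_self (fun x => G (mk3 x t)) (t • v)).symm
  simp_rw [h1]
  refine lintegral_lintegral_swap ?_
  have h2 : Measurable (Function.uncurry fun (t : ℝ) (x : ℝ × ℝ) => G (mk3 (x + t • v) t)) := by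
    refine hG.comp ?_
    have h3 : Measurable fun q : ℝ × (ℝ × ℝ) => ((q.2 + q.1 • v, q.1) : (ℝ × ℝ) × ℝ) := by
      fun_prop
    exact mk3_meas.comp h3
  exact h2.aemeasurable

theorem Phi_mk3 (y : EE 2) (x : ℝ × ℝ) (t : ℝ) :
    ⟪Phi y, mk3 x t⟫ = y 0 * x.1 + y 1 * x.2 + (y 0 ^ 2 + y 1 ^ 2) * t := by
  rw [inner_eq, Fin.sum_univ_castSucc, Fin.sum_univ_two, Phi_cast, Phi_cast, Phi_last,
    Fin.sum_univ_two]
  rfl

/-- Galilean change of the density -/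
noncomputable def gal (v : ℝ × ℝ) (f : EE 2 → ℂ) (z : ℝ × ℝ) : ℂ :=
  f (T2.symm (z - (1 / 2 : ℝ) • v))

theorem galilei (v : ℝ × ℝ) (f : EE 2 → ℂ) (x : ℝ × ℝ) (t : ℝ) :
    ‖Ex f (mk3 (x + t • v) t)‖ₑ = ‖Tg (gal v f) x t‖ₑ := by
  have h1 : Ex f (mk3 (x + t • v) t) =
      ee (-((v.1 * x.1 + v.2 * x.2) / 2 + (v.1 ^ 2 + v.2 ^ 2) * t / 4)) * Tg (gal v f) x t := by
    unfold Ex Tg gal
    rw [← integral_const_mul]
    have h2 : ∫ z : ℝ × ℝ, ee (-((v.1 * x.1 + v.2 * x.2) / 2 + (v.1 ^ 2 + v.2 ^ 2) * t / 4)) *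
        (ee (z.1 * x.1 + z.2 * x.2 + (z.1 ^ 2 + z.2 ^ 2) * t) *
          f (T2.symm (z - (1 / 2 : ℝ) • v))) =
        ∫ z : ℝ × ℝ, ee (-((v.1 * x.1 + v.2 * x.2) / 2 + (v.1 ^ 2 + v.2 ^ 2) * t / 4)) *
        (ee ((z + (1 / 2 : ℝ) • v).1 * x.1 + (z + (1 / 2 : ℝ) • v).2 * x.2 +
          ((z + (1 / 2 : ℝ) • v).1 ^ 2 + (z + (1 / 2 : ℝ) • v).2 ^ 2) * t) *
          f (T2.symm z)) := by
      rw [← integral_add_right_eq_self (fun z : ℝ × ℝ =>
        ee (-((v.1 * x.1 + v.2 * x.2) / 2 + (v.1 ^ 2 + v.2 ^ 2) * t / 4)) *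
        (ee (z.1 * x.1 + z.2 * x.2 + (z.1 ^ 2 + z.2 ^ 2) * t) *
          f (T2.symm (z - (1 / 2 : ℝ) • v)))) ((1 / 2 : ℝ) • v)]
      refine integral_congr_ae (Eventually.of_forall fun z => ?_)
      simp only [add_sub_cancel_right]
    rw [h2, ← T2_mp.integral_comp T2_me]
    refine integral_congr_ae (Eventually.of_forall fun y => ?_)
    simp only [T2.symm_apply_apply]
    rw [← mul_assoc, ← ee_add, Phi_mk3]
    congr 2
    simp only [T2_apply, Prod.fst_add, Prod.snd_add, Prod.smul_fst, Prod.smul_snd, smul_eq_mul]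
    ring
  rw [h1, enorm_mul, ← ofReal_norm (ee _), ee_norm, ENNReal.ofReal_one, one_mul]

/-- the class of densities in the unit disc -/
structure BDen (F : Set (EE 2)) (f : EE 2 → ℂ) : Prop where
  Fm : MeasurableSet F
  Fs : ∀ x ∈ F, ‖x‖ < 1
  meas : Measurable f
  bd : ∀ x, ‖f x‖ₑ ≤ F.indicator 1 x

variable {F : Set (EE 2)} {f : EE 2 → ℂ}

theorem norm_sq2 (x : EE 2) : ‖x‖ ^ 2 = x 0 ^ 2 + x 1 ^ 2 := by
  rw [EuclideanSpace.norm_sq_eq, Fin.sum_univ_two]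
  simp

theorem BDen.supp (h : BDen F f) (x : EE 2) (hx : x ∉ F) : f x = 0 := by
  have := h.bd x
  rw [indicator_of_notMem hx, nonpos_iff_eq_zero, enorm_eq_zero] at this
  exact this

theorem BDen.int (h : BDen F f) : Integrable f := by
  refine ⟨h.meas.aestronglyMeasurable, ?_⟩
  show ∫⁻ x, ‖f x‖ₑ < ∞
  refine (lintegral_mono h.bd).trans_lt ?_
  rw [lintegral_indicator_one h.Fm]
  refine (measure_mono (t := Metric.ball 0 1) fun x hx => ?_).trans_lt measure_ball_lt_top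
  rw [Metric.mem_ball, dist_zero_right]
  exact h.Fs x hx

/-- the shifted set -/
def Fsh (v : ℝ × ℝ) (F : Set (EE 2)) : Set (ℝ × ℝ) :=
  {z | T2.symm (z - (1 / 2 : ℝ) • v) ∈ F}

theorem Fsh_meas (v : ℝ × ℝ) (hF : MeasurableSet F) : MeasurableSet (Fsh v F) := by
  have h1 : Measurable fun z : ℝ × ℝ => T2.symm (z - (1 / 2 : ℝ) • v) :=
    T2.symm.continuous.measurable.comp (by fun_prop)
  exact h1 hF

theorem Fsh_vol (v : ℝ × ℝ) (hF : MeasurableSet F) : volume (Fsh v F) = volume F := by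
  have h1 := T2_symm_mp.comp (measurePreserving_sub_right (volume : Measure (ℝ × ℝ))
    ((1 / 2 : ℝ) • v))
  exact h1.measure_preimage hF.nullMeasurableSet

theorem BDen.gal (h : BDen F f) (v : ℝ × ℝ) : PDen ((1 / 2 : ℝ) • v) (Fsh v F) (gal v f) where
  Em := Fsh_meas v h.Fm
  Es := by
    intro z hz
    have h1 := h.Fs _ hz
    have h2 : ‖T2.symm (z - (1 / 2 : ℝ) • v)‖ ^ 2 < 1 := by
      have := norm_nonneg (T2.symm (z - (1 / 2 : ℝ) • v))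
      nlinarith
    rw [norm_sq2] at h2
    have h3 := T2_apply (T2.symm (z - (1 / 2 : ℝ) • v))
    rw [T2.apply_symm_apply] at h3
    have h4 := (Prod.ext_iff.1 h3).1
    have h5 := (Prod.ext_iff.1 h3).2
    simp only at h4 h5
    rw [← h4, ← h5] at h2
    exact h2
  meas := by
    unfold TPO.gal
    exact h.meas.comp (T2.symm.continuous.measurable.comp (by fun_prop))
  bd := fun z => h.bd _

/-- **the plane estimate in a moving frame** -/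
theorem planeV (h : BDen F f) (η : ℝ) (hη : 0 < η) (hη1 : η < 1) (a : ℝ) (ha : 0 < a)
    (ha2 : a < 1 / 2) (v : ℝ × ℝ) (A : Set (ℝ × ℝ)) (hA : MeasurableSet A) :
    ∫⁻ ξ : EE 3, A.indicator 1 (ξ 0 - ξ 2 * v.1, ξ 1 - ξ 2 * v.2) * ‖Ex f ξ‖ₑ ^ 2 ≤
      ENNReal.ofReal (cV η a) *
        ((volume A / ENNReal.ofReal (1 + nrm ((1 / 2 : ℝ) • v))) ^ ((1 + η) / 2) *
          volume F ^ a) := by
  have hG : Measurable fun ξ : EE 3 => A.indicator (1 : ℝ × ℝ → ℝ≥0∞)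
      (ξ 0 - ξ 2 * v.1, ξ 1 - ξ 2 * v.2) * ‖Ex f ξ‖ₑ ^ 2 := by
    refine Measurable.mul ((measurable_one.indicator hA).comp ?_)
      ((Ex_meas f h.int.1).enorm.pow_const 2)
    fun_prop
  rw [lint3v _ hG v]
  have h1 : ∀ x : ℝ × ℝ, ∀ t : ℝ, A.indicator (1 : ℝ × ℝ → ℝ≥0∞)
      ((mk3 (x + t • v) t) 0 - (mk3 (x + t • v) t) 2 * v.1,
        (mk3 (x + t • v) t) 1 - (mk3 (x + t • v) t) 2 * v.2) *
      ‖Ex f (mk3 (x + t • v) t)‖ₑ ^ 2 = A.indicator 1 x * ‖Tg (gal v f) x t‖ₑ ^ 2 := by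
    intro x t
    rw [galilei, mk3_0, mk3_1, mk3_2]
    congr 2
    ext <;> simp
  simp_rw [h1]
  have h2 : ∀ x : ℝ × ℝ, ∫⁻ t, A.indicator (1 : ℝ × ℝ → ℝ≥0∞) x * ‖Tg (gal v f) x t‖ₑ ^ 2 =
      A.indicator (fun x => ∫⁻ t, ‖Tg (gal v f) x t‖ₑ ^ 2) x := by
    intro x
    by_cases hx : x ∈ A
    · rw [indicator_of_mem hx, indicator_of_mem hx]
      simp
    · rw [indicator_of_notMem hx, indicator_of_notMem hx]
      simp
  simp_rw [h2]
  rw [lintegral_indicator hA]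
  have h3 := V2 (h.gal v) η hη hη1 a ha ha2 A
  rw [Fsh_vol v h.Fm] at h3
  exact h3

end Pool.Agent.J6H73.TPO
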