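import Mathlib
import Pool.Agent.J6H73.TPO.P7
import Pool.Agent.R412.RT.D2
set_option autoImplicit false

/-! Minkowski's inequality for countable decompositions, the slab estimate, the measure of the
strip where the normal component is small. -/

namespace Pool.Agent.J6H73.TPO

open MeasureTheory Set Filter Topology
open scoped ENNReal RealInnerProductSpace
open Pool.Agent.R412.RT (ee ee_norm ee_add ee_meas ee_cont Ex Ex_meas Phi inner_eq)
open Pool.Agent.R412.RS (slabE Phi_cont Nn_cont)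

/-- the normal -/
noncomputable abbrev No (x : EE 2) : EE 3 := Pool.Agent.R412.RT.Nn x

theorem mink {X ι : Type*} [MeasurableSpace X] [Countable ι] (ν : Measure X)
    (h : ι → X → ℝ≥0∞) (hm : ∀ i, Measurable (h i)) :
    ∫⁻ x, (∑' i, h i x) ^ 2 ∂ν ≤ (∑' i, (∫⁻ x, h i x ^ 2 ∂ν) ^ (1 / 2 : ℝ)) ^ 2 := by
  have e1 : ∀ x, (∑' i, h i x) ^ 2 = ∑' i, ∑' j, h i x * h j x := by
    intro x
    rw [sq, ← ENNReal.tsum_mul_right]
    refine tsum_congr fun i => ?_
    rw [← ENNReal.tsum_mul_left]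
  have e2 : (∑' i, (∫⁻ x, h i x ^ 2 ∂ν) ^ (1 / 2 : ℝ)) ^ 2 =
      ∑' i, ∑' j, (∫⁻ x, h i x ^ 2 ∂ν) ^ (1 / 2 : ℝ) * (∫⁻ x, h j x ^ 2 ∂ν) ^ (1 / 2 : ℝ) := by
    rw [sq, ← ENNReal.tsum_mul_right]
    refine tsum_congr fun i => ?_
    rw [← ENNReal.tsum_mul_left]
  have m1 : ∀ i j, Measurable fun x => h i x * h j x := fun i j => (hm i).mul (hm j)
  have m2 : ∀ i, Measurable fun x => ∑' j, h i x * h j x := fun i =>
    Measurable.ennreal_tsum (m1 i)
  simp_rw [e1]
  rw [e2, lintegral_tsum fun i => (m2 i).aemeasurable]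
  refine ENNReal.tsum_le_tsum fun i => ?_
  rw [lintegral_tsum fun j => (m1 i j).aemeasurable]
  refine ENNReal.tsum_le_tsum fun j => ?_
  have hH := ENNReal.lintegral_mul_le_Lp_mul_Lq ν Real.HolderConjugate.two_two
    (hm i).aemeasurable (hm j).aemeasurable
  simpa only [Pi.mul_apply, ENNReal.rpow_two] using hH

/-- countable decompositions -/
theorem pieces {ι : Type*} [Countable ι] (ν : Measure (EE 3)) (f : EE 2 → ℂ)
    (hf : Integrable f) (hfm : Measurable f) (idx : EE 2 → ι)
    (hidx : ∀ i, MeasurableSet {x | idx x = i}) (b : ι → ℝ≥0∞)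
    (hb : ∀ i, ∫⁻ ξ, ‖Ex ({x | idx x = i}.indicator f) ξ‖ₑ ^ 2 ∂ν ≤ b i ^ 2) :
    ∫⁻ ξ, ‖Ex f ξ‖ₑ ^ 2 ∂ν ≤ (∑' i, b i) ^ 2 := by
  classical
  have hfi : ∀ i, Integrable ({x | idx x = i}.indicator f) := fun i => hf.indicator (hidx i)
  have hone : ∀ (x : EE 2) (G : EE 2 → ℂ), ∀ i, i ≠ idx x →
      {y | idx y = i}.indicator G x = 0 := by
    intro x G i hi
    exact indicator_of_notMem (s := {y | idx y = i}) (fun h : idx x = i => hi h.symm) _
  have hsum : ∀ ξ : EE 3, Ex f ξ = ∑' i, Ex ({x | idx x = i}.indicator f) ξ := by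
    intro ξ
    unfold Ex
    rw [← integral_tsum]
    · refine integral_congr_ae (Eventually.of_forall fun x => ?_)
      simp only
      rw [tsum_eq_single (idx x)]
      · rw [indicator_of_mem (show x ∈ {y | idx y = idx x} from rfl)]
      · intro i hi
        rw [hone x f i hi, mul_zero]
    · intro i
      refine (Measurable.mul (ee_meas.comp ?_) (hfm.indicator (hidx i))).aestronglyMeasurable
      exact Measurable.inner (Phi_cont.measurable) measurable_const
    · have h1 : ∀ i x, ‖ee ⟪Phi x, ξ⟫ * {x | idx x = i}.indicator f x‖ₑ =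
          {x | idx x = i}.indicator (fun x => ‖f x‖ₑ) x := by
        intro i x
        rw [enorm_mul, ← ofReal_norm (ee _), ee_norm, ENNReal.ofReal_one, one_mul]
        by_cases hx : x ∈ {x | idx x = i}
        · rw [indicator_of_mem hx, indicator_of_mem hx]
        · rw [indicator_of_notMem hx, indicator_of_notMem hx, enorm_zero]
      simp_rw [h1]
      rw [← lintegral_tsum fun i => (hfm.enorm.indicator (hidx i)).aemeasurable]
      have h2 : ∀ x, ∑' i, {x | idx x = i}.indicator (fun x => ‖f x‖ₑ) x = ‖f x‖ₑ := by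
        intro x
        rw [tsum_eq_single (idx x)]
        · rw [indicator_of_mem (show x ∈ {y | idx y = idx x} from rfl)]
        · intro i hi
          exact indicator_of_notMem (s := {y | idx y = i}) (fun h : idx x = i => hi h.symm) _
      simp_rw [h2]
      exact hf.2.ne
  calc ∫⁻ ξ, ‖Ex f ξ‖ₑ ^ 2 ∂ν ≤ ∫⁻ ξ, (∑' i, ‖Ex ({x | idx x = i}.indicator f) ξ‖ₑ) ^ 2 ∂ν := by
        refine lintegral_mono fun ξ => ?_
        rw [hsum ξ]
        gcongr
        exact enorm_tsum_le_tsum_enorm
    _ ≤ (∑' i, (∫⁻ ξ, ‖Ex ({x | idx x = i}.indicator f) ξ‖ₑ ^ 2 ∂ν) ^ (1 / 2 : ℝ)) ^ 2 :=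
        mink ν _ fun i => (Ex_meas _ (hfi i).1).enorm
    _ ≤ _ := by
        gcongr with i
        refine (ENNReal.rpow_le_rpow (hb i) (by norm_num)).trans (le_of_eq ?_)
        rw [← ENNReal.rpow_two, ← ENNReal.rpow_mul]
        norm_num

/-- the slab estimate for a bounded density -/
theorem slabB {F : Set (EE 2)} {f : EE 2 → ℂ} (h : BDen F f) (c : EE 3) (hc : c ≠ 0) (s δ : ℝ)
    (hδ : 0 < δ) (hs : |s| = 1) (hF : ∀ x ∈ F, δ ≤ s * ⟪c, No x⟫) (C : Set ℝ)
    (hC : MeasurableSet C) :
    ∫⁻ ξ : EE 3, C.indicator 1 ⟪c, ξ⟫ * ‖Ex f ξ‖ₑ ^ 2 ≤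
      volume C * (volume F / ENNReal.ofReal δ) := by
  refine (slabE c hc s (C.indicator 1) (measurable_one.indicator hC) f h.int
    ?_).trans ?_
  · intro x hx
    by_contra hne
    have hxF : x ∈ F := by
      by_contra h1
      exact hne (h.supp x h1)
    exact hx (lt_of_lt_of_le hδ (hF x hxF))
  · rw [lintegral_indicator_one hC]
    refine mul_le_mul_right ?_ _
    calc ∫⁻ x, ‖f x‖ₑ ^ 2 / ENNReal.ofReal |⟪c, No x⟫|
        ≤ ∫⁻ x, F.indicator (fun _ => (ENNReal.ofReal δ)⁻¹) x := by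
          refine lintegral_mono fun x => ?_
          by_cases hx : x ∈ F
          · rw [indicator_of_mem hx, ENNReal.div_eq_inv_mul]
            have h1 := h.bd x
            rw [indicator_of_mem hx, Pi.one_apply] at h1
            have h2 : ‖f x‖ₑ ^ 2 ≤ 1 := by
              calc ‖f x‖ₑ ^ 2 ≤ 1 ^ 2 := by gcongr
                _ = 1 := one_pow 2
            have h3 : δ ≤ |⟪c, No x⟫| := by
              calc δ ≤ s * ⟪c, No x⟫ := hF x hx
                _ ≤ |s * ⟪c, No x⟫| := le_abs_self _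
                _ = _ := by rw [abs_mul, hs, one_mul]
            calc (ENNReal.ofReal |⟪c, No x⟫|)⁻¹ * ‖f x‖ₑ ^ 2
                ≤ (ENNReal.ofReal δ)⁻¹ * 1 :=
                  mul_le_mul' (ENNReal.inv_le_inv.2 (ENNReal.ofReal_le_ofReal h3)) h2
              _ = _ := mul_one _
          · rw [indicator_of_notMem hx, h.supp x hx]
            simp
      _ = _ := by
          rw [lintegral_indicator_const h.Fm, ENNReal.div_eq_inv_mul]

/-- strips parallel to a coordinate axis -/
theorem strip1 (α β κ : ℝ) (i : Fin 2) (hκ : κ ≠ 0) (γ : ℝ) (hγ : 0 ≤ γ) :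
    volume {x : EE 2 | |x 0| < 1 ∧ |x 1| < 1 ∧ |α - 2 * (κ * x i + β * x (1 - i))| ≤ γ} ≤
      ENNReal.ofReal (2 * (γ / |κ|)) := by
  have hmp := T2_mp
  -- to the plane
  set S : Set (ℝ × ℝ) := {z | |z.1| < 1 ∧ |α - 2 * (κ * z.2 + β * z.1)| ≤ γ} with hS
  have h1 : Measurable fun z : ℝ × ℝ => |z.1| := by fun_prop
  have h2 : Measurable fun z : ℝ × ℝ => |α - 2 * (κ * z.2 + β * z.1)| := by fun_prop
  have hSm : MeasurableSet S :=
    (measurableSet_lt h1 measurable_const).inter (measurableSet_le h2 measurable_const)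
  have hvol : volume S ≤ ENNReal.ofReal (2 * (γ / |κ|)) := by
    have hk0 : 0 < |κ| := abs_pos.2 hκ
    rw [Measure.volume_eq_prod, Measure.prod_apply hSm]
    have h3 : ∀ y : ℝ, volume (Prod.mk y ⁻¹' S) ≤
        (Ioo (-1 : ℝ) 1).indicator (fun _ => ENNReal.ofReal (γ / |κ|)) y := by
      intro y
      by_cases hy : y ∈ Ioo (-1 : ℝ) 1
      · rw [indicator_of_mem hy]
        have h4 : Prod.mk y ⁻¹' S ⊆ Icc ((α / 2 - β * y) / κ - γ / (2 * |κ|))
            ((α / 2 - β * y) / κ + γ / (2 * |κ|)) := by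
          intro w hw
          have h5 : |α - 2 * (κ * w + β * y)| ≤ γ := hw.2
          have h6 : |(α / 2 - β * y) / κ - w| ≤ γ / (2 * |κ|) := by
            have e : (α / 2 - β * y) / κ - w = (α - 2 * (κ * w + β * y)) / (2 * κ) := by
              field_simp
              ring
            rw [e, abs_div, abs_mul, abs_two]
            gcongr
          have h7 := abs_le.1 h6
          exact ⟨by linarith [h7.2], by linarith [h7.1]⟩
        refine (measure_mono h4).trans ?_
        rw [Real.volume_Icc]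
        refine ENNReal.ofReal_le_ofReal (le_of_eq ?_)
        field_simp
        ring
      · have : Prod.mk y ⁻¹' S = ∅ := by
          rw [Set.eq_empty_iff_forall_notMem]
          intro w hw
          exact hy (abs_lt.1 hw.1)
        rw [this, measure_empty]
        exact zero_le
    refine (lintegral_mono h3).trans ?_
    rw [lintegral_indicator measurableSet_Ioo, setLIntegral_const, Real.volume_Ioo,
      ← ENNReal.ofReal_mul (by positivity)]
    refine ENNReal.ofReal_le_ofReal (le_of_eq ?_)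
    ring
  refine le_trans ?_ hvol
  fin_cases i
  · -- i = 0
    have h8 : (volume : Measure (ℝ × ℝ)) S = volume ((fun x : EE 2 => (T2 x).swap) ⁻¹' S) := by
      have hsw : MeasurePreserving (fun x : EE 2 => (T2 x).swap) volume volume := by
        have := (Measure.measurePreserving_swap (μ := (volume : Measure ℝ))
          (ν := (volume : Measure ℝ))).comp T2_mp
        exact this
      exact (hsw.measure_preimage hSm.nullMeasurableSet).symm
    rw [h8]
    refine measure_mono fun x hx => ?_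
    refine ⟨hx.2.1, ?_⟩
    exact hx.2.2
  · have h8 : (volume : Measure (ℝ × ℝ)) S = volume ((fun x : EE 2 => (T2 x)) ⁻¹' S) :=
      (T2_mp.measure_preimage hSm.nullMeasurableSet).symm
    rw [h8]
    refine measure_mono fun x hx => ?_
    refine ⟨hx.1, ?_⟩
    exact hx.2.2

end Pool.Agent.J6H73.TPO
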