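import Mathlib
import Pool.Agent.J6H73.TPO.P8
set_option autoImplicit false

/-! The strip where the normal component is small, and the combination of the plane estimate with
the slab estimate. -/

namespace Pool.Agent.J6H73.TPO

open MeasureTheory Set Filter Topology
open scoped ENNReal RealInnerProductSpace
open Pool.Agent.R412.RT (ee ee_norm ee_add ee_meas ee_cont Ex Ex_meas Phi inner_eq)
open Pool.Agent.R412.RS (slabE Phi_cont Nn_cont)

theorem inner_No (c : EE 3) (x : EE 2) :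
    ⟪c, No x⟫ = c 2 - 2 * (c 0 * x 0 + c 1 * x 1) := by
  show ⟪c, Pool.Agent.R412.RT.Nn x⟫ = _
  rw [inner_eq, Fin.sum_univ_castSucc, Fin.sum_univ_two, Pool.Agent.R412.RT.Nn_cast,
    Pool.Agent.R412.RT.Nn_cast, Pool.Agent.R412.RT.Nn_last]
  show c 0 * (-2 * x 0) + c 1 * (-2 * x 1) + c 2 * 1 = _
  ring

theorem norm_sq3 (c : EE 3) : ‖c‖ ^ 2 = c 0 ^ 2 + c 1 ^ 2 + c 2 ^ 2 := by
  rw [EuclideanSpace.norm_sq_eq, Fin.sum_univ_three]
  simp

theorem coord_lt {x : EE 2} (hx : ‖x‖ < 1) : |x 0| < 1 ∧ |x 1| < 1 := by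
  have h1 := norm_sq2 x
  have h0 := norm_nonneg x
  have h2 : ‖x‖ ^ 2 < 1 := by nlinarith
  constructor
  · rw [← sq_lt_one_iff_abs_lt_one]; nlinarith [sq_nonneg (x 1)]
  · rw [← sq_lt_one_iff_abs_lt_one]; nlinarith [sq_nonneg (x 0)]

theorem disc_vol : volume {x : EE 2 | ‖x‖ < 1} ≤ 4 := by
  have h1 : {x : EE 2 | ‖x‖ < 1} ⊆ T2 ⁻¹' (Ioo (-1 : ℝ) 1 ×ˢ Ioo (-1 : ℝ) 1) := by
    intro x hx
    have h2 := coord_lt hx
    rw [mem_preimage, T2_apply]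
    exact ⟨abs_lt.1 h2.1, abs_lt.1 h2.2⟩
  refine (measure_mono h1).trans ?_
  rw [T2_mp.measure_preimage (measurableSet_Ioo.prod measurableSet_Ioo).nullMeasurableSet,
    Measure.volume_eq_prod, Measure.prod_prod, Real.volume_Ioo, ← ENNReal.ofReal_mul (by norm_num),
    show (4 : ℝ≥0∞) = ENNReal.ofReal 4 by simp]
  exact ENNReal.ofReal_le_ofReal (by norm_num)

/-- the strip where the normal component is small -/
theorem strip (c : EE 3) (hc : c ≠ 0) (τ : ℝ) (hτ : 0 ≤ τ) :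
    volume {x : EE 2 | ‖x‖ < 1 ∧ |⟪c, No x⟫| ≤ τ * ‖c‖} ≤ ENNReal.ofReal (16 * τ) := by
  have hc0 : 0 < ‖c‖ := norm_pos_iff.2 hc
  have hn := norm_sq3 c
  by_cases h0 : ‖c‖ / 8 ≤ |c 0|
  · have hk : c 0 ≠ 0 := by
      intro h
      rw [h, abs_zero] at h0
      linarith
    have hk0 : 0 < |c 0| := abs_pos.2 hk
    refine (measure_mono (t := {x : EE 2 | |x 0| < 1 ∧ |x 1| < 1 ∧
      |c 2 - 2 * (c 0 * x 0 + c 1 * x (1 - 0))| ≤ τ * ‖c‖}) fun x hx => ?_).trans ?_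
    · have h2 := coord_lt hx.1
      refine ⟨h2.1, h2.2, ?_⟩
      have h3 := hx.2
      rw [inner_No] at h3
      exact h3
    · refine (strip1 (c 2) (c 1) (c 0) 0 hk (τ * ‖c‖) (by positivity)).trans ?_
      refine ENNReal.ofReal_le_ofReal ?_
      have : τ * ‖c‖ / |c 0| ≤ 8 * τ := by
        rw [div_le_iff₀ hk0]
        nlinarith
      linarith
  by_cases h1 : ‖c‖ / 8 ≤ |c 1|
  · have hk : c 1 ≠ 0 := by
      intro h
      rw [h, abs_zero] at h1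
      linarith
    have hk0 : 0 < |c 1| := abs_pos.2 hk
    refine (measure_mono (t := {x : EE 2 | |x 0| < 1 ∧ |x 1| < 1 ∧
      |c 2 - 2 * (c 1 * x 1 + c 0 * x (1 - 1))| ≤ τ * ‖c‖}) fun x hx => ?_).trans ?_
    · have h2 := coord_lt hx.1
      refine ⟨h2.1, h2.2, ?_⟩
      have h3 := hx.2
      rw [inner_No] at h3
      have e : (1 : Fin 2) - 1 = 0 := rfl
      rw [e, add_comm (c 1 * x 1)]
      exact h3
    · refine (strip1 (c 2) (c 0) (c 1) 1 hk (τ * ‖c‖) (by positivity)).trans ?_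
      refine ENNReal.ofReal_le_ofReal ?_
      have : τ * ‖c‖ / |c 1| ≤ 8 * τ := by
        rw [div_le_iff₀ hk0]
        nlinarith
      linarith
  push Not at h0 h1
  by_cases h2 : τ < 1 / 4
  · have : {x : EE 2 | ‖x‖ < 1 ∧ |⟪c, No x⟫| ≤ τ * ‖c‖} = ∅ := by
      rw [Set.eq_empty_iff_forall_notMem]
      rintro x ⟨hx, hx2⟩
      have h3 := coord_lt hx
      rw [inner_No] at hx2
      have h4 : |2 * (c 0 * x 0 + c 1 * x 1)| ≤ ‖c‖ / 2 := by
        rw [abs_mul, abs_two]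
        have h5 : |c 0 * x 0 + c 1 * x 1| ≤ |c 0| * |x 0| + |c 1| * |x 1| := by
          refine (abs_add_le _ _).trans ?_
          rw [abs_mul, abs_mul]
        have h6 : |c 0| * |x 0| ≤ ‖c‖ / 8 * 1 := mul_le_mul h0.le h3.1.le (abs_nonneg _) (by positivity)
        have h7 : |c 1| * |x 1| ≤ ‖c‖ / 8 * 1 := mul_le_mul h1.le h3.2.le (abs_nonneg _) (by positivity)
        linarith
      have h5 : |c 2| ≤ ‖c‖ / 4 + ‖c‖ / 2 := by
        have h6 : c 2 = (c 2 - 2 * (c 0 * x 0 + c 1 * x 1)) + 2 * (c 0 * x 0 + c 1 * x 1) := by ring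
        rw [h6]
        refine (abs_add_le _ _).trans (add_le_add (hx2.trans ?_) h4)
        nlinarith
      have h8 : c 0 ^ 2 ≤ (‖c‖ / 8) ^ 2 := by
        rw [← sq_abs (c 0)]
        exact pow_le_pow_left₀ (abs_nonneg _) h0.le 2
      have h9 : c 1 ^ 2 ≤ (‖c‖ / 8) ^ 2 := by
        rw [← sq_abs (c 1)]
        exact pow_le_pow_left₀ (abs_nonneg _) h1.le 2
      have h10 : c 2 ^ 2 ≤ (‖c‖ / 4 + ‖c‖ / 2) ^ 2 := by
        rw [← sq_abs (c 2)]
        exact pow_le_pow_left₀ (abs_nonneg _) h5 2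
      nlinarith
    rw [this, measure_empty]
    exact zero_le
  · push Not at h2
    refine (measure_mono (t := {x : EE 2 | ‖x‖ < 1}) fun x hx => hx.1).trans (disc_vol.trans ?_)
    rw [show (4 : ℝ≥0∞) = ENNReal.ofReal 4 by simp]
    exact ENNReal.ofReal_le_ofReal (by linarith)

/-- the normal component is at most `4 ‖c‖` -/
theorem J_le (c : EE 3) {x : EE 2} (hx : ‖x‖ < 1) : |⟪c, No x⟫| ≤ 4 * ‖c‖ := by
  have h3 := coord_lt hx
  have hn := norm_sq3 c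
  have hc0 := norm_nonneg c
  have h0 : |c 0| ≤ ‖c‖ := by
    rw [← Real.sqrt_sq hc0, ← Real.sqrt_sq_eq_abs]
    exact Real.sqrt_le_sqrt (by nlinarith [sq_nonneg (c 1), sq_nonneg (c 2)])
  have hx2 := norm_sq2 x
  have hx0 := norm_nonneg x
  have h4 : ⟪c, No x⟫ ^ 2 ≤ (4 * ‖c‖) ^ 2 := by
    rw [inner_No]
    have h5 : (c 2 - 2 * (c 0 * x 0 + c 1 * x 1)) ^ 2 ≤
        (c 0 ^ 2 + c 1 ^ 2 + c 2 ^ 2) * (1 + 4 * (x 0 ^ 2 + x 1 ^ 2)) := by
      nlinarith [sq_nonneg (c 0 * (2 * x 1) - c 1 * (2 * x 0)), sq_nonneg (c 0 + 2 * x 0 * c 2),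
        sq_nonneg (c 1 + 2 * x 1 * c 2)]
    rw [← hn, ← hx2] at h5
    have h6 : ‖x‖ ^ 2 ≤ 1 := by nlinarith
    nlinarith [sq_nonneg ‖c‖]
  exact abs_le_of_sq_le_sq h4 (by positivity)

/-- the set swept out by `A` moving with velocity `v`, cut to `⟪c, ξ⟫ ∈ C` -/
def BS (v : ℝ × ℝ) (c : EE 3) (A : Set (ℝ × ℝ)) (C : Set ℝ) : Set (EE 3) :=
  {ξ | (ξ 0 - ξ 2 * v.1, ξ 1 - ξ 2 * v.2) ∈ A ∧ ⟪c, ξ⟫ ∈ C}

theorem BS_meas (v : ℝ × ℝ) (c : EE 3) {A : Set (ℝ × ℝ)} {C : Set ℝ} (hA : MeasurableSet A)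
    (hC : MeasurableSet C) : MeasurableSet (BS v c A C) := by
  have h1 : Measurable fun ξ : EE 3 => (ξ 0 - ξ 2 * v.1, ξ 1 - ξ 2 * v.2) := by fun_prop
  have h2 : Measurable fun ξ : EE 3 => ⟪c, ξ⟫ := by fun_prop
  exact (h1 hA).inter (h2 hC)

variable {F : Set (EE 2)} {f : EE 2 → ℂ}

/-- `X` in the estimates -/
noncomputable def XA (v : ℝ × ℝ) (A : Set (ℝ × ℝ)) : ℝ≥0∞ :=
  volume A / ENNReal.ofReal (1 + nrm ((1 / 2 : ℝ) • v))

/-- the combination of the two estimates -/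
theorem comb (h : BDen F f) (q : ℝ) (hq3 : 3 < q) (hq4 : q < 4) (a : ℝ) (ha : 0 < a)
    (ha2 : a < 1 / 2) (v : ℝ × ℝ) (c : EE 3) (hc : c ≠ 0) (s δ : ℝ)
    (hδ : 0 < δ) (hs : |s| = 1) (hF : ∀ x ∈ F, δ ≤ s * ⟪c, No x⟫) (A : Set (ℝ × ℝ))
    (hA : MeasurableSet A) (C : Set ℝ) (hC : MeasurableSet C) :
    ∫⁻ ξ in BS v c A C, ‖Ex f ξ‖ₑ ^ 2 ≤
      ENNReal.ofReal (cV (q - 3) a) ^ (2 / q) * (XA v A * volume C) ^ (1 - 2 / q) *
        (volume F / ENNReal.ofReal δ) ^ (1 - 2 / q) * volume F ^ (a * (2 / q)) := by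
  have hB := BS_meas v c hA hC
  have hq0 : 0 < q := by linarith
  have hth : 0 < 1 - 2 / q := by
    have : 2 / q < 1 := by rw [div_lt_one hq0]; linarith
    linarith
  have h2q : 0 < 2 / q := by positivity
  have P := planeV h (q - 3) (by linarith) (by linarith) a ha ha2 v A hA
  have Q := slabB h c hc s δ hδ hs hF C hC
  have e0 : ∫⁻ ξ in BS v c A C, ‖Ex f ξ‖ₑ ^ 2 =
      ∫⁻ ξ, (BS v c A C).indicator (fun ξ => ‖Ex f ξ‖ₑ ^ 2) ξ := (lintegral_indicator hB _).symm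
  have eP : ∫⁻ ξ in BS v c A C, ‖Ex f ξ‖ₑ ^ 2 ≤ ENNReal.ofReal (cV (q - 3) a) *
      (XA v A ^ ((1 + (q - 3)) / 2) * volume F ^ a) := by
    rw [e0]
    refine (lintegral_mono fun ξ => ?_).trans P
    by_cases hξ : ξ ∈ BS v c A C
    · rw [indicator_of_mem hξ, indicator_of_mem hξ.1, Pi.one_apply, one_mul]
    · rw [indicator_of_notMem hξ]
      exact zero_le
  have eQ : ∫⁻ ξ in BS v c A C, ‖Ex f ξ‖ₑ ^ 2 ≤
      volume C * (volume F / ENNReal.ofReal δ) := by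
    rw [e0]
    refine (lintegral_mono fun ξ => ?_).trans Q
    by_cases hξ : ξ ∈ BS v c A C
    · rw [indicator_of_mem hξ, indicator_of_mem hξ.2, Pi.one_apply, one_mul]
    · rw [indicator_of_notMem hξ]
      exact zero_le
  set I := ∫⁻ ξ in BS v c A C, ‖Ex f ξ‖ₑ ^ 2 with hI
  have hsplit : I = I ^ (2 / q) * I ^ (1 - 2 / q) := by
    rw [← ENNReal.rpow_add_of_nonneg _ _ h2q.le hth.le]
    simp
  rw [hsplit]
  calc I ^ (2 / q) * I ^ (1 - 2 / q)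
      ≤ (ENNReal.ofReal (cV (q - 3) a) * (XA v A ^ ((1 + (q - 3)) / 2) * volume F ^ a)) ^ (2 / q) *
        (volume C * (volume F / ENNReal.ofReal δ)) ^ (1 - 2 / q) :=
        mul_le_mul' (ENNReal.rpow_le_rpow eP h2q.le) (ENNReal.rpow_le_rpow eQ hth.le)
    _ = _ := by
        rw [ENNReal.mul_rpow_of_nonneg _ _ h2q.le, ENNReal.mul_rpow_of_nonneg _ _ h2q.le,
          ENNReal.mul_rpow_of_nonneg _ _ hth.le, ENNReal.mul_rpow_of_nonneg _ _ hth.le,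
          ← ENNReal.rpow_mul, ← ENNReal.rpow_mul,
          show (1 + (q - 3)) / 2 * (2 / q) = 1 - 2 / q by field_simp; ring]
        ring

end Pool.Agent.J6H73.TPO
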