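import Mathlib
import Pool.Agent.J6H73.TPO.P9
set_option autoImplicit false

/-! Summation over level sets and strips. -/

namespace Pool.Agent.J6H73.TPO

open MeasureTheory Set Filter Topology
open scoped ENNReal NNReal RealInnerProductSpace
open Pool.Agent.R412.RT (ee ee_norm ee_add ee_meas ee_cont Ex Ex_meas Phi inner_eq)
open Pool.Agent.R412.RS (slabE Phi_cont Nn_cont)

/-- the level of the density -/
noncomputable def kf (f : EE 2 → ℂ) (x : EE 2) : ℕ := Nat.clog 2 ⌈‖f x‖⌉₊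

theorem kf_le (f : EE 2 → ℂ) (x : EE 2) : ‖f x‖ ≤ 2 ^ kf f x := by
  have h1 : ⌈‖f x‖⌉₊ ≤ 2 ^ kf f x := Nat.le_pow_clog (by norm_num) _
  calc ‖f x‖ ≤ (⌈‖f x‖⌉₊ : ℝ) := Nat.le_ceil _
    _ ≤ ((2 ^ kf f x : ℕ) : ℝ) := by exact_mod_cast h1
    _ = _ := by push_cast; ring

theorem kf_gt (f : EE 2 → ℂ) (x : EE 2) (k : ℕ) (h : kf f x = k + 1) : (2 : ℝ) ^ k < ‖f x‖ := by
  have h0 : 1 < ⌈‖f x‖⌉₊ := by
    by_contra h1
    push Not at h1
    unfold kf at h
    rw [Nat.clog_of_right_le_one h1] at h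
    omega
  have h1 := Nat.pow_pred_clog_lt_self (b := 2) (by norm_num) h0
  have h2 : (Nat.clog 2 ⌈‖f x‖⌉₊).pred = k := by
    have : Nat.clog 2 ⌈‖f x‖⌉₊ = k + 1 := h
    rw [this]; rfl
  rw [h2] at h1
  have h3 := Nat.lt_ceil.1 h1
  push_cast at h3
  exact h3

theorem kf_meas {f : EE 2 → ℂ} (hf : Measurable f) : Measurable (kf f) := by
  unfold kf
  exact (measurable_from_top (f := fun n : ℕ => Nat.clog 2 n)).comp
    (Nat.measurable_ceil.comp hf.norm)

theorem geo_ne (c r : ℝ) (hc : 0 ≤ c) (hr0 : 0 ≤ r) (hr : r < 1) :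
    ∑' k : ℕ, ENNReal.ofReal (c * r ^ k) ≠ ∞ := by
  have h1 : Summable fun k : ℕ => c * r ^ k :=
    (summable_geometric_of_lt_one hr0 hr).mul_left c
  rw [← ENNReal.ofReal_tsum_of_nonneg (fun k => by positivity) h1]
  exact ENNReal.ofReal_ne_top

/-- the constant -/
noncomputable def Sg (p e μ : ℝ) : ℝ≥0∞ :=
  (∑' k : ℕ, ENNReal.ofReal ((4 * 2 ^ p) ^ ((1 - μ) * e) * (2 * 2 ^ (-(p * ((1 - μ) * e)))) ^ k)) *
    (2 * ∑' j : ℕ, ENNReal.ofReal (128 ^ (μ * e) * (2 ^ (-(μ * e))) ^ j))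

theorem Sg_ne (p e μ : ℝ) (he : 0 < e) (hμ : 0 < μ)
    (hpe : 1 < p * ((1 - μ) * e)) : Sg p e μ ≠ ∞ := by
  unfold Sg
  refine ENNReal.mul_ne_top (geo_ne _ _ (by positivity) (by positivity) ?_)
    (ENNReal.mul_ne_top (by norm_num) (geo_ne _ _ (by positivity) (by positivity) ?_))
  · have h1 : (2 : ℝ) * 2 ^ (-(p * ((1 - μ) * e))) = 2 ^ (1 + -(p * ((1 - μ) * e))) := by
      rw [Real.rpow_add (by norm_num), Real.rpow_one]
    rw [h1]
    exact Real.rpow_lt_one_of_one_lt_of_neg (by norm_num) (by linarith)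
  · exact Real.rpow_lt_one_of_one_lt_of_neg (by norm_num) (by have := mul_pos hμ he; linarith)

theorem L1_of {p : ℝ} (hp : 1 ≤ p) (W : Set (EE 2)) (hW : MeasurableSet W)
    (hW1 : ∀ x ∈ W, ‖x‖ < 1) (f : EE 2 → ℂ) (hf : Measurable f) (hfW : ∀ x, f x ≠ 0 → x ∈ W)
    (hfp : ∫⁻ x, ‖f x‖ₑ ^ p ≠ ∞) : Integrable f := by
  refine ⟨hf.aestronglyMeasurable, ?_⟩
  show ∫⁻ x, ‖f x‖ₑ < ∞
  have h1 : ∀ x, ‖f x‖ₑ ≤ W.indicator 1 x + ‖f x‖ₑ ^ p := by
    intro x
    by_cases hx : x ∈ W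
    · rw [indicator_of_mem hx, Pi.one_apply]
      rcases le_total ‖f x‖ₑ 1 with h | h
      · exact h.trans le_self_add
      · refine le_trans ?_ le_add_self
        calc ‖f x‖ₑ = ‖f x‖ₑ ^ (1 : ℝ) := (ENNReal.rpow_one _).symm
          _ ≤ _ := ENNReal.rpow_le_rpow_of_exponent_le h hp
    · have : f x = 0 := by
        by_contra h
        exact hx (hfW x h)
      rw [this, enorm_zero]
      exact zero_le
  refine (lintegral_mono h1).trans_lt ?_
  rw [lintegral_add_left (measurable_one.indicator hW), lintegral_indicator_one hW]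
  refine ENNReal.add_lt_top.2 ⟨?_, lt_top_iff_ne_top.2 hfp⟩
  exact (measure_mono (t := {x : EE 2 | ‖x‖ < 1}) fun x hx => hW1 x hx).trans_lt
    (disc_vol.trans_lt (by norm_num))

/-- **summation** over level sets of the density and strips -/
theorem sumG (p e μ : ℝ) (hp : 1 ≤ p) (he : 0 < e) (hμ : 0 < μ) (hμ1 : μ < 1)
    (ν : Measure (EE 3)) (G : ℝ≥0∞) (W : Set (EE 2))
    (jd : EE 2 → ℕ × Bool) (hW : MeasurableSet W) (hW1 : ∀ x ∈ W, ‖x‖ < 1)
    (hjd : Measurable jd)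
    (hvol : ∀ j : ℕ, volume {x | x ∈ W ∧ (jd x).1 = j} ≤ ENNReal.ofReal (128 * (1 / 2) ^ j))
    (hG : ∀ (F : Set (EE 2)) (g : EE 2 → ℂ), BDen F g → F ⊆ W → ∀ i, (∀ x ∈ F, jd x = i) →
      ∫⁻ ξ, ‖Ex g ξ‖ₑ ^ 2 ∂ν ≤ G * volume F ^ (2 * e))
    (f : EE 2 → ℂ) (hf : Measurable f) (hfW : ∀ x, f x ≠ 0 → x ∈ W)
    (hfp : ∫⁻ x, ‖f x‖ₑ ^ p ≤ 1) :
    ∫⁻ ξ, ‖Ex f ξ‖ₑ ^ 2 ∂ν ≤ G * Sg p e μ ^ 2 := by
  have hp0 : 0 < p := by linarith
  have hfi : Integrable f := L1_of hp W hW hW1 f hf hfW (ne_top_of_le_ne_top ENNReal.one_ne_top hfp)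
  set idx : EE 2 → ℕ × (ℕ × Bool) := fun x => (kf f x, jd x) with hidx
  have hidm : Measurable idx := (kf_meas hf).prodMk hjd
  have hidi : ∀ i, MeasurableSet {x | idx x = i} := fun i => hidm (measurableSet_singleton i)
  set uk : ℕ → ℝ := fun k => (4 * 2 ^ p) ^ ((1 - μ) * e) *
    (2 * 2 ^ (-(p * ((1 - μ) * e)))) ^ k with huk
  set wj : ℕ → ℝ := fun j => 128 ^ (μ * e) * (2 ^ (-(μ * e))) ^ j with hwj
  set b : ℕ × (ℕ × Bool) → ℝ≥0∞ := fun i => G ^ (1 / 2 : ℝ) *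
    (ENNReal.ofReal (uk i.1) * ENNReal.ofReal (wj i.2.1)) with hbdef
  have hex1 : 0 < (1 - μ) * e := mul_pos (by linarith) he
  have hex2 : 0 < μ * e := mul_pos hμ he
  have hb : ∀ i, ∫⁻ ξ, ‖Ex ({x | idx x = i}.indicator f) ξ‖ₑ ^ 2 ∂ν ≤ b i ^ 2 := by
    rintro ⟨k, j, s⟩
    set F : Set (EE 2) := {x | idx x = (k, j, s)} ∩ {x | f x ≠ 0} with hFdef
    set g : EE 2 → ℂ := fun x => ((2 : ℂ) ^ k)⁻¹ * {x | idx x = (k, j, s)}.indicator f x with hg
    have h2k : (2 : ℂ) ^ k ≠ 0 := pow_ne_zero _ two_ne_zero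
    have hFm : MeasurableSet F := (hidi _).inter (hf (measurableSet_singleton 0)).compl
    have hFW : F ⊆ W := fun x hx => hfW x hx.2
    have hgB : BDen F g := by
      refine ⟨hFm, fun x hx => hW1 x (hFW hx), measurable_const.mul (hf.indicator (hidi _)), ?_⟩
      intro x
      by_cases hx : x ∈ F
      · rw [indicator_of_mem hx, Pi.one_apply]
        show ‖((2 : ℂ) ^ k)⁻¹ * {x | idx x = (k, j, s)}.indicator f x‖ₑ ≤ 1
        rw [indicator_of_mem hx.1, ← ofReal_norm, norm_mul, norm_inv, norm_pow, Complex.norm_ofNat]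
        rw [← ENNReal.ofReal_one]
        refine ENNReal.ofReal_le_ofReal ?_
        have h1 := kf_le f x
        have h2 : kf f x = k := (Prod.ext_iff.1 hx.1).1
        rw [h2] at h1
        rw [inv_mul_le_iff₀ (by positivity), mul_one]
        exact h1
      · rw [indicator_of_notMem hx]
        have : {x | idx x = (k, j, s)}.indicator f x = 0 := by
          by_cases hx1 : x ∈ {x | idx x = (k, j, s)}
          · rw [indicator_of_mem hx1]
            by_contra h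
            exact hx ⟨hx1, h⟩
          · rw [indicator_of_notMem hx1]
        show ‖((2 : ℂ) ^ k)⁻¹ * {x | idx x = (k, j, s)}.indicator f x‖ₑ ≤ 0
        rw [this, mul_zero, enorm_zero]
    have hEx : ∀ ξ, Ex ({x | idx x = (k, j, s)}.indicator f) ξ = (2 : ℂ) ^ k * Ex g ξ := by
      intro ξ
      unfold Ex
      rw [← integral_const_mul]
      refine integral_congr_ae (Eventually.of_forall fun x => ?_)
      show ee ⟪Phi x, ξ⟫ * {x | idx x = (k, j, s)}.indicator f x = 2 ^ k * (ee ⟪Phi x, ξ⟫ *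
        (((2 : ℂ) ^ k)⁻¹ * {x | idx x = (k, j, s)}.indicator f x))
      field_simp
    have h1 : ∫⁻ ξ, ‖Ex ({x | idx x = (k, j, s)}.indicator f) ξ‖ₑ ^ 2 ∂ν =
        ENNReal.ofReal (2 ^ k) ^ 2 * ∫⁻ ξ, ‖Ex g ξ‖ₑ ^ 2 ∂ν := by
      rw [← lintegral_const_mul' _ _ (ENNReal.pow_ne_top ENNReal.ofReal_ne_top)]
      refine lintegral_congr fun ξ => ?_
      rw [hEx ξ, enorm_mul, mul_pow]
      congr 2
      rw [← ofReal_norm, norm_pow, Complex.norm_ofNat]
    have h2 := hG F g hgB hFW (j, s) fun x hx => (Prod.ext_iff.1 hx.1).2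
    -- the two bounds for the measure
    have v1 : volume F ≤ ENNReal.ofReal (128 * (1 / 2) ^ j) := by
      refine (measure_mono fun x hx => ?_).trans (hvol j)
      exact ⟨hFW hx, congrArg Prod.fst (Prod.ext_iff.1 hx.1).2⟩
    have v2 : volume F ≤ ENNReal.ofReal (4 * 2 ^ p * (2 ^ (-p)) ^ k) := by
      rcases k with _ | k
      · refine (measure_mono (t := {x : EE 2 | ‖x‖ < 1}) fun x hx => hW1 x (hFW hx)).trans
          (disc_vol.trans ?_)
        rw [show (4 : ℝ≥0∞) = ENNReal.ofReal 4 by simp, pow_zero, mul_one]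
        refine ENNReal.ofReal_le_ofReal ?_
        have : (1 : ℝ) ≤ 2 ^ p := Real.one_le_rpow (by norm_num) hp0.le
        linarith
      · have hM := mul_meas_ge_le_lintegral (μ := (volume : Measure (EE 2)))
          (f := fun x => ‖f x‖ₑ ^ p) (hf.enorm.pow_const p) (ENNReal.ofReal ((2 ^ k) ^ p))
        have hsub : volume F ≤ volume {x | ENNReal.ofReal ((2 ^ k) ^ p) ≤ ‖f x‖ₑ ^ p} := by
          refine measure_mono fun x hx => ?_
          have h3 : kf f x = k + 1 := (Prod.ext_iff.1 hx.1).1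
          have h4 := kf_gt f x k h3
          show ENNReal.ofReal ((2 ^ k) ^ p) ≤ ‖f x‖ₑ ^ p
          rw [← ENNReal.ofReal_rpow_of_nonneg (by positivity) hp0.le, ← ofReal_norm]
          exact ENNReal.rpow_le_rpow (ENNReal.ofReal_le_ofReal h4.le) hp0.le
        have h5 : ENNReal.ofReal ((2 ^ k) ^ p) * volume F ≤ 1 :=
          (mul_le_mul_right hsub _).trans (hM.trans hfp)
        have h6 : volume F ≤ (ENNReal.ofReal ((2 ^ k) ^ p))⁻¹ := by
          rw [ENNReal.le_inv_iff_mul_le, mul_comm]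
          exact h5
        refine h6.trans ?_
        rw [← ENNReal.ofReal_inv_of_pos (by positivity)]
        refine ENNReal.ofReal_le_ofReal ?_
        have h7 : ((2 : ℝ) ^ (-p)) ^ (k + 1) = (2 ^ p)⁻¹ * ((2 ^ k) ^ p)⁻¹ := by
          rw [pow_succ, Real.rpow_neg (by norm_num), mul_comm]
          congr 1
          rw [inv_pow, ← Real.rpow_natCast (2 ^ p) k, ← Real.rpow_mul (by norm_num),
            ← Real.rpow_natCast 2 k, ← Real.rpow_mul (by norm_num), mul_comm p]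
        rw [h7]
        have h8 : (0 : ℝ) < 2 ^ p := by positivity
        have h9 : (0 : ℝ) < ((2 ^ k) ^ p)⁻¹ := by positivity
        calc ((2 ^ k) ^ p)⁻¹ ≤ 4 * (((2 : ℝ) ^ k) ^ p)⁻¹ := by linarith
          _ = _ := by field_simp
    have v3 : volume F ^ (2 * e) ≤ ENNReal.ofReal ((4 * 2 ^ p * (2 ^ (-p)) ^ k) ^ ((1 - μ) * e)) ^ 2 *
        ENNReal.ofReal ((128 * (1 / 2) ^ j) ^ (μ * e)) ^ 2 := by
      have h3 : volume F ^ (2 * e) = (volume F ^ ((1 - μ) * e)) ^ 2 * (volume F ^ (μ * e)) ^ 2 := by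
        rw [← ENNReal.rpow_natCast, ← ENNReal.rpow_natCast, ← ENNReal.rpow_mul, ← ENNReal.rpow_mul,
          ← ENNReal.rpow_add_of_nonneg _ _ (by positivity) (by positivity)]
        congr 1
        push_cast
        ring
      rw [h3]
      have h4 : volume F ^ ((1 - μ) * e) ≤
          ENNReal.ofReal ((4 * 2 ^ p * (2 ^ (-p)) ^ k) ^ ((1 - μ) * e)) := by
        rw [← ENNReal.ofReal_rpow_of_nonneg (by positivity) hex1.le]
        exact ENNReal.rpow_le_rpow v2 hex1.le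
      have h5 : volume F ^ (μ * e) ≤ ENNReal.ofReal ((128 * (1 / 2) ^ j) ^ (μ * e)) := by
        rw [← ENNReal.ofReal_rpow_of_nonneg (by positivity) hex2.le]
        exact ENNReal.rpow_le_rpow v1 hex2.le
      gcongr
    rw [h1]
    refine (mul_le_mul_right (h2.trans (mul_le_mul_right v3 G)) _).trans (le_of_eq ?_)
    show _ = (G ^ (1 / 2 : ℝ) * (ENNReal.ofReal (uk k) * ENNReal.ofReal (wj j))) ^ 2
    have e1 : uk k = 2 ^ k * (4 * 2 ^ p * (2 ^ (-p)) ^ k) ^ ((1 - μ) * e) := by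
      rw [huk]
      simp only
      have h3 : (((2 : ℝ) ^ (-p)) ^ k) ^ ((1 - μ) * e) = (2 ^ (-(p * ((1 - μ) * e)))) ^ k := by
        rw [← Real.rpow_natCast (2 ^ (-p)) k, ← Real.rpow_mul zero_le_two,
          ← Real.rpow_mul zero_le_two, ← Real.rpow_natCast (2 ^ (-(p * ((1 - μ) * e)))) k,
          ← Real.rpow_mul zero_le_two]
        congr 1
        ring
      rw [Real.mul_rpow (x := 4 * 2 ^ p) (by positivity) (by positivity), h3, mul_pow]
      ring
    have e2 : wj j = (128 * (1 / 2) ^ j) ^ (μ * e) := by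
      rw [hwj]
      simp only
      have h3 : (((1 : ℝ) / 2) ^ j) ^ (μ * e) = (2 ^ (-(μ * e))) ^ j := by
        rw [one_div, inv_pow, ← Real.rpow_natCast 2 j, ← Real.rpow_neg zero_le_two,
          ← Real.rpow_mul zero_le_two, ← Real.rpow_natCast (2 ^ (-(μ * e))) j,
          ← Real.rpow_mul zero_le_two]
        congr 1
        ring
      rw [Real.mul_rpow (x := 128) (by positivity) (by positivity), h3]
    have e3 : (G ^ (1 / 2 : ℝ)) ^ 2 = G := by
      rw [← ENNReal.rpow_natCast, ← ENNReal.rpow_mul]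
      norm_num
    rw [mul_pow, mul_pow, e3, e1, e2, ENNReal.ofReal_mul (by positivity), mul_pow]
    ring
  refine (pieces ν f hfi hf idx hidi b hb).trans (le_of_eq ?_)
  have hsum : ∑' i, b i = G ^ (1 / 2 : ℝ) * Sg p e μ := by
    rw [hbdef, ENNReal.tsum_mul_left]
    congr 1
    unfold Sg
    rw [ENNReal.tsum_prod', ← ENNReal.tsum_mul_right]
    refine tsum_congr fun k => ?_
    show ∑' c : ℕ × Bool, ENNReal.ofReal (uk k) * ENNReal.ofReal (wj c.1) = _
    rw [ENNReal.tsum_mul_left]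
    congr 1
    rw [ENNReal.tsum_prod', ← ENNReal.tsum_mul_left]
    refine tsum_congr fun j => ?_
    rw [tsum_fintype]
    simp only [Finset.sum_const, Finset.card_univ, Fintype.card_bool, nsmul_eq_mul]
    norm_num
    rfl
  rw [hsum, mul_pow, ← ENNReal.rpow_natCast (G ^ (1 / 2 : ℝ)), ← ENNReal.rpow_mul]
  norm_num

end Pool.Agent.J6H73.TPO
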