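import Mathlib
import Pool.Agent.J6H73.TPO.P10
set_option autoImplicit false

/-! The two estimates for normalised densities. -/

namespace Pool.Agent.J6H73.TPO

open MeasureTheory Set Filter Topology
open scoped ENNReal NNReal RealInnerProductSpace
open Pool.Agent.R412.RT (ee ee_norm ee_add ee_meas ee_cont Ex Ex_meas Phi inner_eq)
open Pool.Agent.R412.RS (slabE Phi_cont Nn_cont)

theorem J_cont (c : EE 3) : Continuous fun x : EE 2 => ⟪c, No x⟫ :=
  continuous_const.inner Nn_cont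

theorem Ex_congr {f g : EE 2 → ℂ} (h : f =ᵐ[volume] g) : Ex f = Ex g := by
  ext ξ
  unfold Ex
  refine integral_congr_ae ?_
  filter_upwards [h] with x hx
  rw [hx]

/-- strips and sign -/
noncomputable def jd1 (c : EE 3) (x : EE 2) : ℕ × Bool :=
  (Nat.clog 2 ⌈4 * ‖c‖ / |⟪c, No x⟫|⌉₊, decide (0 < ⟪c, No x⟫))

/-- sign -/
noncomputable def sgn' (b : Bool) : ℝ := if b then 1 else -1

theorem sgn'_abs (b : Bool) : |sgn' b| = 1 := by
  unfold sgn'
  cases b <;> simp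

theorem dec_meas (c : EE 3) : Measurable fun x : EE 2 => decide (0 < ⟪c, No x⟫) := by
  refine measurable_to_bool ?_
  have : (fun x : EE 2 => decide (0 < ⟪c, No x⟫)) ⁻¹' {true} = {x | 0 < ⟪c, No x⟫} := by
    ext x
    simp
  rw [this]
  exact measurableSet_lt measurable_const (J_cont c).measurable

theorem sgn'_mul {t : ℝ} (b : Bool) (h : decide (0 < t) = b) : sgn' b * t = |t| := by
  subst h
  unfold sgn'
  by_cases h1 : 0 < t
  · simp [h1, abs_of_pos h1]
  · simp [h1, abs_of_nonpos (not_lt.1 h1)]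

theorem jd1_meas (c : EE 3) : Measurable (jd1 c) := by
  unfold jd1
  refine Measurable.prodMk ?_ (dec_meas c)
  refine (measurable_from_top (f := fun n : ℕ => Nat.clog 2 n)).comp
    (Nat.measurable_ceil.comp ?_)
  exact measurable_const.div (J_cont c).measurable.abs

theorem clog_le (y : ℝ) (j : ℕ) (h : Nat.clog 2 ⌈y⌉₊ = j) : y ≤ 2 ^ j := by
  have h1 : ⌈y⌉₊ ≤ 2 ^ j := by
    rw [← h]
    exact Nat.le_pow_clog (by norm_num) _
  calc y ≤ (⌈y⌉₊ : ℝ) := Nat.le_ceil _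
    _ ≤ ((2 ^ j : ℕ) : ℝ) := by exact_mod_cast h1
    _ = _ := by push_cast; ring

theorem clog_gt (y : ℝ) (k : ℕ) (h : Nat.clog 2 ⌈y⌉₊ = k + 1) : (2 : ℝ) ^ k < y := by
  have h0 : 1 < ⌈y⌉₊ := by
    by_contra h1
    push Not at h1
    rw [Nat.clog_of_right_le_one h1] at h
    omega
  have h1 := Nat.pow_pred_clog_lt_self (b := 2) (by norm_num) h0
  have h2 : (Nat.clog 2 ⌈y⌉₊).pred = k := by
    rw [h]; rfl
  rw [h2] at h1
  have h3 := Nat.lt_ceil.1 h1
  push_cast at h3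
  exact h3

/-- the region without the zero set -/
def W1 (c : EE 3) : Set (EE 2) := {x | ‖x‖ < 1 ∧ ⟪c, No x⟫ ≠ 0}

theorem W1_meas (c : EE 3) : MeasurableSet (W1 c) := by
  refine (measurableSet_lt measurable_norm measurable_const).inter ?_
  exact ((J_cont c).measurable (measurableSet_singleton 0)).compl

theorem ofReal_128 : (4 : ℝ≥0∞) ≤ ENNReal.ofReal 128 := by
  rw [show (4 : ℝ≥0∞) = ENNReal.ofReal 4 by simp]
  exact ENNReal.ofReal_le_ofReal (by norm_num)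

theorem jd1_vol (c : EE 3) (hc : c ≠ 0) (j : ℕ) :
    volume {x | x ∈ W1 c ∧ (jd1 c x).1 = j} ≤ ENNReal.ofReal (128 * (1 / 2) ^ j) := by
  rcases j with _ | j
  · rw [pow_zero, mul_one]
    exact (measure_mono (t := {x : EE 2 | ‖x‖ < 1}) fun x hx => hx.1.1).trans
      (disc_vol.trans ofReal_128)
  · refine (measure_mono (t := {x : EE 2 | ‖x‖ < 1 ∧ |⟪c, No x⟫| ≤
      (8 * (1 / 2) ^ (j + 1)) * ‖c‖}) fun x hx => ?_).trans ?_
    · refine ⟨hx.1.1, ?_⟩
      have h1 := clog_gt _ _ hx.2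
      have h2 : 0 < |⟪c, No x⟫| := abs_pos.2 hx.1.2
      rw [lt_div_iff₀ h2] at h1
      have h3 : (0 : ℝ) < 2 ^ j := by positivity
      rw [pow_succ, one_div, inv_pow]
      have h4 : |⟪c, No x⟫| < 4 * ‖c‖ * (2 ^ j)⁻¹ := by
        rw [← div_eq_mul_inv, lt_div_iff₀ h3]
        linarith
      have h5 : 8 * (((2 : ℝ) ^ j)⁻¹ * 2⁻¹) * ‖c‖ = 4 * ‖c‖ * (2 ^ j)⁻¹ := by ring
      rw [h5]
      exact h4.le
    · refine (strip c hc _ (by positivity)).trans (le_of_eq ?_)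
      congr 1
      ring

theorem W1_ae (c : EE 3) (hc : c ≠ 0) (f : EE 2 → ℂ) (hf : ∀ x, f x ≠ 0 → ‖x‖ < 1) :
    (W1 c).indicator f =ᵐ[volume] f := by
  have h1 := strip c hc 0 le_rfl
  rw [mul_zero, ENNReal.ofReal_zero, nonpos_iff_eq_zero] at h1
  have h2 : ∀ᵐ x ∂(volume : Measure (EE 2)), ¬(‖x‖ < 1 ∧ |⟪c, No x⟫| ≤ 0 * ‖c‖) := by
    rw [ae_iff]
    simpa using h1
  filter_upwards [h2] with x hx
  by_cases hx1 : x ∈ W1 c
  · rw [indicator_of_mem hx1]
  · rw [indicator_of_notMem hx1]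
    by_contra hne
    have h3 : ‖x‖ < 1 := hf x fun h => hne h.symm
    refine hx ⟨h3, ?_⟩
    have h4 : ⟪c, No x⟫ = 0 := by
      by_contra h5
      exact hx1 ⟨h3, h5⟩
    rw [h4]
    simp

/-- **the estimate for all directions**, normalised densities -/
theorem main1 (q : ℝ) (hq3 : 3 < q) (hq4 : q < 4) (p : ℝ) (hp : 2 * q < p) :
    ∃ K : ℝ≥0, ∀ (v : ℝ × ℝ) (c : EE 3) (A : Set (ℝ × ℝ)) (C : Set ℝ) (f : EE 2 → ℂ),
      c ≠ 0 → MeasurableSet A → MeasurableSet C → Measurable f → (∀ x, f x ≠ 0 → ‖x‖ < 1) →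
      ∫⁻ x, ‖f x‖ₑ ^ p ≤ 1 →
      ∫⁻ ξ in BS v c A C, ‖Ex f ξ‖ₑ ^ 2 ≤
        K * (XA v A * volume C / ENNReal.ofReal ‖c‖) ^ (1 - 2 / q) := by
  have hq0 : 0 < q := by linarith
  have hp0 : 0 < p := by linarith
  have hth : 0 < 1 - 2 / q := by
    have : 2 / q < 1 := by rw [div_lt_one hq0]; linarith
    linarith
  set s : ℝ := 2 * q / p with hs
  have hs0 : 0 < s := by positivity
  have hs1 : s < 1 := by rw [hs, div_lt_one hp0]; exact hp
  set a : ℝ := (1 + s) / 4 with ha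
  set μ : ℝ := (1 - s) / 2 with hμ
  have ha0 : 0 < a := by positivity
  have ha2 : a < 1 / 2 := by rw [ha]; linarith
  have hμ0 : 0 < μ := by rw [hμ]; linarith
  have hμ1 : μ < 1 := by rw [hμ]; linarith
  have he0 : 0 < a / q := by positivity
  have hpe : 1 < p * ((1 - μ) * (a / q)) := by
    have h1 : p * ((1 - μ) * (a / q)) = ((1 + s) / 2) ^ 2 / s := by
      rw [hμ, ha, hs]
      field_simp
      ring
    rw [h1, lt_div_iff₀ hs0]
    nlinarith [sq_pos_of_pos (sub_pos.2 hs1)]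
  set K1 : ℝ≥0∞ := ENNReal.ofReal (cV (q - 3) a) ^ (2 / q) * 32 ^ (1 - 2 / q) *
    Sg p (a / q) μ ^ 2 with hK1
  have hK1t : K1 ≠ ∞ := by
    rw [hK1]
    refine ENNReal.mul_ne_top (ENNReal.mul_ne_top ?_ ?_) (ENNReal.pow_ne_top (Sg_ne _ _ _ he0 hμ0 hpe))
    · exact ENNReal.rpow_ne_top_of_nonneg (by positivity) ENNReal.ofReal_ne_top
    · exact ENNReal.rpow_ne_top_of_nonneg hth.le (by norm_num)
  refine ⟨K1.toNNReal, ?_⟩
  rw [ENNReal.coe_toNNReal hK1t]
  intro v c A C f hc hA hC hf hfs hfp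
  have hc0 : 0 < ‖c‖ := norm_pos_iff.2 hc
  have hae := W1_ae c hc f hfs
  rw [← Ex_congr hae]
  have hfp' : ∫⁻ x, ‖(W1 c).indicator f x‖ₑ ^ p ≤ 1 := by
    refine le_trans (le_of_eq ?_) hfp
    refine lintegral_congr_ae ?_
    filter_upwards [hae] with x hx
    rw [hx]
  set G : ℝ≥0∞ := ENNReal.ofReal (cV (q - 3) a) ^ (2 / q) * (XA v A * volume C) ^ (1 - 2 / q) *
    (32 / ENNReal.ofReal ‖c‖) ^ (1 - 2 / q) with hG
  have hmain := sumG p (a / q) μ (by linarith) he0 hμ0 hμ1 (volume.restrict (BS v c A C)) G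
    (W1 c) (jd1 c) (W1_meas c) (fun x hx => hx.1) (jd1_meas c) (jd1_vol c hc) (by
      intro F g hg hFW i hi
      obtain ⟨j, b⟩ := i
      have hδ : 0 < 4 * ‖c‖ * (1 / 2) ^ j := by positivity
      have hF : ∀ x ∈ F, 4 * ‖c‖ * (1 / 2) ^ j ≤ sgn' b * ⟪c, No x⟫ := by
        intro x hx
        have h1 := Prod.ext_iff.1 (hi x hx)
        rw [sgn'_mul b h1.2]
        have h2 := clog_le _ _ h1.1
        have h3 : 0 < |⟪c, No x⟫| := abs_pos.2 (hFW hx).2
        rw [div_le_iff₀ h3] at h2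
        rw [one_div, inv_pow, ← div_eq_mul_inv, div_le_iff₀ (by positivity)]
        linarith
      refine (comb hg q hq3 hq4 a ha0 ha2 v c hc (sgn' b) _ hδ (sgn'_abs b) hF A hA C hC).trans ?_
      have hv : volume F ≤ ENNReal.ofReal (128 * (1 / 2) ^ j) := by
        refine (measure_mono fun x hx => ?_).trans (jd1_vol c hc j)
        exact ⟨hFW hx, (Prod.ext_iff.1 (hi x hx)).1⟩
      have h1 : volume F / ENNReal.ofReal (4 * ‖c‖ * (1 / 2) ^ j) ≤ 32 / ENNReal.ofReal ‖c‖ := by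
        calc volume F / ENNReal.ofReal (4 * ‖c‖ * (1 / 2) ^ j)
            ≤ ENNReal.ofReal (128 * (1 / 2) ^ j) / ENNReal.ofReal (4 * ‖c‖ * (1 / 2) ^ j) :=
              ENNReal.div_le_div_right hv _
          _ = ENNReal.ofReal 32 / ENNReal.ofReal ‖c‖ := by
              rw [← ENNReal.ofReal_div_of_pos hδ, ← ENNReal.ofReal_div_of_pos hc0]
              congr 1
              have : ((1 : ℝ) / 2) ^ j ≠ 0 := by positivity
              field_simp
              norm_num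
          _ = _ := by norm_num
      have h2 : 2 * (a / q) = a * (2 / q) := by ring
      rw [hG, h2]
      exact mul_le_mul_left (mul_le_mul_right (ENNReal.rpow_le_rpow h1 hth.le) _) _)
    ((W1 c).indicator f) (hf.indicator (W1_meas c)) (fun x hx => by
      by_contra h
      exact hx (indicator_of_notMem h _)) hfp'
  refine hmain.trans (le_of_eq ?_)
  rw [hG, hK1, div_eq_mul_inv (32 : ℝ≥0∞), div_eq_mul_inv (XA v A * volume C),
    ENNReal.mul_rpow_of_nonneg 32 _ hth.le,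
    ENNReal.mul_rpow_of_nonneg (XA v A * volume C) (ENNReal.ofReal ‖c‖)⁻¹ hth.le]
  ring

/-- the region where the normal component is bounded below -/
def W2 (κ : ℝ) (c : EE 3) : Set (EE 2) := {x | ‖x‖ < 1 ∧ κ * ‖c‖ ≤ |⟪c, No x⟫|}

theorem W2_meas (κ : ℝ) (c : EE 3) : MeasurableSet (W2 κ c) :=
  (measurableSet_lt measurable_norm measurable_const).inter
    (measurableSet_le measurable_const (J_cont c).measurable.abs)

/-- **the estimate for transversal directions**, normalised densities -/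
theorem main2 (q : ℝ) (hq3 : 3 < q) (hq4 : q < 4) (p : ℝ) (hp1 : 1 ≤ p)
    (hp : 2 * q < p * (q - 1)) (κ : ℝ) (hκ : 0 < κ) :
    ∃ K : ℝ≥0, ∀ (v : ℝ × ℝ) (c : EE 3) (A : Set (ℝ × ℝ)) (C : Set ℝ) (f : EE 2 → ℂ),
      c ≠ 0 → MeasurableSet A → MeasurableSet C → Measurable f →
      (∀ x, f x ≠ 0 → ‖x‖ < 1 ∧ κ * ‖c‖ ≤ |⟪c, No x⟫|) →
      ∫⁻ x, ‖f x‖ₑ ^ p ≤ 1 →
      ∫⁻ ξ in BS v c A C, ‖Ex f ξ‖ₑ ^ 2 ≤
        K * (XA v A * volume C / ENNReal.ofReal ‖c‖) ^ (1 - 2 / q) := by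
  have hq0 : 0 < q := by linarith
  have hq1 : 0 < q - 1 := by linarith
  have hp0 : 0 < p := by linarith
  have hth : 0 < 1 - 2 / q := by
    have : 2 / q < 1 := by rw [div_lt_one hq0]; linarith
    linarith
  set s : ℝ := 2 * q / (p * (q - 1)) with hs
  have hs0 : 0 < s := by positivity
  have hs1 : s < 1 := by rw [hs, div_lt_one (by positivity)]; exact hp
  set a : ℝ := (1 + s) / 4 with ha
  set μ : ℝ := (1 - s) / 2 with hμ
  have ha0 : 0 < a := by positivity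
  have ha2 : a < 1 / 2 := by rw [ha]; linarith
  have hμ0 : 0 < μ := by rw [hμ]; linarith
  have hμ1 : μ < 1 := by rw [hμ]; linarith
  set e : ℝ := (1 - 2 / q + a * (2 / q)) / 2 with he
  have he0 : 0 < e := by
    rw [he]
    have : 0 < a * (2 / q) := by positivity
    linarith
  have hpe : 1 < p * ((1 - μ) * e) := by
    have h1 : (1 + s) / 2 * ((q - 1) / (2 * q)) ≤ e := by
      have h2 : e - (1 + s) / 2 * ((q - 1) / (2 * q)) = (1 - s) * (q - 2) / (4 * q) := by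
        rw [he, ha]
        field_simp
        ring
      have h3 : 0 ≤ (1 - s) * (q - 2) / (4 * q) := by
        have : 0 < (1 - s) * (q - 2) := mul_pos (by linarith) (by linarith)
        positivity
      linarith
    have h4 : p * ((1 - μ) * ((1 + s) / 2 * ((q - 1) / (2 * q)))) = ((1 + s) / 2) ^ 2 / s := by
      rw [hμ, hs]
      field_simp
      ring
    have h5 : 1 < ((1 + s) / 2) ^ 2 / s := by
      rw [lt_div_iff₀ hs0]
      nlinarith [sq_pos_of_pos (sub_pos.2 hs1)]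
    rw [← h4] at h5
    refine h5.trans_le (mul_le_mul_of_nonneg_left (mul_le_mul_of_nonneg_left h1 ?_) hp0.le)
    linarith
  set K1 : ℝ≥0∞ := ENNReal.ofReal (cV (q - 3) a) ^ (2 / q) *
    (ENNReal.ofReal κ)⁻¹ ^ (1 - 2 / q) * Sg p e μ ^ 2 with hK1
  have hκe : ENNReal.ofReal κ ≠ 0 := by
    rw [Ne, ENNReal.ofReal_eq_zero, not_le]; exact hκ
  have hK1t : K1 ≠ ∞ := by
    rw [hK1]
    refine ENNReal.mul_ne_top (ENNReal.mul_ne_top ?_ ?_) (ENNReal.pow_ne_top (Sg_ne _ _ _ he0 hμ0 hpe))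
    · exact ENNReal.rpow_ne_top_of_nonneg (by positivity) ENNReal.ofReal_ne_top
    · exact ENNReal.rpow_ne_top_of_nonneg hth.le (ENNReal.inv_ne_top.2 hκe)
  refine ⟨K1.toNNReal, ?_⟩
  rw [ENNReal.coe_toNNReal hK1t]
  intro v c A C f hc hA hC hf hfs hfp
  have hc0 : 0 < ‖c‖ := norm_pos_iff.2 hc
  set G : ℝ≥0∞ := ENNReal.ofReal (cV (q - 3) a) ^ (2 / q) * (XA v A * volume C) ^ (1 - 2 / q) *
    ((ENNReal.ofReal (κ * ‖c‖))⁻¹) ^ (1 - 2 / q) with hG
  have hmain := sumG p e μ hp1 he0 hμ0 hμ1 (volume.restrict (BS v c A C)) G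
    (W2 κ c) (fun x => (0, decide (0 < ⟪c, No x⟫))) (W2_meas κ c) (fun x hx => hx.1)
    (measurable_const.prodMk (dec_meas c)) (by
      intro j
      rcases j with _ | j
      · rw [pow_zero, mul_one]
        exact (measure_mono (t := {x : EE 2 | ‖x‖ < 1}) fun x hx => hx.1.1).trans
          (disc_vol.trans ofReal_128)
      · have : {x : EE 2 | x ∈ W2 κ c ∧ 0 = j + 1} = ∅ := by
          rw [Set.eq_empty_iff_forall_notMem]
          rintro x ⟨_, h⟩
          omega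
        show volume {x : EE 2 | x ∈ W2 κ c ∧ 0 = j + 1} ≤ _
        rw [this, measure_empty]
        exact zero_le) (by
      intro F g hg hFW i hi
      obtain ⟨j, b⟩ := i
      have hδ : 0 < κ * ‖c‖ := by positivity
      have hF : ∀ x ∈ F, κ * ‖c‖ ≤ sgn' b * ⟪c, No x⟫ := by
        intro x hx
        have h1 := Prod.ext_iff.1 (hi x hx)
        rw [sgn'_mul b h1.2]
        exact (hFW hx).2
      refine (comb hg q hq3 hq4 a ha0 ha2 v c hc (sgn' b) _ hδ (sgn'_abs b) hF A hA C hC).trans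
        (le_of_eq ?_)
      have h2 : 2 * e = (1 - 2 / q) + a * (2 / q) := by rw [he]; ring
      rw [hG, h2, ENNReal.rpow_add_of_nonneg _ _ hth.le (by positivity),
        div_eq_mul_inv (volume F), ENNReal.mul_rpow_of_nonneg (volume F) _ hth.le]
      ring)
    f hf (fun x hx => hfs x hx) hfp
  refine hmain.trans (le_of_eq ?_)
  rw [hG, hK1, div_eq_mul_inv (XA v A * volume C),
    ENNReal.mul_rpow_of_nonneg (XA v A * volume C) (ENNReal.ofReal ‖c‖)⁻¹ hth.le,
    ENNReal.ofReal_mul hκ.le,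
    ENNReal.mul_inv (Or.inl hκe) (Or.inl ENNReal.ofReal_ne_top),
    ENNReal.mul_rpow_of_nonneg (ENNReal.ofReal κ)⁻¹ _ hth.le]
  ring

end Pool.Agent.J6H73.TPO
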