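import Mathlib
import Pool.Agent.J6H73.TPO.P11
set_option autoImplicit false

/-! Removing the normalisation, and the volume of the sets. -/

namespace Pool.Agent.J6H73.TPO

open MeasureTheory Set Filter Topology
open scoped ENNReal NNReal RealInnerProductSpace
open Pool.Agent.R412.RT (ee ee_norm ee_add ee_meas ee_cont Ex Ex_meas Phi inner_eq)
open Pool.Agent.R412.RS (slabE Phi_cont Nn_cont)

theorem Ex_zero : Ex (fun _ : EE 2 => (0 : ℂ)) = fun _ => 0 := by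
  ext ξ
  unfold Ex
  simp

/-- removing the normalisation -/
theorem homog (ν : Measure (EE 3)) (K : ℝ≥0∞) (p : ℝ) (hp : 0 < p) (P : EE 2 → Prop)
    (h : ∀ f : EE 2 → ℂ, Measurable f → (∀ x, f x ≠ 0 → P x) → ∫⁻ x, ‖f x‖ₑ ^ p ≤ 1 →
      ∫⁻ ξ, ‖Ex f ξ‖ₑ ^ 2 ∂ν ≤ K)
    (f : EE 2 → ℂ) (hf : Measurable f) (hP : ∀ x, f x ≠ 0 → P x)
    (hfp : ∫⁻ x, ‖f x‖ₑ ^ p ≠ ∞) :
    ∫⁻ ξ, ‖Ex f ξ‖ₑ ^ 2 ∂ν ≤ K * ((∫⁻ x, ‖f x‖ₑ ^ p) ^ (1 / p)) ^ 2 := by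
  set I := ∫⁻ x, ‖f x‖ₑ ^ p with hI
  by_cases h0 : I = 0
  · have h1 : f =ᵐ[volume] fun _ => 0 := by
      have h2 := (lintegral_eq_zero_iff (hf.enorm.pow_const p)).1 h0
      filter_upwards [h2] with x hx
      have h3 : ‖f x‖ₑ ^ p = 0 := hx
      rw [ENNReal.rpow_eq_zero_iff_of_pos hp, enorm_eq_zero] at h3
      exact h3
    rw [Ex_congr h1, Ex_zero]
    simp
  · set N := I ^ (1 / p) with hN
    have hp1 : 0 < 1 / p := by positivity
    have hN0 : N ≠ 0 := by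
      rw [hN, Ne, ENNReal.rpow_eq_zero_iff_of_pos hp1]
      exact h0
    have hNt : N ≠ ∞ := ENNReal.rpow_ne_top_of_nonneg hp1.le hfp
    have hr : 0 < N.toReal := ENNReal.toReal_pos hN0 hNt
    have hrN : ENNReal.ofReal N.toReal = N := ENNReal.ofReal_toReal hNt
    set r := N.toReal with hrdef
    have hrc : (r : ℂ) ≠ 0 := by exact_mod_cast hr.ne'
    have hrn : ‖(r : ℂ)‖ₑ = N := by
      rw [← ofReal_norm, Complex.norm_real, Real.norm_of_nonneg hr.le, hrN]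
    have hrn' : ‖((r : ℂ))⁻¹‖ₑ = N⁻¹ := by
      rw [← ofReal_norm, norm_inv, Complex.norm_real, Real.norm_of_nonneg hr.le,
        ENNReal.ofReal_inv_of_pos hr, hrN]
    have hg : ∫⁻ x, ‖(r : ℂ)⁻¹ * f x‖ₑ ^ p ≤ 1 := by
      have e1 : ∀ x, ‖(r : ℂ)⁻¹ * f x‖ₑ ^ p = N⁻¹ ^ p * ‖f x‖ₑ ^ p := by
        intro x
        rw [enorm_mul, hrn', ENNReal.mul_rpow_of_nonneg _ _ hp.le]
      simp_rw [e1]
      rw [lintegral_const_mul' _ _ (ENNReal.rpow_ne_top_of_nonneg hp.le (ENNReal.inv_ne_top.2 hN0)),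
        ← hI]
      have e2 : I = N ^ p := by
        rw [hN, ← ENNReal.rpow_mul, one_div, inv_mul_cancel₀ hp.ne', ENNReal.rpow_one]
      rw [e2, ← ENNReal.mul_rpow_of_nonneg _ _ hp.le, ENNReal.inv_mul_cancel hN0 hNt,
        ENNReal.one_rpow]
    have hEx : ∀ ξ, Ex f ξ = r * Ex (fun x => (r : ℂ)⁻¹ * f x) ξ := by
      intro ξ
      unfold Ex
      rw [← integral_const_mul]
      refine integral_congr_ae (Eventually.of_forall fun x => ?_)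
      show ee ⟪Phi x, ξ⟫ * f x = (r : ℂ) * (ee ⟪Phi x, ξ⟫ * ((r : ℂ)⁻¹ * f x))
      field_simp
    have h3 := h (fun x => (r : ℂ)⁻¹ * f x) (measurable_const.mul hf) (fun x hx => hP x
      fun h0 => hx (by rw [h0, mul_zero])) hg
    calc ∫⁻ ξ, ‖Ex f ξ‖ₑ ^ 2 ∂ν
        = N ^ 2 * ∫⁻ ξ, ‖Ex (fun x => (r : ℂ)⁻¹ * f x) ξ‖ₑ ^ 2 ∂ν := by
          rw [← lintegral_const_mul' _ _ (ENNReal.pow_ne_top hNt)]
          refine lintegral_congr fun ξ => ?_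
          rw [hEx ξ, enorm_mul, hrn, mul_pow]
      _ ≤ N ^ 2 * K := mul_le_mul_right h3 _
      _ = _ := mul_comm _ _

theorem half_vol {U : Set (EE 2)} (hU : U ⊆ Metric.ball 0 (1 / 2)) : volume U ≤ 1 := by
  have h1 : U ⊆ T2 ⁻¹' (Ioo (-(1 / 2) : ℝ) (1 / 2) ×ˢ Ioo (-(1 / 2) : ℝ) (1 / 2)) := by
    intro x hx
    have h0 := hU hx
    rw [Metric.mem_ball, dist_zero_right] at h0
    have h2 := norm_sq2 x
    have h3 := norm_nonneg x
    have h4 : ‖x‖ ^ 2 < (1 / 2) ^ 2 := by nlinarith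
    have h5 : x 0 ^ 2 < (1 / 2) ^ 2 := by nlinarith [sq_nonneg (x 1)]
    have h6 : x 1 ^ 2 < (1 / 2) ^ 2 := by nlinarith [sq_nonneg (x 0)]
    rw [mem_preimage, T2_apply]
    exact ⟨abs_lt.1 (abs_lt_of_sq_lt_sq h5 (by norm_num)),
      abs_lt.1 (abs_lt_of_sq_lt_sq h6 (by norm_num))⟩
  refine (measure_mono h1).trans ?_
  rw [T2_mp.measure_preimage (measurableSet_Ioo.prod measurableSet_Ioo).nullMeasurableSet,
    Measure.volume_eq_prod, Measure.prod_prod, Real.volume_Ioo, ← ENNReal.ofReal_mul (by norm_num),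
    ← ENNReal.ofReal_one]
  exact ENNReal.ofReal_le_ofReal (by norm_num)

/-- a nice representative -/
theorem rep2 (U : Set (EE 2)) (hU : MeasurableSet U) (f : EE 2 → ℂ) (p : ℝ) (hp : 0 < p)
    (hf : AEStronglyMeasurable f (volume.restrict U)) :
    ∃ g : EE 2 → ℂ, Measurable g ∧ (∀ x, g x ≠ 0 → x ∈ U) ∧ Ex (U.indicator f) = Ex g ∧
      (∫⁻ x, ‖g x‖ₑ ^ p) ^ (1 / p) = eLpNorm f (ENNReal.ofReal p) (volume.restrict U) := by
  obtain ⟨f0, hf0, hff⟩ := hf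
  refine ⟨U.indicator f0, hf0.measurable.indicator hU, ?_, ?_, ?_⟩
  · intro x hx
    by_contra h
    exact hx (indicator_of_notMem h _)
  · refine Ex_congr ?_
    rw [EventuallyEq, ae_restrict_iff' hU] at hff
    filter_upwards [hff] with x hx
    by_cases hxU : x ∈ U
    · rw [indicator_of_mem hxU, indicator_of_mem hxU, hx hxU]
    · rw [indicator_of_notMem hxU, indicator_of_notMem hxU]
  · rw [eLpNorm_congr_ae hff, eLpNorm_eq_lintegral_rpow_enorm_toReal (by simpa using hp)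
      ENNReal.ofReal_ne_top, ENNReal.toReal_ofReal hp.le, ← lintegral_indicator hU]
    congr 1
    refine lintegral_congr fun x => ?_
    by_cases hxU : x ∈ U
    · rw [indicator_of_mem hxU, indicator_of_mem hxU]
    · rw [indicator_of_notMem hxU, indicator_of_notMem hxU, enorm_zero,
        ENNReal.zero_rpow_of_pos hp]

/-- from normalised densities to general ones -/
theorem unnorm (ν : Measure (EE 3)) (K : ℝ≥0∞) (p₀ : ℝ) (hp : 0 < p₀) (p : ℝ≥0∞)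
    (hpp : ENNReal.ofReal p₀ ≤ p) (P : EE 2 → Prop)
    (h : ∀ f : EE 2 → ℂ, Measurable f → (∀ x, f x ≠ 0 → P x) → ∫⁻ x, ‖f x‖ₑ ^ p₀ ≤ 1 →
      ∫⁻ ξ, ‖Ex f ξ‖ₑ ^ 2 ∂ν ≤ K) (U : Set (EE 2)) (hU : MeasurableSet U)
    (hUb : U ⊆ Metric.ball 0 (1 / 2)) (hUP : ∀ x ∈ U, P x) (f : EE 2 → ℂ)
    (hf : MemLp f p (volume.restrict U)) :
    ∫⁻ ξ, ‖Ex (U.indicator f) ξ‖ₑ ^ 2 ∂ν ≤ K * eLpNorm f p (volume.restrict U) ^ 2 := by
  obtain ⟨g, hg, hgU, hgE, hgn⟩ := rep2 U hU f p₀ hp hf.1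
  have h1 : eLpNorm f (ENNReal.ofReal p₀) (volume.restrict U) ≤
      eLpNorm f p (volume.restrict U) := by
    refine (eLpNorm_le_eLpNorm_mul_rpow_measure_univ hpp hf.1).trans ?_
    refine mul_le_of_le_one_right zero_le ?_
    rw [Measure.restrict_apply_univ]
    refine ENNReal.rpow_le_one (half_vol hUb) ?_
    rw [ENNReal.toReal_ofReal hp.le]
    by_cases hpt : p = ∞
    · rw [hpt]
      simp only [ENNReal.toReal_top, div_zero, sub_zero]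
      positivity
    · have h2 : p₀ ≤ p.toReal := by
        rw [← ENNReal.ofReal_le_iff_le_toReal hpt]
        exact hpp
      have h3 := one_div_le_one_div_of_le hp h2
      linarith
  have h2 : ∫⁻ x, ‖g x‖ₑ ^ p₀ ≠ ∞ := by
    intro h3
    rw [h3, ENNReal.top_rpow_of_pos (by positivity)] at hgn
    rw [← hgn, top_le_iff] at h1
    exact hf.2.ne h1
  rw [hgE]
  refine (homog ν K p₀ hp P h g hg (fun x hx => hUP x (hgU x hx)) h2).trans ?_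
  rw [hgn]
  gcongr

/-! ### volumes -/

theorem inner_mk3 (c : EE 3) (x : ℝ × ℝ) (t : ℝ) :
    ⟪c, mk3 x t⟫ = c 0 * x.1 + c 1 * x.2 + c 2 * t := by
  rw [inner_eq, Fin.sum_univ_three]
  rfl

theorem BS_mk3 (v : ℝ × ℝ) (c : EE 3) (A : Set (ℝ × ℝ)) (C : Set ℝ) (x : ℝ × ℝ) (t : ℝ) :
    mk3 (x + t • v) t ∈ BS v c A C ↔ x ∈ A ∧ ⟪c, mk3 x 0⟫ + t * ⟪c, mk3 v 1⟫ ∈ C := by
  unfold BS
  rw [mem_ofPred_eq, inner_mk3, inner_mk3, inner_mk3, mk3_0, mk3_1, mk3_2]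
  have e1 : ((x + t • v).1 - t * v.1, (x + t • v).2 - t * v.2) = x := by
    ext <;> simp
  have e2 : c 0 * (x + t • v).1 + c 1 * (x + t • v).2 + c 2 * t =
      c 0 * x.1 + c 1 * x.2 + c 2 * 0 + t * (c 0 * v.1 + c 1 * v.2 + c 2 * 1) := by
    simp only [Prod.fst_add, Prod.snd_add, Prod.smul_fst, Prod.smul_snd, smul_eq_mul]
    ring
  rw [e1, e2]

theorem BS_vol (v : ℝ × ℝ) (c : EE 3) {A : Set (ℝ × ℝ)} {C : Set ℝ} (hA : MeasurableSet A)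
    (hC : MeasurableSet C) (hv : ⟪c, mk3 v 1⟫ ≠ 0) :
    volume (BS v c A C) = volume A * volume C / ENNReal.ofReal |⟪c, mk3 v 1⟫| := by
  have hB := BS_meas v c hA hC
  rw [← lintegral_indicator_one hB, lint3v _ (measurable_one.indicator hB) v]
  set d := ⟪c, mk3 v 1⟫ with hd
  have h1 : ∀ (x : ℝ × ℝ) (t : ℝ), (BS v c A C).indicator (1 : EE 3 → ℝ≥0∞) (mk3 (x + t • v) t) =
      A.indicator 1 x * ((fun t => ⟪c, mk3 x 0⟫ + t * d) ⁻¹' C).indicator 1 t := by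
    intro x t
    have h2 := BS_mk3 v c A C x t
    rw [← hd] at h2
    by_cases h3 : x ∈ A <;> by_cases h4 : ⟪c, mk3 x 0⟫ + t * d ∈ C
    · rw [indicator_of_mem (h2.2 ⟨h3, h4⟩), indicator_of_mem h3,
        indicator_of_mem (show t ∈ (fun t => ⟪c, mk3 x 0⟫ + t * d) ⁻¹' C from h4)]
      simp
    · rw [indicator_of_notMem (fun h => h4 (h2.1 h).2),
        indicator_of_notMem (show t ∉ (fun t => ⟪c, mk3 x 0⟫ + t * d) ⁻¹' C from h4), mul_zero]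
    · rw [indicator_of_notMem (fun h => h3 (h2.1 h).1), indicator_of_notMem h3, zero_mul]
    · rw [indicator_of_notMem (fun h => h3 (h2.1 h).1), indicator_of_notMem h3, zero_mul]
  simp_rw [h1]
  have h5 : ∀ x : ℝ × ℝ, volume ((fun t : ℝ => ⟪c, mk3 x 0⟫ + t * d) ⁻¹' C) =
      ENNReal.ofReal |d⁻¹| * volume C := by
    intro x
    have e1 : (fun t : ℝ => ⟪c, mk3 x 0⟫ + t * d) ⁻¹' C =
        (fun t => t * d) ⁻¹' ((fun t => ⟪c, mk3 x 0⟫ + t) ⁻¹' C) := rfl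
    rw [e1, Real.volume_preimage_mul_right hv, measure_preimage_add]
  have h6 : ∀ x : ℝ × ℝ, ∫⁻ t : ℝ, A.indicator (1 : ℝ × ℝ → ℝ≥0∞) x *
      ((fun t : ℝ => ⟪c, mk3 x 0⟫ + t * d) ⁻¹' C).indicator 1 t =
      A.indicator (1 : ℝ × ℝ → ℝ≥0∞) x * (ENNReal.ofReal |d⁻¹| * volume C) := by
    intro x
    have hm : MeasurableSet ((fun t : ℝ => ⟪c, mk3 x 0⟫ + t * d) ⁻¹' C) := by
      have : Measurable fun t : ℝ => ⟪c, mk3 x 0⟫ + t * d := by fun_prop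
      exact this hC
    rw [lintegral_const_mul _ (measurable_one.indicator hm), lintegral_indicator_one hm, h5]
  simp_rw [h6]
  rw [lintegral_mul_const _ (measurable_one.indicator hA), lintegral_indicator_one hA, abs_inv,
    ENNReal.ofReal_inv_of_pos (abs_pos.2 hv), div_eq_mul_inv]
  ring

theorem nrm_mk3 (v : ℝ × ℝ) : ‖mk3 v 1‖ ≤ 2 * (1 + nrm ((1 / 2 : ℝ) • v)) := by
  have h1 := norm_sq3 (mk3 v 1)
  rw [mk3_0, mk3_1, mk3_2] at h1
  have h2 := nrm_sq ((1 / 2 : ℝ) • v)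
  have h3 := nrm_nonneg ((1 / 2 : ℝ) • v)
  simp only [Prod.smul_fst, Prod.smul_snd, smul_eq_mul] at h2
  refine abs_le_of_sq_le_sq' ?_ (by positivity) |>.2
  nlinarith

theorem XA_le (v : ℝ × ℝ) (c : EE 3) {A : Set (ℝ × ℝ)} {C : Set ℝ}
    (hA : MeasurableSet A) (hC : MeasurableSet C) (hv : ⟪c, mk3 v 1⟫ ≠ 0) :
    XA v A * volume C / ENNReal.ofReal ‖c‖ ≤ 2 * volume (BS v c A C) := by
  rw [BS_vol v c hA hC hv]
  unfold XA
  have hc : c ≠ 0 := by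
    intro h
    rw [h, inner_zero_left] at hv
    exact hv rfl
  have hc0 : 0 < ‖c‖ := norm_pos_iff.2 hc
  have h3 := nrm_nonneg ((1 / 2 : ℝ) • v)
  have hd0 : 0 < |⟪c, mk3 v 1⟫| := abs_pos.2 hv
  have h1 : |⟪c, mk3 v 1⟫| ≤ 2 * ((1 + nrm ((1 / 2 : ℝ) • v)) * ‖c‖) := by
    refine (abs_real_inner_le_norm _ _).trans ?_
    have := nrm_mk3 v
    nlinarith
  have h2 : (ENNReal.ofReal (1 + nrm ((1 / 2 : ℝ) • v)))⁻¹ * (ENNReal.ofReal ‖c‖)⁻¹ ≤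
      2 * (ENNReal.ofReal |⟪c, mk3 v 1⟫|)⁻¹ := by
    rw [← ENNReal.ofReal_inv_of_pos (by positivity), ← ENNReal.ofReal_inv_of_pos hc0,
      ← ENNReal.ofReal_inv_of_pos hd0, ← ENNReal.ofReal_mul (by positivity)]
    calc ENNReal.ofReal ((1 + nrm ((1 / 2 : ℝ) • v))⁻¹ * ‖c‖⁻¹)
        ≤ ENNReal.ofReal (2 * |⟪c, mk3 v 1⟫|⁻¹) := by
          refine ENNReal.ofReal_le_ofReal ?_
          rw [← mul_inv, ← div_eq_mul_inv, le_div_iff₀ hd0, inv_mul_le_iff₀ (by positivity)]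
          linarith
      _ = _ := by rw [ENNReal.ofReal_mul (by norm_num), ENNReal.ofReal_ofNat]
  calc volume A / ENNReal.ofReal (1 + nrm ((1 / 2 : ℝ) • v)) * volume C / ENNReal.ofReal ‖c‖
      = (volume A * volume C) * ((ENNReal.ofReal (1 + nrm ((1 / 2 : ℝ) • v)))⁻¹ *
        (ENNReal.ofReal ‖c‖)⁻¹) := by
        rw [div_eq_mul_inv, div_eq_mul_inv]
        ring
    _ ≤ (volume A * volume C) * (2 * (ENNReal.ofReal |⟪c, mk3 v 1⟫|)⁻¹) := mul_le_mul_right h2 _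
    _ = _ := by
        rw [div_eq_mul_inv]
        ring

end Pool.Agent.J6H73.TPO
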