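import Mathlib
import Pool.Agent.J6H73.TPO.P12
import Pool.Agent.R412.RT.P2
set_option autoImplicit false

/-! General frames. -/

namespace Pool.Agent.J6H73.TPO

open MeasureTheory Set Filter Topology
open scoped ENNReal NNReal RealInnerProductSpace
open Pool.Agent.R412.RT (ee ee_norm ee_add ee_meas ee_cont Ex Ex_meas Phi inner_eq)
open Pool.Agent.R412.RS (slabE Phi_cont Nn_cont)

/-- product sets -/
def PS (v : Fin 3 → EE 3) (A : Set (ℝ × ℝ)) (C : Set ℝ) : Set (EE 3) :=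
  {ξ | (⟪v 0, ξ⟫, ⟪v 1, ξ⟫) ∈ A ∧ ⟪v 2, ξ⟫ ∈ C}

theorem PS_meas (v : Fin 3 → EE 3) {A : Set (ℝ × ℝ)} {C : Set ℝ} (hA : MeasurableSet A)
    (hC : MeasurableSet C) : MeasurableSet (PS v A C) := by
  have h1 : Measurable fun ξ : EE 3 => (⟪v 0, ξ⟫, ⟪v 1, ξ⟫) := by fun_prop
  have h2 : Measurable fun ξ : EE 3 => ⟪v 2, ξ⟫ := by fun_prop
  exact (h1 hA).inter (h2 hC)

/-- the third component of the vector product of the first two vectors -/
def u2 (v : Fin 3 → EE 3) : ℝ := v 0 0 * v 1 1 - v 0 1 * v 1 0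
/-- the first component -/
def u0 (v : Fin 3 → EE 3) : ℝ := v 0 1 * v 1 2 - v 0 2 * v 1 1
/-- the second component -/
def u1 (v : Fin 3 → EE 3) : ℝ := v 0 2 * v 1 0 - v 0 0 * v 1 2

/-- the determinant -/
def dt (v : Fin 3 → EE 3) : ℝ := v 2 0 * u0 v + v 2 1 * u1 v + v 2 2 * u2 v

theorem dt_ne (v : Fin 3 → EE 3) (hv : LinearIndependent ℝ v) : dt v ≠ 0 := by
  intro h
  have hsp := Pool.Agent.R412.RS.spans_of_li v hv
  set M : Matrix (Fin 3) (Fin 3) ℝ := fun i j => v i j with hM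
  have hdet : M.det = 0 := by
    rw [Matrix.det_fin_three, ← h]
    simp only [hM, dt, u0, u1, u2]
    ring
  obtain ⟨w, hw, hw0⟩ := Matrix.exists_mulVec_eq_zero_iff.2 hdet
  refine hw ?_
  have h1 := hsp (WithLp.toLp 2 w) (by
    intro i
    rw [inner_eq]
    have := congrFun hw0 i
    simpa [Matrix.mulVec, dotProduct, hM] using this)
  have h2 := congrArg (fun y : EE 3 => WithLp.ofLp y) h1
  simpa using h2

/-- the velocity of the frame -/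
noncomputable def vel (v : Fin 3 → EE 3) : ℝ × ℝ := (u0 v / u2 v, u1 v / u2 v)

theorem PS_eq (v : Fin 3 → EE 3) (h : u2 v ≠ 0) (A : Set (ℝ × ℝ)) (C : Set ℝ) :
    PS v A C = BS (vel v) (v 2) ((fun x : ℝ × ℝ => (v 0 0 * x.1 + v 0 1 * x.2,
      v 1 0 * x.1 + v 1 1 * x.2)) ⁻¹' A) C := by
  ext ξ
  unfold PS BS
  simp only [mem_ofPred_eq, mem_preimage]
  have e1 : v 0 0 * (ξ 0 - ξ 2 * (vel v).1) + v 0 1 * (ξ 1 - ξ 2 * (vel v).2) = ⟪v 0, ξ⟫ := by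
    rw [inner_eq, Fin.sum_univ_three]
    unfold vel
    simp only
    field_simp
    unfold u0 u1 u2
    ring
  have e2 : v 1 0 * (ξ 0 - ξ 2 * (vel v).1) + v 1 1 * (ξ 1 - ξ 2 * (vel v).2) = ⟪v 1, ξ⟫ := by
    rw [inner_eq, Fin.sum_univ_three]
    unfold vel
    simp only
    field_simp
    unfold u0 u1 u2
    ring
  rw [e1, e2]

theorem vel_ne (v : Fin 3 → EE 3) (h : u2 v ≠ 0) (hd : dt v ≠ 0) :
    ⟪v 2, mk3 (vel v) 1⟫ ≠ 0 := by
  rw [inner_mk3]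
  unfold vel
  simp only
  have e : v 2 0 * (u0 v / u2 v) + v 2 1 * (u1 v / u2 v) + v 2 2 * 1 = dt v / u2 v := by
    unfold dt
    field_simp
  rw [e]
  exact div_ne_zero hd h

/-- the shear of the space -/
noncomputable def Ts (s : ℝ × ℝ) (ξ : EE 3) : EE 3 :=
  mk3 (ξ 0, ξ 1) (ξ 2 + (s.1 * ξ 0 + s.2 * ξ 1))

/-- the shear of the vectors -/
noncomputable def shv (s : ℝ × ℝ) (w : EE 3) : EE 3 :=
  mk3 (w 0 + s.1 * w 2, w 1 + s.2 * w 2) (w 2)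

theorem inner_Ts (s : ℝ × ℝ) (w ξ : EE 3) : ⟪w, Ts s ξ⟫ = ⟪shv s w, ξ⟫ := by
  unfold Ts
  rw [inner_mk3, inner_eq, Fin.sum_univ_three]
  show _ = (w 0 + s.1 * w 2) * ξ 0 + (w 1 + s.2 * w 2) * ξ 1 + w 2 * ξ 2
  ring

theorem Ts_mk3 (s x : ℝ × ℝ) (t : ℝ) : Ts s (mk3 x t) = mk3 x (t + (s.1 * x.1 + s.2 * x.2)) := by
  unfold Ts
  rw [mk3_0, mk3_1, mk3_2]

theorem Ts_meas (s : ℝ × ℝ) : Measurable (Ts s) := by
  unfold Ts
  have h1 : Measurable fun ξ : EE 3 => (((ξ 0, ξ 1), ξ 2 + (s.1 * ξ 0 + s.2 * ξ 1)) :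
      (ℝ × ℝ) × ℝ) := by fun_prop
  exact mk3_meas.comp h1

theorem mk3_self (ξ : EE 3) : mk3 (ξ 0, ξ 1) (ξ 2) = ξ := by
  ext i
  fin_cases i <;> rfl

theorem Ts_neg (s : ℝ × ℝ) (ξ : EE 3) : Ts (-s) (Ts s ξ) = ξ := by
  have h1 : Ts s ξ = mk3 (ξ 0, ξ 1) (ξ 2 + (s.1 * ξ 0 + s.2 * ξ 1)) := rfl
  rw [h1, Ts_mk3]
  conv_rhs => rw [← mk3_self ξ]
  congr 1
  simp only [Prod.fst_neg, Prod.snd_neg]
  ring

theorem Ts_lint (s : ℝ × ℝ) (G : EE 3 → ℝ≥0∞) (hG : Measurable G) :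
    ∫⁻ ξ, G (Ts s ξ) = ∫⁻ ξ, G ξ := by
  have hG' : Measurable fun ξ => G (Ts s ξ) := hG.comp (Ts_meas s)
  rw [lint3v G hG 0, lint3v (fun ξ => G (Ts s ξ)) hG' 0]
  refine lintegral_congr fun x => ?_
  simp only [smul_zero, add_zero]
  have h1 : ∀ t : ℝ, G (Ts s (mk3 x t)) = (fun t => G (mk3 x t)) (t + (s.1 * x.1 + s.2 * x.2)) := by
    intro t
    rw [Ts_mk3]
  simp_rw [h1]
  exact lintegral_add_right_eq_self (fun t => G (mk3 x t)) (s.1 * x.1 + s.2 * x.2)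

theorem PS_shv (s : ℝ × ℝ) (v : Fin 3 → EE 3) (A : Set (ℝ × ℝ)) (C : Set ℝ) :
    PS (fun i => shv s (v i)) A C = Ts s ⁻¹' PS v A C := by
  ext ξ
  unfold PS
  simp only [mem_ofPred_eq, mem_preimage, inner_Ts]

theorem PS_shv_vol (s : ℝ × ℝ) (v : Fin 3 → EE 3) {A : Set (ℝ × ℝ)} {C : Set ℝ}
    (hA : MeasurableSet A) (hC : MeasurableSet C) :
    volume (PS (fun i => shv s (v i)) A C) = volume (PS v A C) := by
  have h1 := PS_meas v hA hC
  have h2 := PS_meas (fun i => shv s (v i)) hA hC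
  rw [← lintegral_indicator_one h1, ← lintegral_indicator_one h2,
    ← Ts_lint s _ (measurable_one.indicator h1), PS_shv]
  rfl

theorem shv_zero (w : EE 3) : shv 0 w = w := by
  unfold shv
  simp only [Prod.fst_zero, Prod.snd_zero, zero_mul, add_zero]
  exact mk3_self w

theorem mk3_cont : Continuous fun q : (ℝ × ℝ) × ℝ => mk3 q.1 q.2 := by
  unfold mk3
  refine (PiLp.continuous_toLp 2 _).comp ?_
  refine continuous_pi fun i => ?_
  fin_cases i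
  · exact continuous_fst.comp continuous_fst
  · exact continuous_snd.comp continuous_fst
  · exact continuous_snd

theorem shv_cont (w : EE 3) : Continuous fun s => shv s w := by
  unfold shv
  have h1 : Continuous fun s : ℝ × ℝ => (((w 0 + s.1 * w 2, w 1 + s.2 * w 2), w 2) :
      (ℝ × ℝ) × ℝ) := by fun_prop
  exact mk3_cont.comp h1

theorem Ts_cont' (ξ : EE 3) : Continuous fun s => Ts (-s) ξ := by
  unfold Ts
  have h1 : Continuous fun s : ℝ × ℝ => (((ξ 0, ξ 1), ξ 2 + ((-s).1 * ξ 0 + (-s).2 * ξ 1)) :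
      (ℝ × ℝ) × ℝ) := by fun_prop
  exact mk3_cont.comp h1

theorem Ex_cont {g : EE 2 → ℂ} (hg : Integrable g) : Continuous (Ex g) := by
  unfold Ex
  refine continuous_of_dominated (bound := fun x => ‖g x‖) ?_ ?_ hg.norm ?_
  · intro ξ
    refine (ee_meas.comp ?_).aestronglyMeasurable.mul hg.1
    exact Measurable.inner Phi_cont.measurable measurable_const
  · intro ξ
    refine Eventually.of_forall fun x => ?_
    rw [norm_mul, ee_norm, one_mul]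
  · refine Eventually.of_forall fun x => ?_
    exact (ee_cont.comp (continuous_const.inner continuous_id)).mul continuous_const

theorem Ts_zero (ξ : EE 3) : Ts 0 ξ = ξ := by
  unfold Ts
  simp only [Prod.fst_zero, Prod.snd_zero, zero_mul, add_zero]
  exact mk3_self ξ

/-- limits of frames -/
theorem fatou {g : EE 2 → ℂ} (hg : Integrable g) (v : Fin 3 → EE 3) {A : Set (ℝ × ℝ)}
    {C : Set ℝ} (hA : MeasurableSet A) (hC : MeasurableSet C) (B : ℝ≥0∞) (s : ℕ → ℝ × ℝ)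
    (hs : Tendsto s atTop (𝓝 0))
    (h : ∀ᶠ n in atTop, ∫⁻ ξ in PS (fun i => shv (s n) (v i)) A C, ‖Ex g ξ‖ₑ ^ 2 ≤ B) :
    ∫⁻ ξ in PS v A C, ‖Ex g ξ‖ₑ ^ 2 ≤ B := by
  have hm := PS_meas v hA hC
  have h1 : ∀ n, ∫⁻ ξ in PS (fun i => shv (s n) (v i)) A C, ‖Ex g ξ‖ₑ ^ 2 =
      ∫⁻ ξ in PS v A C, ‖Ex g (Ts (-(s n)) ξ)‖ₑ ^ 2 := by
    intro n
    rw [← lintegral_indicator (PS_meas _ hA hC), ← lintegral_indicator hm]
    have hGm : Measurable ((PS v A C).indicator fun ξ => ‖Ex g (Ts (-(s n)) ξ)‖ₑ ^ 2) :=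
      (((Ex_meas g hg.1).comp (Ts_meas _)).enorm.pow_const 2).indicator hm
    rw [← Ts_lint (s n) _ hGm]
    refine lintegral_congr fun ξ => ?_
    rw [PS_shv]
    by_cases hξ : Ts (s n) ξ ∈ PS v A C
    · rw [indicator_of_mem (show ξ ∈ Ts (s n) ⁻¹' PS v A C from hξ), indicator_of_mem hξ, Ts_neg]
    · rw [indicator_of_notMem (show ξ ∉ Ts (s n) ⁻¹' PS v A C from hξ), indicator_of_notMem hξ]
  have h2 : ∀ ξ, Tendsto (fun n => ‖Ex g (Ts (-(s n)) ξ)‖ₑ ^ 2) atTop (𝓝 (‖Ex g ξ‖ₑ ^ 2)) := by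
    intro ξ
    have h3 : Tendsto (fun n => Ts (-(s n)) ξ) atTop (𝓝 ξ) := by
      have h4 := ((Ts_cont' ξ).tendsto 0).comp hs
      rw [neg_zero, Ts_zero] at h4
      exact h4
    have h5 := ((Ex_cont hg).tendsto ξ).comp h3
    exact (ENNReal.continuous_pow 2).continuousAt.tendsto.comp h5.enorm
  calc ∫⁻ ξ in PS v A C, ‖Ex g ξ‖ₑ ^ 2
      = ∫⁻ ξ in PS v A C, liminf (fun n => ‖Ex g (Ts (-(s n)) ξ)‖ₑ ^ 2) atTop := by
        refine lintegral_congr fun ξ => ?_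
        rw [(h2 ξ).liminf_eq]
    _ ≤ liminf (fun n => ∫⁻ ξ in PS v A C, ‖Ex g (Ts (-(s n)) ξ)‖ₑ ^ 2) atTop :=
        lintegral_liminf_le fun n => ((Ex_meas g hg.1).comp (Ts_meas _)).enorm.pow_const 2
    _ ≤ B := by
        refine liminf_le_of_frequently_le' ?_
        refine (h.mono fun n hn => ?_).frequently
        rw [← h1 n]
        exact hn

/-- the perturbed frame -/
theorem pert (v : Fin 3 → EE 3) (h : u2 v = 0) (hd : dt v ≠ 0) (t : ℝ) (ht : 0 < t) :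
    u2 (fun i => shv (t • (u0 v, u1 v)) (v i)) ≠ 0 ∧
    dt (fun i => shv (t • (u0 v, u1 v)) (v i)) ≠ 0 := by
  have e1 : u2 (fun i => shv (t • (u0 v, u1 v)) (v i)) =
      u2 v - t * (u0 v ^ 2 + u1 v ^ 2) := by
    show (v 0 0 + (t * u0 v) * v 0 2) * (v 1 1 + (t * u1 v) * v 1 2) -
      (v 0 1 + (t * u1 v) * v 0 2) * (v 1 0 + (t * u0 v) * v 1 2) = _
    unfold u0 u1 u2
    ring
  have e2 : dt (fun i => shv (t • (u0 v, u1 v)) (v i)) = dt v := by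
    show (v 2 0 + (t * u0 v) * v 2 2) * ((v 0 1 + (t * u1 v) * v 0 2) * v 1 2 -
        v 0 2 * (v 1 1 + (t * u1 v) * v 1 2)) +
      (v 2 1 + (t * u1 v) * v 2 2) * (v 0 2 * (v 1 0 + (t * u0 v) * v 1 2) -
        (v 0 0 + (t * u0 v) * v 0 2) * v 1 2) +
      v 2 2 * ((v 0 0 + (t * u0 v) * v 0 2) * (v 1 1 + (t * u1 v) * v 1 2) -
      (v 0 1 + (t * u1 v) * v 0 2) * (v 1 0 + (t * u0 v) * v 1 2)) = _
    generalize t * u0 v = a
    generalize t * u1 v = b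
    unfold dt u0 u1 u2
    ring
  constructor
  · rw [e1, h]
    intro h1
    have h2 : t * (u0 v ^ 2 + u1 v ^ 2) = 0 := by linarith
    rcases mul_eq_zero.1 h2 with h3 | h3
    · exact ht.ne' h3
    · have h4 : u0 v = 0 := by nlinarith [sq_nonneg (u0 v), sq_nonneg (u1 v)]
      have h5 : u1 v = 0 := by nlinarith [sq_nonneg (u0 v), sq_nonneg (u1 v)]
      refine hd ?_
      unfold dt
      rw [h, h4, h5]
      ring
  · rw [e2]
    exact hd

end Pool.Agent.J6H73.TPO
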