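import Mathlib
import Pool.Agent.J6H73.TPO.P13
set_option autoImplicit false

/-! The estimates in general frames. -/

namespace Pool.Agent.J6H73.TPO

open MeasureTheory Set Filter Topology
open scoped ENNReal NNReal RealInnerProductSpace
open Pool.Agent.R412.RT (ee ee_norm ee_add ee_meas ee_cont Ex Ex_meas Phi inner_eq)
open Pool.Agent.R412.RS (slabE Phi_cont Nn_cont)

theorem exists_p0 (b : ℝ) (hb : 0 < b) (p : ℝ≥0∞) (hp : ENNReal.ofReal b < p) :
    ∃ p₀ : ℝ, b < p₀ ∧ ENNReal.ofReal p₀ ≤ p := by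
  by_cases h : p = ∞
  · refine ⟨b + 1, by linarith, ?_⟩
    rw [h]
    exact le_top
  · refine ⟨p.toReal, ?_, ?_⟩
    · rwa [ENNReal.ofReal_lt_iff_lt_toReal hb.le h] at hp
    · rw [ENNReal.ofReal_toReal h]

theorem int_of {U : Set (EE 2)} (hU : MeasurableSet U) (hUb : U ⊆ Metric.ball 0 (1 / 2))
    {p : ℝ≥0∞} (hp : 1 ≤ p) {f : EE 2 → ℂ} (hf : MemLp f p (volume.restrict U)) :
    Integrable (U.indicator f) := by
  have : IsFiniteMeasure (volume.restrict U) := by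
    constructor
    rw [Measure.restrict_apply_univ]
    exact (half_vol hUb).trans_lt (by norm_num)
  have h1 : IntegrableOn f U := hf.integrable hp
  exact (integrable_indicator_iff hU).2 h1

/-- from moving frames to all frames -/
theorem frames_of {g : EE 2 → ℂ} (hg : Integrable g) (θ : ℝ) (K : ℝ≥0∞) (Good : EE 3 → Prop)
    (h : ∀ (w : ℝ × ℝ) (c : EE 3) (A : Set (ℝ × ℝ)) (C : Set ℝ), c ≠ 0 → Good c →
      ⟪c, mk3 w 1⟫ ≠ 0 → MeasurableSet A → MeasurableSet C →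
      ∫⁻ ξ in BS w c A C, ‖Ex g ξ‖ₑ ^ 2 ≤ K * volume (BS w c A C) ^ θ)
    (v : Fin 3 → EE 3) (hv : dt v ≠ 0) (hgood : ∀ᶠ s in 𝓝 (0 : ℝ × ℝ), Good (shv s (v 2)))
    (A : Set (ℝ × ℝ)) (C : Set ℝ) (hA : MeasurableSet A) (hC : MeasurableSet C) :
    ∫⁻ ξ in PS v A C, ‖Ex g ξ‖ₑ ^ 2 ≤ K * volume (PS v A C) ^ θ := by
  have key : ∀ v' : Fin 3 → EE 3, u2 v' ≠ 0 → dt v' ≠ 0 → Good (v' 2) →
      ∫⁻ ξ in PS v' A C, ‖Ex g ξ‖ₑ ^ 2 ≤ K * volume (PS v' A C) ^ θ := by
    intro v' h1 h2 h3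
    have hM : Measurable fun x : ℝ × ℝ => (v' 0 0 * x.1 + v' 0 1 * x.2,
      v' 1 0 * x.1 + v' 1 1 * x.2) := by fun_prop
    have h4 := vel_ne v' h1 h2
    have h5 : v' 2 ≠ 0 := by
      intro h6
      rw [h6, inner_zero_left] at h4
      exact h4 rfl
    rw [PS_eq v' h1]
    exact h (vel v') (v' 2) _ C h5 h3 h4 (hM hA) hC
  by_cases h1 : u2 v = 0
  · set s : ℕ → ℝ × ℝ := fun n => (1 / ((n : ℝ) + 1)) • (u0 v, u1 v) with hs
    have hs0 : Tendsto s atTop (𝓝 0) := by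
      have h2 := (tendsto_one_div_add_atTop_nhds_zero_nat (𝕜 := ℝ)).smul_const (u0 v, u1 v)
      rw [zero_smul] at h2
      exact h2
    refine fatou hg v hA hC _ s hs0 ?_
    filter_upwards [hs0.eventually hgood] with n hn
    have hp := pert v h1 hv (1 / ((n : ℝ) + 1)) (by positivity)
    have h3 := key (fun i => shv (s n) (v i)) hp.1 hp.2 hn
    rw [PS_shv_vol (s n) v hA hC] at h3
    exact h3
  · have h2 := hgood.self_of_nhds
    rw [shv_zero] at h2
    exact key v h1 hv h2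

theorem pow_XA (θ : ℝ) (hθ : 0 < θ) (hθ1 : θ ≤ 1) (w : ℝ × ℝ) (c : EE 3) {A : Set (ℝ × ℝ)} {C : Set ℝ}
    (hA : MeasurableSet A) (hC : MeasurableSet C) (hv : ⟪c, mk3 w 1⟫ ≠ 0) :
    (XA w A * volume C / ENNReal.ofReal ‖c‖) ^ θ ≤ 2 * volume (BS w c A C) ^ θ := by
  refine (ENNReal.rpow_le_rpow (XA_le w c hA hC hv) hθ.le).trans ?_
  rw [ENNReal.mul_rpow_of_nonneg _ _ hθ.le]
  refine mul_le_mul_left ?_ _
  calc (2 : ℝ≥0∞) ^ θ ≤ 2 ^ (1 : ℝ) := ENNReal.rpow_le_rpow_of_exponent_le (by norm_num) hθ1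
    _ = 2 := ENNReal.rpow_one _

/-- **all frames** -/
theorem framesAll (q : ℝ) (hq3 : 3 < q) (hq4 : q < 4) (p : ℝ≥0∞)
    (hp : ENNReal.ofReal (2 * q) < p) : ∃ K : ℝ≥0, ∀ (v : Fin 3 → EE 3) (A : Set (ℝ × ℝ))
    (C : Set ℝ) (U : Set (EE 2)) (f : EE 2 → ℂ), LinearIndependent ℝ v → MeasurableSet A →
    MeasurableSet C → MeasurableSet U → U ⊆ Metric.ball 0 (1 / 2) →
    MemLp f p (volume.restrict U) →
    ∫⁻ ξ in PS v A C, ‖Ex (U.indicator f) ξ‖ₑ ^ 2 ≤
      K * volume (PS v A C) ^ (1 - 2 / q) * eLpNorm f p (volume.restrict U) ^ 2 := by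
  have hq0 : 0 < q := by linarith
  have h2q : 0 < 2 / q := by positivity
  have hth : 0 < 1 - 2 / q := by
    have : 2 / q < 1 := by rw [div_lt_one hq0]; linarith
    linarith
  obtain ⟨p₀, hp0, hpp⟩ := exists_p0 (2 * q) (by positivity) p hp
  obtain ⟨K, hK⟩ := main1 q hq3 hq4 p₀ hp0
  refine ⟨2 * K, ?_⟩
  intro v A C U f hv hA hC hU hUb hf
  have hp1 : 1 ≤ p := by
    refine le_trans ?_ hpp
    rw [ENNReal.one_le_ofReal]
    linarith
  have hg := int_of hU hUb hp1 hf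
  have h1 := frames_of hg (1 - 2 / q) (2 * K * eLpNorm f p (volume.restrict U) ^ 2)
    (fun _ => True) (by
      intro w c A C hc _ hv hA hC
      refine (unnorm (volume.restrict (BS w c A C)) _ p₀ (by linarith) p hpp
        (fun x => ‖x‖ < 1) (fun f hf hfs hfp => hK w c A C f hc hA hC hf hfs hfp) U hU hUb
        (fun x hx => ?_) f hf).trans ?_
      · have h2 := hUb hx
        rw [Metric.mem_ball, dist_zero_right] at h2
        linarith
      · calc (K : ℝ≥0∞) * (XA w A * volume C / ENNReal.ofReal ‖c‖) ^ (1 - 2 / q) *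
              eLpNorm f p (volume.restrict U) ^ 2
            ≤ K * (2 * volume (BS w c A C) ^ (1 - 2 / q)) *
              eLpNorm f p (volume.restrict U) ^ 2 :=
              mul_le_mul_left (mul_le_mul_right (pow_XA _ hth (by linarith) w c hA hC hv) _) _
          _ = _ := by ring)
    v (dt_ne v hv) (Eventually.of_forall fun _ => trivial) A C hA hC
  refine h1.trans (le_of_eq ?_)
  push_cast
  ring

/-- **transversal frames** -/
theorem framesT (q : ℝ) (hq3 : 3 < q) (hq4 : q < 4) (p : ℝ≥0∞)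
    (hp : ENNReal.ofReal (2 * q / (q - 1)) < p) (κ : ℝ) (hκ : 0 < κ) :
    ∃ K : ℝ≥0, ∀ (v : Fin 3 → EE 3) (A : Set (ℝ × ℝ))
    (C : Set ℝ) (U : Set (EE 2)) (f : EE 2 → ℂ), LinearIndependent ℝ v → MeasurableSet A →
    MeasurableSet C → MeasurableSet U → U ⊆ Metric.ball 0 (1 / 2) →
    (∀ x ∈ U, κ * ‖v 2‖ ≤ |⟪v 2, No x⟫|) →
    MemLp f p (volume.restrict U) →
    ∫⁻ ξ in PS v A C, ‖Ex (U.indicator f) ξ‖ₑ ^ 2 ≤
      K * volume (PS v A C) ^ (1 - 2 / q) * eLpNorm f p (volume.restrict U) ^ 2 := by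
  have hq0 : 0 < q := by linarith
  have hq1 : 0 < q - 1 := by linarith
  have h2q : 0 < 2 / q := by positivity
  have hth : 0 < 1 - 2 / q := by
    have : 2 / q < 1 := by rw [div_lt_one hq0]; linarith
    linarith
  obtain ⟨p₀, hp0, hpp⟩ := exists_p0 (2 * q / (q - 1)) (by positivity) p hp
  have hp0' : 2 * q < p₀ * (q - 1) := by rwa [div_lt_iff₀ hq1] at hp0
  have hp01 : 1 ≤ p₀ := by
    by_contra h
    push Not at h
    nlinarith
  obtain ⟨K, hK⟩ := main2 q hq3 hq4 p₀ hp01 hp0' (κ / 2) (by positivity)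
  refine ⟨2 * K, ?_⟩
  intro v A C U f hv hA hC hU hUb hUT hf
  have hU1 : ∀ x ∈ U, ‖x‖ < 1 := by
    intro x hx
    have h2 := hUb hx
    rw [Metric.mem_ball, dist_zero_right] at h2
    linarith
  have hp1 : 1 ≤ p := by
    refine le_trans ?_ hpp
    rw [ENNReal.one_le_ofReal]
    exact hp01
  have hg := int_of hU hUb hp1 hf
  have hv2 : v 2 ≠ 0 := hv.ne_zero 2
  have h1 := frames_of hg (1 - 2 / q) (2 * K * eLpNorm f p (volume.restrict U) ^ 2)
    (fun c => ∀ x ∈ U, κ / 2 * ‖c‖ ≤ |⟪c, No x⟫|) (by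
      intro w c A C hc hgood hv hA hC
      refine (unnorm (volume.restrict (BS w c A C)) _ p₀ (by linarith) p hpp
        (fun x => ‖x‖ < 1 ∧ κ / 2 * ‖c‖ ≤ |⟪c, No x⟫|)
        (fun f hf hfs hfp => hK w c A C f hc hA hC hf hfs hfp) U hU hUb
        (fun x hx => ⟨hU1 x hx, hgood x hx⟩) f hf).trans ?_
      calc (K : ℝ≥0∞) * (XA w A * volume C / ENNReal.ofReal ‖c‖) ^ (1 - 2 / q) *
              eLpNorm f p (volume.restrict U) ^ 2
            ≤ K * (2 * volume (BS w c A C) ^ (1 - 2 / q)) *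
              eLpNorm f p (volume.restrict U) ^ 2 :=
              mul_le_mul_left (mul_le_mul_right (pow_XA _ hth (by linarith) w c hA hC hv) _) _
          _ = _ := by ring)
    v (dt_ne v hv) (by
      have hn : 0 < ‖v 2‖ := norm_pos_iff.2 hv2
      have hcont : Continuous fun s : ℝ × ℝ =>
          κ * ‖v 2‖ - 4 * ‖shv s (v 2) - v 2‖ - κ / 2 * ‖shv s (v 2)‖ := by
        have := shv_cont (v 2)
        fun_prop
      have h0 : 0 < κ * ‖v 2‖ - 4 * ‖shv 0 (v 2) - v 2‖ - κ / 2 * ‖shv 0 (v 2)‖ := by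
        rw [shv_zero, sub_self, norm_zero]
        have : 0 < κ * ‖v 2‖ := by positivity
        linarith
      filter_upwards [hcont.continuousAt.eventually (lt_mem_nhds h0)] with s hs
      intro x hx
      have h2 := hUT x hx
      have h3 := J_le (shv s (v 2) - v 2) (hU1 x hx)
      have h4 : ⟪shv s (v 2), No x⟫ = ⟪v 2, No x⟫ + ⟪shv s (v 2) - v 2, No x⟫ := by
        rw [← inner_add_left]
        congr 1
        abel
      have h5 : |⟪v 2, No x⟫| ≤ |⟪shv s (v 2), No x⟫| + |⟪shv s (v 2) - v 2, No x⟫| := by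
        have h6 : ⟪v 2, No x⟫ = ⟪shv s (v 2), No x⟫ + -⟪shv s (v 2) - v 2, No x⟫ := by
          rw [h4]; ring
        calc |⟪v 2, No x⟫| = |⟪shv s (v 2), No x⟫ + -⟪shv s (v 2) - v 2, No x⟫| := by rw [← h6]
          _ ≤ _ := (abs_add_le _ _).trans (by rw [abs_neg])
      linarith) A C hA hC
  refine h1.trans (le_of_eq ?_)
  push_cast
  ring

/-- **moving frames**, with decay in the velocity -/
theorem framesV (q : ℝ) (hq3 : 3 < q) (hq4 : q < 4) (p : ℝ≥0∞)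
    (hp : ENNReal.ofReal (2 * q / (q - 1)) < p) :
    ∃ K : ℝ≥0, ∀ (w : ℝ × ℝ) (A : Set (ℝ × ℝ))
    (C : Set ℝ) (U : Set (EE 2)) (f : EE 2 → ℂ), MeasurableSet A →
    MeasurableSet C → MeasurableSet U → U ⊆ Metric.ball 0 (1 / 2) →
    MemLp f p (volume.restrict U) →
    ∫⁻ ξ in BS w (mk3 0 1) A C, ‖Ex (U.indicator f) ξ‖ₑ ^ 2 ≤
      K * (volume A * volume C / ENNReal.ofReal (1 + nrm w)) ^ (1 - 2 / q) *
        eLpNorm f p (volume.restrict U) ^ 2 := by
  have hq0 : 0 < q := by linarith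
  have hq1 : 0 < q - 1 := by linarith
  have h2q : 0 < 2 / q := by positivity
  have hth : 0 < 1 - 2 / q := by
    have : 2 / q < 1 := by rw [div_lt_one hq0]; linarith
    linarith
  obtain ⟨p₀, hp0, hpp⟩ := exists_p0 (2 * q / (q - 1)) (by positivity) p hp
  have hp0' : 2 * q < p₀ * (q - 1) := by rwa [div_lt_iff₀ hq1] at hp0
  have hp01 : 1 ≤ p₀ := by
    by_contra h
    push Not at h
    nlinarith
  obtain ⟨K, hK⟩ := main2 q hq3 hq4 p₀ hp01 hp0' 1 one_pos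
  have hc1 : ‖mk3 0 1‖ = 1 := by
    have h := norm_sq3 (mk3 0 1)
    rw [mk3_0, mk3_1, mk3_2] at h
    have h0 := norm_nonneg (mk3 0 1)
    simp only [Prod.fst_zero, Prod.snd_zero] at h
    nlinarith
  have hcN : ∀ x : EE 2, ⟪mk3 0 1, No x⟫ = 1 := by
    intro x
    rw [inner_No, mk3_0, mk3_1, mk3_2]
    simp
  refine ⟨2 * K, ?_⟩
  intro w A C U f hA hC hU hUb hf
  have hU1 : ∀ x ∈ U, ‖x‖ < 1 := by
    intro x hx
    have h2 := hUb hx
    rw [Metric.mem_ball, dist_zero_right] at h2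
    linarith
  have hc0 : mk3 0 1 ≠ 0 := by
    intro h
    rw [h, norm_zero] at hc1
    exact zero_ne_one hc1
  refine (unnorm (volume.restrict (BS w (mk3 0 1) A C)) _ p₀ (by linarith) p hpp
        (fun x => ‖x‖ < 1 ∧ 1 * ‖mk3 0 1‖ ≤ |⟪mk3 0 1, No x⟫|)
        (fun f hf hfs hfp => hK w (mk3 0 1) A C f hc0 hA hC hf hfs hfp) U hU hUb
        (fun x hx => ⟨hU1 x hx, by rw [hcN, hc1]; simp⟩) f hf).trans ?_
  refine mul_le_mul_left ?_ _
  push_cast
  rw [hc1, ENNReal.ofReal_one, div_one]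
  have h3 : XA w A * volume C ≤ 2 * (volume A * volume C / ENNReal.ofReal (1 + nrm w)) := by
    unfold XA
    have h4 : nrm w ≤ 2 * nrm ((1 / 2 : ℝ) • w) := by
      have e1 := nrm_sq w
      have e2 := nrm_sq ((1 / 2 : ℝ) • w)
      have e3 := nrm_nonneg w
      have e4 := nrm_nonneg ((1 / 2 : ℝ) • w)
      simp only [Prod.smul_fst, Prod.smul_snd, smul_eq_mul] at e2
      refine abs_le_of_sq_le_sq' ?_ (by positivity) |>.2
      nlinarith
    have h5 : (ENNReal.ofReal (1 + nrm ((1 / 2 : ℝ) • w)))⁻¹ ≤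
        2 * (ENNReal.ofReal (1 + nrm w))⁻¹ := by
      have e3 := nrm_nonneg w
      have e4 := nrm_nonneg ((1 / 2 : ℝ) • w)
      rw [← ENNReal.ofReal_inv_of_pos (by positivity), ← ENNReal.ofReal_inv_of_pos (by positivity)]
      calc ENNReal.ofReal (1 + nrm ((1 / 2 : ℝ) • w))⁻¹ ≤ ENNReal.ofReal (2 * (1 + nrm w)⁻¹) := by
            refine ENNReal.ofReal_le_ofReal ?_
            rw [← div_eq_mul_inv, le_div_iff₀ (by positivity), inv_mul_le_iff₀ (by positivity)]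
            linarith
        _ = _ := by rw [ENNReal.ofReal_mul (by norm_num), ENNReal.ofReal_ofNat]
    calc volume A / ENNReal.ofReal (1 + nrm ((1 / 2 : ℝ) • w)) * volume C
        = volume A * volume C * (ENNReal.ofReal (1 + nrm ((1 / 2 : ℝ) • w)))⁻¹ := by
          rw [div_eq_mul_inv]; ring
      _ ≤ volume A * volume C * (2 * (ENNReal.ofReal (1 + nrm w))⁻¹) := mul_le_mul_right h5 _
      _ = _ := by rw [div_eq_mul_inv]; ring
  calc (K : ℝ≥0∞) * (XA w A * volume C) ^ (1 - 2 / q)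
      ≤ K * (2 * (volume A * volume C / ENNReal.ofReal (1 + nrm w))) ^ (1 - 2 / q) :=
        mul_le_mul_right (ENNReal.rpow_le_rpow h3 hth.le) _
    _ ≤ K * (2 * (volume A * volume C / ENNReal.ofReal (1 + nrm w)) ^ (1 - 2 / q)) := by
        refine mul_le_mul_right ?_ _
        rw [ENNReal.mul_rpow_of_nonneg _ _ hth.le]
        refine mul_le_mul_left ?_ _
        calc (2 : ℝ≥0∞) ^ (1 - 2 / q) ≤ 2 ^ (1 : ℝ) :=
              ENNReal.rpow_le_rpow_of_exponent_le (by norm_num) (by linarith)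
          _ = 2 := ENNReal.rpow_one _
    _ = _ := by ring

end Pool.Agent.J6H73.TPO
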