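import Mathlib
import Pool.Agent.J6H73.TPO.P14
import Pool.Agent.R412.RT.Z
set_option autoImplicit false

/-! Product weights in orthonormal frames. -/

namespace Pool.Agent.J6H73.TPW

open MeasureTheory Set Filter Topology
open scoped ENNReal NNReal RealInnerProductSpace
open Pool.Agent.R412.RT (E ee ee_norm ee_add ee_meas ee_cont Ex Ex_meas Phi inner_eq Ey Ex_eq
  Ey_meas ph ph_cont cov inner_repr_symm nu nu_prob jens mj mj_meas mj_ge av av_meas av_sup
  av_norm Cr)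
open Pool.Agent.R412.RS (slabE Phi_cont Nn_cont Phi_norm)
open Pool.Agent.R412.RH (Aw Aw_meas single_meas Wp Wp_meas Aw_Wp aP aP_meas aP_sup aP_norm LoG
  loG_le layer2)

variable (e : OrthonormalBasis (Fin 3) ℝ (E 3))

/-- local constancy for general densities -/
theorem lcG (j : Fin 3) {f : E 2 → ℂ} (hf : Measurable f) (hfs : ∀ x, f x ≠ 0 → ‖x‖ < 1)
    (hfi : Integrable f) (W : (Fin 3 → ℝ) → ℝ≥0∞)
    (hW : Measurable W) : ∃ g : E 2 → ℂ, Measurable g ∧ (∀ x, ‖g x‖ ≤ 2 * ‖f x‖) ∧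
      ∫⁻ y, W y * ‖Ey e f y‖ₑ ^ 2 ≤ ∫⁻ y, Aw j W y * ‖Ey e g y‖ₑ ^ 2 := by
  have hprob := nu_prob Pool.Agent.R412.RH.dt Pool.Agent.R412.RH.dt_pos
  have hs : ∀ x, f x ≠ 0 → |ph e j x| ≤ 2 := by
    intro x hx
    have h1 : ‖x‖ ≤ 1 := (hfs x hx).le
    refine (abs_real_inner_le_norm _ _).trans ?_
    rw [e.orthonormal.1 j, one_mul]
    exact (Phi_norm x 1 h1).trans (by norm_num)
  set δ : ℝ := Pool.Agent.R412.RH.dt with hδ
  set g : E 2 → ℂ := fun x => f x / mj δ (ph e j x) with hg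
  have hgle : ∀ x, ‖g x‖ ≤ 2 * ‖f x‖ := by
    intro x
    by_cases hx : f x = 0
    · simp [hg, hx]
    · have h1 := mj_ge δ Pool.Agent.R412.RH.dt_pos 2 (ph e j x) (hs x hx) Pool.Agent.R412.RH.dt_le
      rw [hg]
      simp only
      rw [norm_div, div_le_iff₀ (by linarith)]
      nlinarith [norm_nonneg (f x)]
  have hfg : ∀ x, f x = g x * mj δ (ph e j x) := by
    intro x
    by_cases hx : f x = 0
    · simp [hg, hx]
    · have h1 := mj_ge δ Pool.Agent.R412.RH.dt_pos 2 (ph e j x) (hs x hx) Pool.Agent.R412.RH.dt_le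
      have : mj δ (ph e j x) ≠ 0 := by
        intro h0
        rw [h0, norm_zero] at h1
        linarith
      rw [hg]
      field_simp
  have hgm : Measurable g := hf.div ((mj_meas δ).comp (ph_cont e j).measurable)
  refine ⟨g, hgm, hgle, ?_⟩
  have hgi : Integrable g := by
    refine Integrable.mono' (hfi.norm.const_mul 2) hgm.aestronglyMeasurable ?_
    exact Eventually.of_forall fun x => hgle x
  have hEm : Measurable (Ey e g) := Ey_meas e g hgi.1
  have hsm := single_meas j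
  have hEf : ∀ y, Ey e f y = ∫ τ, Ey e g (y + Pi.single j τ) ∂(nu δ) := by
    intro y
    have hint : Integrable (Function.uncurry fun (x : E 2) (τ : ℝ) =>
        ee (∑ i, ph e i x * (y + (Pi.single j τ : Fin 3 → ℝ)) i) * g x)
        (volume.prod (nu δ)) := by
      have h1 : Integrable (fun q : E 2 × ℝ => g q.1) (volume.prod (nu δ)) :=
        hgi.comp_fst (nu δ)
      refine h1.bdd_mul (c := 1) ?_ (Eventually.of_forall fun q => (ee_norm _).le)
      refine (ee_meas.comp ?_).aestronglyMeasurable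
      refine Finset.measurable_sum _ fun i _ =>
        ((ph_cont e i).measurable.comp measurable_fst).mul ?_
      exact measurable_const.add ((measurable_pi_apply i).comp (hsm.comp measurable_snd))
    unfold Ey
    rw [← integral_integral_swap hint]
    congr 1
    ext x
    rw [hfg x, mul_comm (g x), ← mul_assoc, integral_mul_const]
    congr 1
    unfold mj
    rw [← integral_const_mul]
    congr 1
    ext τ
    rw [← ee_add]
    congr 1
    simp only [Pi.add_apply, mul_add, Finset.sum_add_distrib]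
    congr 1
    rw [Finset.sum_eq_single j]
    · rw [Pi.single_eq_same]
    · intro i _ hi
      rw [Pi.single_eq_of_ne hi, mul_zero]
    · intro h
      exact absurd (Finset.mem_univ j) h
  have hshift : ∀ y : Fin 3 → ℝ, Measurable fun τ : ℝ => y + (Pi.single j τ : Fin 3 → ℝ) :=
    fun y => measurable_const.add hsm
  calc ∫⁻ y, W y * ‖Ey e f y‖ₑ ^ 2 ≤ ∫⁻ y : Fin 3 → ℝ, (∫⁻ τ, W y *
        ‖Ey e g (y + (Pi.single j τ : Fin 3 → ℝ))‖ₑ ^ 2 ∂(nu δ)) ∂volume := by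
        refine lintegral_mono fun y => ?_
        have hEm' : Measurable fun τ : ℝ => ‖Ey e g (y + (Pi.single j τ : Fin 3 → ℝ))‖ₑ ^ 2 :=
          (hEm.comp (hshift y)).enorm.pow_const 2
        rw [lintegral_const_mul _ hEm']
        refine mul_le_mul_right ?_ _
        rw [hEf y]
        have h1 : ‖∫ τ, Ey e g (y + (Pi.single j τ : Fin 3 → ℝ)) ∂(nu δ)‖ₑ ≤
            ∫⁻ τ, ‖Ey e g (y + (Pi.single j τ : Fin 3 → ℝ))‖ₑ ∂(nu δ) :=
          enorm_integral_le_lintegral_enorm _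
        refine (pow_le_pow_left' h1 2).trans ?_
        have h2 := jens (nu δ) 2 (by norm_num) (fun τ => ‖Ey e g (y + (Pi.single j τ : Fin 3 → ℝ))‖ₑ)
          (hEm.comp (hshift y)).enorm.aemeasurable
        simpa using h2
    _ = ∫⁻ τ, (∫⁻ y : Fin 3 → ℝ, W y *
        ‖Ey e g (y + (Pi.single j τ : Fin 3 → ℝ))‖ₑ ^ 2 ∂volume) ∂(nu δ) := by
        refine lintegral_lintegral_swap ?_
        refine ((hW.comp measurable_fst).mul ((hEm.comp ?_).enorm.pow_const 2)).aemeasurable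
        exact measurable_fst.add (hsm.comp measurable_snd)
    _ = ∫⁻ τ, (∫⁻ y : Fin 3 → ℝ, W (y - (Pi.single j τ : Fin 3 → ℝ)) *
        ‖Ey e g y‖ₑ ^ 2 ∂volume) ∂(nu δ) := by
        refine lintegral_congr fun τ => ?_
        rw [← lintegral_add_right_eq_self (fun y : Fin 3 → ℝ =>
          W (y - (Pi.single j τ : Fin 3 → ℝ)) * ‖Ey e g y‖ₑ ^ 2)
          (Pi.single j τ : Fin 3 → ℝ)]
        refine lintegral_congr fun y => ?_
        rw [add_sub_cancel_right]
    _ = ∫⁻ y : Fin 3 → ℝ, (∫⁻ τ, W (y - (Pi.single j τ : Fin 3 → ℝ)) *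
        ‖Ey e g y‖ₑ ^ 2 ∂(nu δ)) ∂volume := by
        refine lintegral_lintegral_swap ?_
        refine ((hW.comp ?_).mul ((hEm.comp measurable_snd).enorm.pow_const 2)).aemeasurable
        exact measurable_snd.sub (hsm.comp measurable_fst)
    _ = ∫⁻ y, Aw j W y * ‖Ey e g y‖ₑ ^ 2 := by
        refine lintegral_congr fun y => ?_
        have hWy : Measurable fun τ : ℝ => W (y - (Pi.single j τ : Fin 3 → ℝ)) :=
          hW.comp (measurable_const.sub hsm)
        rw [lintegral_mul_const _ hWy]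
        rfl

/-- the constant from the averages -/
noncomputable def cW (d r : ℝ) : ℝ :=
  Cr d r ((Pool.Agent.R412.RH.dt⁻¹ ^ (1 / r)) ^ 2) * Cr d r (Pool.Agent.R412.RH.dt⁻¹ ^ (1 / r))

/-- from sets to weights -/
theorem weights_of (d r : ℝ) (hr : 1 ≤ r) (hrd : r < d) (K : ℝ≥0∞) {f : E 2 → ℂ}
    (hf : Measurable f) (hfs : ∀ x, f x ≠ 0 → ‖x‖ < 1) (hfi : Integrable f)
    (hsets : ∀ g : E 2 → ℂ, Measurable g → (∀ x, ‖g x‖ ≤ 8 * ‖f x‖) →
      ∀ (A : Set (ℝ × ℝ)) (C : Set ℝ), MeasurableSet A → MeasurableSet C →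
      ∫⁻ ξ in {ξ : E 3 | (⟪e 0, ξ⟫, ⟪e 2, ξ⟫) ∈ A ∧ ⟪e 1, ξ⟫ ∈ C}, ‖Ex g ξ‖ₑ ^ 2 ≤
        K * volume A ^ (1 / d) * volume C ^ (1 / d))
    (u : ℝ × ℝ → ℝ≥0∞) (v : ℝ → ℝ≥0∞) (hu : Measurable u) (hv : Measurable v) :
    ∫⁻ ξ, u (⟪e 0, ξ⟫, ⟪e 2, ξ⟫) * v ⟪e 1, ξ⟫ * ‖Ex f ξ‖ₑ ^ 2 ≤
      K * ENNReal.ofReal (cW d r) * (∫⁻ p, u p ^ r) ^ (1 / r) * (∫⁻ t, v t ^ r) ^ (1 / r) := by
  have hdt := Pool.Agent.R412.RH.dt_pos
  set δ : ℝ := Pool.Agent.R412.RH.dt with hδ
  set S1 : ℝ := δ⁻¹ ^ (1 / r) with hS1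
  have hS10 : 0 < S1 := by positivity
  have hCr : ∀ S : ℝ, 0 < S → 0 < Cr d r S := by
    intro S hS
    unfold Cr
    have : r / d < 1 := (div_lt_one (by linarith)).2 hrd
    have : 0 < 1 - r / d := by linarith
    positivity
  -- to coordinates
  have hcoord : ∀ g : E 2 → ℂ, Integrable g → ∀ (u : ℝ × ℝ → ℝ≥0∞) (v : ℝ → ℝ≥0∞),
      Measurable u → Measurable v →
      ∫⁻ ξ, u (⟪e 0, ξ⟫, ⟪e 2, ξ⟫) * v ⟪e 1, ξ⟫ * ‖Ex g ξ‖ₑ ^ 2 =
      ∫⁻ y, Wp u v y * ‖Ey e g y‖ₑ ^ 2 := by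
    intro g hg u v hu hv
    rw [cov e]
    · refine lintegral_congr fun y => ?_
      rw [Ex_eq]
      simp only [inner_repr_symm]
      rfl
    · refine Measurable.mul (Measurable.mul ?_ ?_) ((Ex_meas g hg.1).enorm.pow_const 2)
      · exact hu.comp (by fun_prop)
      · exact hv.comp (by fun_prop)
  rw [hcoord f hfi u v hu hv]
  have hWm := Wp_meas u v hu hv
  have nxt : ∀ (f g : E 2 → ℂ), (∀ x, f x ≠ 0 → ‖x‖ < 1) → Integrable f → Measurable g →
      (∀ x, ‖g x‖ ≤ 2 * ‖f x‖) → (∀ x, g x ≠ 0 → ‖x‖ < 1) ∧ Integrable g := by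
    intro f g hfs hfi hgm hgle
    refine ⟨?_, Integrable.mono' (hfi.norm.const_mul 2) hgm.aestronglyMeasurable
      (Eventually.of_forall fun x => hgle x)⟩
    intro x hx
    refine hfs x fun h => hx ?_
    have := hgle x
    rw [h, norm_zero, mul_zero] at this
    exact norm_le_zero_iff.1 this
  obtain ⟨g1, hg1, hl1, hT1⟩ := lcG e 1 hf hfs hfi (Wp u v) hWm
  obtain ⟨hs1, hi1⟩ := nxt f g1 hfs hfi hg1 hl1
  have hW1 := Aw_meas 1 _ hWm
  obtain ⟨g2, hg2, hl2, hT2⟩ := lcG e 2 hg1 hs1 hi1 _ hW1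
  obtain ⟨hs2, hi2⟩ := nxt g1 g2 hs1 hi1 hg2 hl2
  have hW2 := Aw_meas 2 _ hW1
  obtain ⟨g, hg, hl3, hT3⟩ := lcG e 0 hg2 hs2 hi2 _ hW2
  obtain ⟨hs3, hi3⟩ := nxt g2 g hs2 hi2 hg hl3
  have hl : ∀ x, ‖g x‖ ≤ 8 * ‖f x‖ := by
    intro x
    have h1 := hl1 x
    have h2 := hl2 x
    have h3 := hl3 x
    linarith
  refine hT1.trans (hT2.trans (hT3.trans ?_))
  rw [Aw_Wp u v hu hv, ← hcoord g hi3 _ _ (aP_meas u hu) (av_meas δ v hv)]
  -- layer cake
  have hUm : Measurable fun ξ : E 3 => aP u (⟪e 0, ξ⟫, ⟪e 2, ξ⟫) :=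
    (aP_meas u hu).comp (by fun_prop)
  have hVm : Measurable fun ξ : E 3 => av δ v ⟪e 1, ξ⟫ := (av_meas δ v hv).comp (by fun_prop)
  rw [layer2 volume _ _ _ hUm hVm ((Ex_meas g hi3.1).enorm.pow_const 2)]
  have hset : ∀ s t : ℝ, ∫⁻ ξ in {ξ : E 3 | ENNReal.ofReal s < aP u (⟪e 0, ξ⟫, ⟪e 2, ξ⟫) ∧
      ENNReal.ofReal t < av δ v ⟪e 1, ξ⟫}, ‖Ex g ξ‖ₑ ^ 2 ≤
      K * volume {p | ENNReal.ofReal s < aP u p} ^ (1 / d) *
        volume {a | ENNReal.ofReal t < av δ v a} ^ (1 / d) := by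
    intro s t
    exact hsets g hg hl {p | ENNReal.ofReal s < aP u p}
      {a | ENNReal.ofReal t < av δ v a}
      (measurableSet_lt measurable_const (aP_meas u hu))
      (measurableSet_lt measurable_const (av_meas δ v hv))
  calc ∫⁻ s in Ioi (0 : ℝ), ∫⁻ t in Ioi (0 : ℝ),
        ∫⁻ ξ in {ξ : E 3 | ENNReal.ofReal s < aP u (⟪e 0, ξ⟫, ⟪e 2, ξ⟫) ∧
        ENNReal.ofReal t < av δ v ⟪e 1, ξ⟫}, ‖Ex g ξ‖ₑ ^ 2
      ≤ ∫⁻ s in Ioi (0 : ℝ), ∫⁻ t in Ioi (0 : ℝ),
        K * volume {p | ENNReal.ofReal s < aP u p} ^ (1 / d) *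
        volume {a | ENNReal.ofReal t < av δ v a} ^ (1 / d) :=
        lintegral_mono fun s => lintegral_mono fun t => hset s t
    _ = K * LoG volume d (aP u) * LoG volume d (av δ v) := by
        have hanti : ∀ {α : Type} [MeasurableSpace α] (μ : Measure α) (w : α → ℝ≥0∞),
            Measurable fun t : ℝ => μ {a | ENNReal.ofReal t < w a} ^ (1 / d) := by
          intro α _ μ w
          refine Measurable.pow_const ?_ _
          refine Antitone.measurable fun t t' htt => measure_mono fun a ha => ?_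
          exact lt_of_le_of_lt (ENNReal.ofReal_le_ofReal htt) ha
        have h2 : ∀ s : ℝ, ∫⁻ t in Ioi (0 : ℝ), K *
            volume {p | ENNReal.ofReal s < aP u p} ^ (1 / d) *
            volume {a | ENNReal.ofReal t < av δ v a} ^ (1 / d) =
            volume {p | ENNReal.ofReal s < aP u p} ^ (1 / d) *
            (K * LoG volume d (av δ v)) := by
          intro s
          rw [lintegral_const_mul _ (hanti volume (av δ v))]
          unfold LoG
          ring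
        simp_rw [h2]
        rw [lintegral_mul_const _ (hanti volume (aP u))]
        show LoG volume d (aP u) * _ = _
        ring
    _ ≤ K * (ENNReal.ofReal (Cr d r (S1 ^ 2)) * (∫⁻ p, u p ^ r) ^ (1 / r)) *
          (ENNReal.ofReal (Cr d r S1) * (∫⁻ t, v t ^ r) ^ (1 / r)) := by
        have hS1e : (ENNReal.ofReal δ)⁻¹ ^ (1 / r) = ENNReal.ofReal S1 := by
          rw [← ENNReal.ofReal_inv_of_pos hdt, ENNReal.ofReal_rpow_of_pos (by positivity)]
        have hNr : ∀ N : ℝ≥0∞, (N ^ (1 / r)) ^ r = N := by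
          intro N
          rw [← ENNReal.rpow_mul, one_div, inv_mul_cancel₀ (by linarith), ENNReal.rpow_one]
        refine mul_le_mul' (mul_le_mul_right ?_ _) ?_
        · refine loG_le volume d r hr hrd (S1 ^ 2) (by positivity) _ (aP_meas u hu) _ ?_ ?_
          · rw [hNr]; exact aP_norm r hr u hu
          · intro p
            refine (aP_sup r hr u hu p).trans (le_of_eq ?_)
            rw [hS1e, ENNReal.ofReal_pow hS10.le]
        · refine loG_le volume d r hr hrd S1 hS10 _ (av_meas δ v hv) _ ?_ ?_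
          · rw [hNr]; exact av_norm δ hdt r hr v hv
          · intro t
            refine (av_sup δ hdt r hr v hv t).trans (le_of_eq ?_)
            rw [hS1e]
    _ = _ := by
        unfold cW
        rw [ENNReal.ofReal_mul (p := Cr d r (S1 ^ 2)) (hCr _ (by positivity)).le]
        ring

end Pool.Agent.J6H73.TPW
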