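import Mathlib
import Pool.Agent.J6H73.TPO.P15
set_option autoImplicit false

/-! Conversion to the normalisation `e^{-i Φ(x)·ξ}`. -/

namespace Pool.Agent.J6H73.TPZ

open MeasureTheory Set Filter Topology
open scoped ENNReal NNReal RealInnerProductSpace
open Pool.Agent.R412.RT (E Ex Ex_meas)
open Pool.Agent.R412.RZ (ext ext_lint cs cs_ne scaleV K0 K0_ne)
open Pool.Agent.J6H73.TPO (PS PS_meas BS BS_meas mk3 nrm framesAll framesT framesV No exists_p0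
  int_of Ex_congr half_vol)
open Pool.Agent.J6H73.TPW (weights_of cW)

/-- sets -/
theorem convS (U : Set (E 2)) (hU : MeasurableSet U) (f : E 2 → ℂ) (P P' : Set (E 3))
    (hP : MeasurableSet P) (hP' : MeasurableSet P') (h : ∀ ξ, cs • ξ ∈ P ↔ ξ ∈ P') :
    ∫⁻ ξ in P, ‖ext U f ξ‖ₑ ^ 2 = K0 * ∫⁻ ξ in P', ‖Ex (U.indicator f) ξ‖ₑ ^ 2 := by
  have h0 : ∫⁻ ξ in P, ‖ext U f ξ‖ₑ ^ 2 = ∫⁻ ξ, P.indicator 1 ξ * ‖ext U f ξ‖ₑ ^ 2 := by
    rw [← lintegral_indicator hP]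
    refine lintegral_congr fun ξ => ?_
    by_cases hξ : ξ ∈ P
    · rw [indicator_of_mem hξ, indicator_of_mem hξ, Pi.one_apply, one_mul]
    · rw [indicator_of_notMem hξ, indicator_of_notMem hξ, zero_mul]
  rw [h0, ext_lint U hU]
  unfold K0
  congr 1
  rw [← lintegral_indicator hP']
  refine lintegral_congr fun ξ => ?_
  by_cases hξ : ξ ∈ P'
  · rw [indicator_of_mem hξ, indicator_of_mem ((h ξ).2 hξ), Pi.one_apply, one_mul]
  · rw [indicator_of_notMem hξ, indicator_of_notMem (fun h' => hξ ((h ξ).1 h')), zero_mul]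

/-- volumes -/
theorem convV {V : Type*} [NormedAddCommGroup V] [NormedSpace ℝ V] [MeasurableSpace V]
    [BorelSpace V] [FiniteDimensional ℝ V] (μ : Measure V) [μ.IsAddHaarMeasure]
    (P P' : Set V) (hP : MeasurableSet P) (hP' : MeasurableSet P')
    (h : ∀ ξ, cs • ξ ∈ P ↔ ξ ∈ P') : μ P' ≤ μ P := by
  have h1 := scaleV μ (P.indicator 1) (measurable_one.indicator hP)
  rw [lintegral_indicator_one hP] at h1
  refine le_trans (le_of_eq ?_) h1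
  rw [← lintegral_indicator_one hP']
  refine lintegral_congr fun ξ => ?_
  by_cases hξ : ξ ∈ P'
  · rw [indicator_of_mem hξ, indicator_of_mem ((h ξ).2 hξ)]
    rfl
  · rw [indicator_of_notMem hξ, indicator_of_notMem (fun h' => hξ ((h ξ).1 h'))]

theorem PS_scale (v : Fin 3 → E 3) (A : Set (ℝ × ℝ)) (C : Set ℝ) (ξ : E 3) :
    cs • ξ ∈ PS v A C ↔ ξ ∈ PS v ((fun p => cs • p) ⁻¹' A) ((fun p => cs • p) ⁻¹' C) := by
  unfold PS
  simp only [mem_ofPred_eq, mem_preimage, inner_smul_right, Prod.smul_mk, smul_eq_mul]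

theorem th_pos {q : ℝ} (hq3 : 3 < q) : 0 < 1 - 2 / q := by
  have hq0 : 0 < q := by linarith
  have : 2 / q < 1 := by rw [div_lt_one hq0]; linarith
  linarith

/-- the common step for sets -/
theorem step (U : Set (E 2)) (hU : MeasurableSet U) (f : E 2 → ℂ) (v : Fin 3 → E 3)
    (A : Set (ℝ × ℝ)) (C : Set ℝ) (hA : MeasurableSet A) (hC : MeasurableSet C) (θ : ℝ)
    (hθ : 0 < θ) (K N : ℝ≥0∞)
    (h : ∀ (A : Set (ℝ × ℝ)) (C : Set ℝ), MeasurableSet A → MeasurableSet C →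
      ∫⁻ ξ in PS v A C, ‖Ex (U.indicator f) ξ‖ₑ ^ 2 ≤ K * volume (PS v A C) ^ θ * N) :
    ∫⁻ ξ in PS v A C, ‖ext U f ξ‖ₑ ^ 2 ≤ K0 * K * volume (PS v A C) ^ θ * N := by
  have hAm : MeasurableSet ((fun p : ℝ × ℝ => cs • p) ⁻¹' A) := (measurable_const_smul cs) hA
  have hCm : MeasurableSet ((fun p : ℝ => cs • p) ⁻¹' C) := (measurable_const_smul cs) hC
  rw [convS U hU f _ _ (PS_meas v hA hC) (PS_meas v hAm hCm) (PS_scale v A C)]
  have h1 := h _ _ hAm hCm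
  have h2 := convV (volume : Measure (E 3)) _ _ (PS_meas v hA hC) (PS_meas v hAm hCm)
    (PS_scale v A C)
  calc K0 * ∫⁻ ξ in PS v ((fun p => cs • p) ⁻¹' A) ((fun p => cs • p) ⁻¹' C),
        ‖Ex (U.indicator f) ξ‖ₑ ^ 2
      ≤ K0 * (K * volume (PS v ((fun p => cs • p) ⁻¹' A) ((fun p => cs • p) ⁻¹' C)) ^ θ * N) :=
        mul_le_mul_right h1 _
    _ ≤ K0 * (K * volume (PS v A C) ^ θ * N) := by
        refine mul_le_mul_right (mul_le_mul_left (mul_le_mul_right ?_ _) _) _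
        exact ENNReal.rpow_le_rpow h2 hθ.le
    _ = _ := by ring

/-- all frames -/
theorem allFrames (q : ℝ) (hq3 : 3 < q) (hq4 : q < 4) (p : ℝ≥0∞)
    (hp : ENNReal.ofReal (2 * q) < p) : ∃ K : ℝ≥0, ∀ (U : Set (E 2)) (f : E 2 → ℂ)
    (v : Fin 3 → E 3) (A : Set (ℝ × ℝ)) (C : Set ℝ), MeasurableSet U →
    U ⊆ Metric.ball 0 (1 / 2) → MemLp f p (volume.restrict U) → LinearIndependent ℝ v →
    MeasurableSet A → MeasurableSet C →
    ∫⁻ ξ in PS v A C, ‖ext U f ξ‖ₑ ^ 2 ≤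
      K * volume (PS v A C) ^ (1 - 2 / q) * eLpNorm f p (volume.restrict U) ^ 2 := by
  obtain ⟨K, hK⟩ := framesAll q hq3 hq4 p hp
  refine ⟨(K0 * K).toNNReal, ?_⟩
  rw [ENNReal.coe_toNNReal (ENNReal.mul_ne_top K0_ne ENNReal.coe_ne_top)]
  intro U f v A C hU hUb hf hv hA hC
  exact step U hU f v A C hA hC _ (th_pos hq3) K _ fun A C hA hC =>
    hK v A C U f hv hA hC hU hUb hf

/-- transversal frames -/
theorem transversal (q : ℝ) (hq3 : 3 < q) (hq4 : q < 4) (p : ℝ≥0∞)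
    (hp : ENNReal.ofReal (2 * q / (q - 1)) < p) (κ : ℝ) (hκ : 0 < κ) :
    ∃ K : ℝ≥0, ∀ (U : Set (E 2)) (f : E 2 → ℂ)
    (v : Fin 3 → E 3) (A : Set (ℝ × ℝ)) (C : Set ℝ), MeasurableSet U →
    U ⊆ Metric.ball 0 (1 / 2) → MemLp f p (volume.restrict U) → LinearIndependent ℝ v →
    (∀ x ∈ U, κ * ‖v 2‖ ≤ |⟪v 2, No x⟫|) → MeasurableSet A → MeasurableSet C →
    ∫⁻ ξ in PS v A C, ‖ext U f ξ‖ₑ ^ 2 ≤
      K * volume (PS v A C) ^ (1 - 2 / q) * eLpNorm f p (volume.restrict U) ^ 2 := by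
  obtain ⟨K, hK⟩ := framesT q hq3 hq4 p hp κ hκ
  refine ⟨(K0 * K).toNNReal, ?_⟩
  rw [ENNReal.coe_toNNReal (ENNReal.mul_ne_top K0_ne ENNReal.coe_ne_top)]
  intro U f v A C hU hUb hf hv hT hA hC
  exact step U hU f v A C hA hC _ (th_pos hq3) K _ fun A C hA hC =>
    hK v A C U f hv hA hC hU hUb hT hf

/-- the moving frames -/
def MS (w : E 2) (A : Set (ℝ × ℝ)) (C : Set ℝ) : Set (E 3) :=
  {ξ | (ξ 0 - ξ 2 * w 0, ξ 1 - ξ 2 * w 1) ∈ A ∧ ξ 2 ∈ C}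

theorem MS_eq (w : E 2) (A : Set (ℝ × ℝ)) (C : Set ℝ) :
    MS w A C = BS (w 0, w 1) (mk3 0 1) A C := by
  ext ξ
  unfold MS BS
  have h1 : ⟪mk3 0 1, ξ⟫ = ξ 2 := by
    rw [real_inner_comm, Pool.Agent.J6H73.TPO.inner_mk3]
    simp
  simp only [mem_ofPred_eq, h1]

theorem moving (q : ℝ) (hq3 : 3 < q) (hq4 : q < 4) (p : ℝ≥0∞)
    (hp : ENNReal.ofReal (2 * q / (q - 1)) < p) :
    ∃ K : ℝ≥0, ∀ (U : Set (E 2)) (f : E 2 → ℂ) (w : E 2) (A : Set (ℝ × ℝ)) (C : Set ℝ),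
    MeasurableSet U → U ⊆ Metric.ball 0 (1 / 2) → MemLp f p (volume.restrict U) →
    MeasurableSet A → MeasurableSet C →
    ∫⁻ ξ in MS w A C, ‖ext U f ξ‖ₑ ^ 2 ≤
      K * (volume A * volume C / ENNReal.ofReal (1 + ‖w‖)) ^ (1 - 2 / q) *
        eLpNorm f p (volume.restrict U) ^ 2 := by
  obtain ⟨K, hK⟩ := framesV q hq3 hq4 p hp
  refine ⟨(K0 * K).toNNReal, ?_⟩
  rw [ENNReal.coe_toNNReal (ENNReal.mul_ne_top K0_ne ENNReal.coe_ne_top)]
  intro U f w A C hU hUb hf hA hC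
  have hw : nrm (w 0, w 1) = ‖w‖ := by
    unfold nrm
    rw [EuclideanSpace.norm_eq, Fin.sum_univ_two]
    simp
  have hAm : MeasurableSet ((fun p : ℝ × ℝ => cs • p) ⁻¹' A) := (measurable_const_smul cs) hA
  have hCm : MeasurableSet ((fun p : ℝ => cs • p) ⁻¹' C) := (measurable_const_smul cs) hC
  have hsc : ∀ ξ : E 3, cs • ξ ∈ MS w A C ↔
      ξ ∈ MS w ((fun p => cs • p) ⁻¹' A) ((fun p => cs • p) ⁻¹' C) := by
    intro ξ
    unfold MS
    simp only [mem_ofPred_eq, mem_preimage, Prod.smul_mk, smul_eq_mul, PiLp.smul_apply, mul_sub,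
      mul_assoc]
  have hM : ∀ (A : Set (ℝ × ℝ)) (C : Set ℝ), MeasurableSet A → MeasurableSet C →
      MeasurableSet (MS w A C) := by
    intro A C hA hC
    rw [MS_eq]
    exact BS_meas _ _ hA hC
  rw [convS U hU f _ _ (hM A C hA hC) (hM _ _ hAm hCm) hsc]
  have h1 := hK (w 0, w 1) _ _ U f hAm hCm hU hUb hf
  rw [← MS_eq, hw] at h1
  have h2 : volume ((fun p : ℝ × ℝ => cs • p) ⁻¹' A) ≤ volume A :=
    convV (volume : Measure (ℝ × ℝ)) _ _ hA hAm fun ξ => Iff.rfl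
  have h3 : volume ((fun p : ℝ => cs • p) ⁻¹' C) ≤ volume C :=
    convV (volume : Measure ℝ) _ _ hC hCm fun ξ => Iff.rfl
  calc K0 * ∫⁻ ξ in MS w ((fun p => cs • p) ⁻¹' A) ((fun p => cs • p) ⁻¹' C),
        ‖Ex (U.indicator f) ξ‖ₑ ^ 2
      ≤ K0 * _ := mul_le_mul_right h1 _
    _ ≤ K0 * (K * (volume A * volume C / ENNReal.ofReal (1 + ‖w‖)) ^ (1 - 2 / q) *
        eLpNorm f p (volume.restrict U) ^ 2) := by
        refine mul_le_mul_right (mul_le_mul_left (mul_le_mul_right ?_ _) _) _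
        exact ENNReal.rpow_le_rpow (ENNReal.div_le_div_right (mul_le_mul' h2 h3) _)
          (th_pos hq3).le
    _ = _ := by ring

/-! ### weights -/

theorem rep3 (U : Set (E 2)) (hU : MeasurableSet U) (f : E 2 → ℂ)
    (hf : AEStronglyMeasurable f (volume.restrict U)) :
    ∃ g : E 2 → ℂ, Measurable g ∧ (∀ x, g x ≠ 0 → x ∈ U) ∧ Ex (U.indicator f) = Ex g ∧
      g =ᵐ[volume.restrict U] f := by
  obtain ⟨f0, hf0, hff⟩ := hf
  refine ⟨U.indicator f0, hf0.measurable.indicator hU, ?_, ?_, ?_⟩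
  · intro x hx
    by_contra h
    exact hx (indicator_of_notMem h _)
  · refine Ex_congr ?_
    rw [EventuallyEq, ae_restrict_iff' hU] at hff
    filter_upwards [hff] with x hx
    by_cases hxU : x ∈ U
    · rw [indicator_of_mem hxU, indicator_of_mem hxU, hx hxU]
    · rw [indicator_of_notMem hxU, indicator_of_notMem hxU]
  · rw [EventuallyEq, ae_restrict_iff' hU] at hff ⊢
    filter_upwards [hff] with x hx
    intro hxU
    rw [indicator_of_mem hxU, hx hxU]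

theorem PS_vol (e : OrthonormalBasis (Fin 3) ℝ (E 3)) (A : Set (ℝ × ℝ)) (C : Set ℝ)
    (hA : MeasurableSet A) (hC : MeasurableSet C) :
    {ξ : E 3 | (⟪e.reindex (Equiv.swap 1 2) 0, ξ⟫, ⟪e.reindex (Equiv.swap 1 2) 2, ξ⟫) ∈ A ∧
      ⟪e.reindex (Equiv.swap 1 2) 1, ξ⟫ ∈ C} = PS e A C ∧
    volume (PS e A C) = volume A * volume C := by
  have h0 : e.reindex (Equiv.swap 1 2) 0 = e 0 := by
    rw [OrthonormalBasis.reindex_apply]; rfl
  have h1 : e.reindex (Equiv.swap 1 2) 1 = e 2 := by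
    rw [OrthonormalBasis.reindex_apply]; rfl
  have h2 : e.reindex (Equiv.swap 1 2) 2 = e 1 := by
    rw [OrthonormalBasis.reindex_apply]; rfl
  have h3 : {ξ : E 3 | (⟪e.reindex (Equiv.swap 1 2) 0, ξ⟫, ⟪e.reindex (Equiv.swap 1 2) 2, ξ⟫) ∈ A ∧
      ⟪e.reindex (Equiv.swap 1 2) 1, ξ⟫ ∈ C} = PS e A C := by
    rw [h0, h1, h2]
    rfl
  refine ⟨h3, ?_⟩
  rw [← h3, ← Pool.Agent.R412.RZ.BS_vol (e.reindex (Equiv.swap 1 2)) 0 A C hA hC]
  unfold Pool.Agent.R412.RH.BS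
  simp only [zero_mul, add_zero]

/-- the common step for weights -/
theorem stepW (d r : ℝ) (hr : 1 ≤ r) (hrd : r < d) (U : Set (E 2)) (hU : MeasurableSet U)
    (hUb : U ⊆ Metric.ball 0 (1 / 2)) (p : ℝ≥0∞) (hp1 : 1 ≤ p) (f : E 2 → ℂ)
    (hf : MemLp f p (volume.restrict U)) (e : OrthonormalBasis (Fin 3) ℝ (E 3)) (K : ℝ≥0∞)
    (h : ∀ g : E 2 → ℂ, MemLp g p (volume.restrict U) → ∀ (A : Set (ℝ × ℝ)) (C : Set ℝ),
      MeasurableSet A → MeasurableSet C →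
      ∫⁻ ξ in PS e A C, ‖Ex (U.indicator g) ξ‖ₑ ^ 2 ≤ K * volume (PS e A C) ^ (1 / d) *
        eLpNorm g p (volume.restrict U) ^ 2)
    (u : ℝ × ℝ → ℝ≥0∞) (w : ℝ → ℝ≥0∞) (hu : Measurable u) (hw : Measurable w) :
    ∫⁻ ξ, u (⟪e 0, ξ⟫, ⟪e 1, ξ⟫) * w ⟪e 2, ξ⟫ * ‖ext U f ξ‖ₑ ^ 2 ≤
      K0 * (K * 64 * ENNReal.ofReal (cW d r)) * (∫⁻ a, u a ^ r) ^ (1 / r) *
        (∫⁻ t, w t ^ r) ^ (1 / r) * eLpNorm f p (volume.restrict U) ^ 2 := by
  have hd : 0 < d := by linarith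
  obtain ⟨g0, hg0, hgU, hgE, hga⟩ := rep3 U hU f hf.1
  have hg0L : MemLp g0 p (volume.restrict U) := (memLp_congr_ae hga).2 hf
  have hnorm : eLpNorm g0 p (volume.restrict U) = eLpNorm f p (volume.restrict U) :=
    eLpNorm_congr_ae hga
  have hgI : U.indicator g0 = g0 := by
    ext x
    by_cases hx : x ∈ U
    · rw [indicator_of_mem hx]
    · rw [indicator_of_notMem hx]
      by_contra h0
      exact hx (hgU x fun h1 => h0 h1.symm)
  have hgint : Integrable g0 := by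
    rw [← hgI]
    exact int_of hU hUb hp1 hg0L
  have hs : ∀ x, g0 x ≠ 0 → ‖x‖ < 1 := by
    intro x hx
    have h2 := hUb (hgU x hx)
    rw [Metric.mem_ball, dist_zero_right] at h2
    linarith
  rw [ext_lint U hU, hgE]
  have hum : Measurable fun p : ℝ × ℝ => u (cs • p) := hu.comp (measurable_const_smul cs)
  have hwm : Measurable fun t : ℝ => w (cs • t) := hw.comp (measurable_const_smul cs)
  have h2 : ∀ ξ : E 3, u (⟪e 0, cs • ξ⟫, ⟪e 1, cs • ξ⟫) * w ⟪e 2, cs • ξ⟫ * ‖Ex g0 ξ‖ₑ ^ 2 =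
      u (cs • (⟪e 0, ξ⟫, ⟪e 1, ξ⟫)) * w (cs • ⟪e 2, ξ⟫) * ‖Ex g0 ξ‖ₑ ^ 2 := by
    intro ξ
    simp only [inner_smul_right, Prod.smul_mk, smul_eq_mul]
  simp_rw [h2]
  set e' := e.reindex (Equiv.swap 1 2) with he'
  have h0' : e' 0 = e 0 := by
    rw [he', OrthonormalBasis.reindex_apply]; rfl
  have h1' : e' 1 = e 2 := by
    rw [he', OrthonormalBasis.reindex_apply]; rfl
  have h2' : e' 2 = e 1 := by
    rw [he', OrthonormalBasis.reindex_apply]; rfl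
  have hmain := weights_of e' d r hr hrd (K * 64 * eLpNorm f p (volume.restrict U) ^ 2) hg0 hs
    hgint (by
      intro g hg hgle A C hA hC
      obtain ⟨hset, hvol⟩ := PS_vol e A C hA hC
      rw [← he'] at hset
      rw [hset]
      have hle : eLpNorm g p (volume.restrict U) ≤ 8 * eLpNorm f p (volume.restrict U) := by
        rw [← hnorm]
        refine (eLpNorm_le_mul_eLpNorm_of_ae_le_mul (Eventually.of_forall hgle) p).trans ?_
        rw [ENNReal.ofReal_ofNat]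
      have hgL : MemLp g p (volume.restrict U) := by
        refine ⟨hg.aestronglyMeasurable, hle.trans_lt ?_⟩
        exact ENNReal.mul_lt_top (by norm_num) hf.2
      have hgI2 : U.indicator g = g := by
        ext x
        by_cases hx : x ∈ U
        · rw [indicator_of_mem hx]
        · rw [indicator_of_notMem hx]
          have h3 : g0 x = 0 := by
            by_contra h0
            exact hx (hgU x h0)
          have h4 := hgle x
          rw [h3, norm_zero, mul_zero] at h4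
          exact (norm_le_zero_iff.1 h4).symm
      have h5 := h g hgL A C hA hC
      rw [hgI2, hvol, ENNReal.mul_rpow_of_nonneg _ _ (by positivity)] at h5
      calc ∫⁻ ξ in PS e A C, ‖Ex g ξ‖ₑ ^ 2
          ≤ K * (volume A ^ (1 / d) * volume C ^ (1 / d)) *
            eLpNorm g p (volume.restrict U) ^ 2 := h5
        _ ≤ K * (volume A ^ (1 / d) * volume C ^ (1 / d)) *
            (8 * eLpNorm f p (volume.restrict U)) ^ 2 := by gcongr
        _ = _ := by ring)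
    (fun p => u (cs • p)) (fun t => w (cs • t)) hum hwm
  rw [h0', h1', h2'] at hmain
  calc ENNReal.ofReal ((2 * Real.pi) ^ 3) * ∫⁻ ξ, u (cs • (⟪e 0, ξ⟫, ⟪e 1, ξ⟫)) *
        w (cs • ⟪e 2, ξ⟫) * ‖Ex g0 ξ‖ₑ ^ 2
      ≤ K0 * (K * 64 * eLpNorm f p (volume.restrict U) ^ 2 * ENNReal.ofReal (cW d r) *
        (∫⁻ a, u (cs • a) ^ r) ^ (1 / r) * (∫⁻ t, w (cs • t) ^ r) ^ (1 / r)) :=
        mul_le_mul_right hmain _
    _ ≤ K0 * (K * 64 * eLpNorm f p (volume.restrict U) ^ 2 * ENNReal.ofReal (cW d r) *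
        (∫⁻ a, u a ^ r) ^ (1 / r) * (∫⁻ t, w t ^ r) ^ (1 / r)) := by
        refine mul_le_mul_right (mul_le_mul' (mul_le_mul_right (ENNReal.rpow_le_rpow ?_
          (by positivity)) _) (ENNReal.rpow_le_rpow ?_ (by positivity))) _
        · exact scaleV (volume : Measure (ℝ × ℝ)) (fun p => u p ^ r) (hu.pow_const r)
        · exact scaleV (volume : Measure ℝ) (fun t => w t ^ r) (hw.pow_const r)
    _ = _ := by ring

/-- weights, all orthonormal frames -/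
theorem weightsAll (r : ℝ) (hr : 1 ≤ r) (hr3 : r < 3) (p : ℝ≥0∞) (hp : 6 < p) : ∃ C : ℝ≥0,
    ∀ (U : Set (E 2)) (f : E 2 → ℂ) (e : OrthonormalBasis (Fin 3) ℝ (E 3)) (u : ℝ × ℝ → ℝ≥0∞)
    (w : ℝ → ℝ≥0∞), MeasurableSet U → U ⊆ Metric.ball 0 (1 / 2) →
    MemLp f p (volume.restrict U) → Measurable u → Measurable w →
    ∫⁻ ξ, u (⟪e 0, ξ⟫, ⟪e 1, ξ⟫) * w ⟪e 2, ξ⟫ * ‖ext U f ξ‖ₑ ^ 2 ≤
      C * (∫⁻ a, u a ^ r) ^ (1 / r) * (∫⁻ t, w t ^ r) ^ (1 / r) *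
        eLpNorm f p (volume.restrict U) ^ 2 := by
  obtain ⟨p₀, hp0, hpp⟩ := exists_p0 6 (by norm_num) p (by
    rwa [ENNReal.ofReal_ofNat])
  have hp4 : 0 < p₀ - 4 := by linarith
  have hp5 : p₀ / (p₀ - 4) < 3 := by rw [div_lt_iff₀ hp4]; linarith
  obtain ⟨d, hd2, hd3, hrd, hpd⟩ : ∃ d : ℝ, 2 < d ∧ d < 3 ∧ r < d ∧ p₀ / (p₀ - 4) < d := by
    refine ⟨(max (max r 2) (p₀ / (p₀ - 4)) + 3) / 2, ?_, ?_, ?_, ?_⟩
    all_goals
      have h1 := le_max_left (max r 2) (p₀ / (p₀ - 4))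
      have h2 := le_max_right (max r 2) (p₀ / (p₀ - 4))
      have h3 := le_max_left r 2
      have h4 := le_max_right r 2
      have h5 : max (max r 2) (p₀ / (p₀ - 4)) < 3 := max_lt (max_lt hr3 (by norm_num)) hp5
      linarith
  set q : ℝ := 2 * d / (d - 1) with hq
  have hd1 : 0 < d - 1 := by linarith
  have hq3 : 3 < q := by rw [hq, lt_div_iff₀ hd1]; linarith
  have hq4 : q < 4 := by rw [hq, div_lt_iff₀ hd1]; linarith
  have hqd : 1 - 2 / q = 1 / d := by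
    rw [hq]
    field_simp
    ring
  have hqp : ENNReal.ofReal (2 * q) < p := by
    refine lt_of_lt_of_le ?_ hpp
    rw [ENNReal.ofReal_lt_ofReal_iff (by linarith), hq, ← mul_div_assoc, div_lt_iff₀ hd1]
    rw [div_lt_iff₀ hp4] at hpd
    nlinarith
  have hp1 : 1 ≤ p := le_trans (by norm_num) hp.le
  obtain ⟨K, hK⟩ := framesAll q hq3 hq4 p hqp
  rw [hqd] at hK
  have hfin : K0 * ((K : ℝ≥0∞) * 64 * ENNReal.ofReal (cW d r)) ≠ ∞ :=
    ENNReal.mul_ne_top K0_ne (ENNReal.mul_ne_top (ENNReal.mul_ne_top ENNReal.coe_ne_top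
      (by norm_num)) ENNReal.ofReal_ne_top)
  refine ⟨(K0 * ((K : ℝ≥0∞) * 64 * ENNReal.ofReal (cW d r))).toNNReal, ?_⟩
  rw [ENNReal.coe_toNNReal hfin]
  intro U f e u w hU hUb hf hu hw
  exact stepW d r hr hrd U hU hUb p hp1 f hf e K (fun g hg A C hA hC =>
    hK e A C U g e.orthonormal.linearIndependent hA hC hU hUb hg) u w hu hw

/-- weights, transversal orthonormal frames -/
theorem weightsT (r : ℝ) (hr : 1 ≤ r) (hr3 : r < 3) (κ : ℝ) (hκ : 0 < κ) : ∃ C : ℝ≥0,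
    ∀ (U : Set (E 2)) (f : E 2 → ℂ) (e : OrthonormalBasis (Fin 3) ℝ (E 3)) (u : ℝ × ℝ → ℝ≥0∞)
    (w : ℝ → ℝ≥0∞), MeasurableSet U → U ⊆ Metric.ball 0 (1 / 2) →
    MemLp f 3 (volume.restrict U) → (∀ x ∈ U, κ ≤ |⟪e 2, No x⟫|) → Measurable u → Measurable w →
    ∫⁻ ξ, u (⟪e 0, ξ⟫, ⟪e 1, ξ⟫) * w ⟪e 2, ξ⟫ * ‖ext U f ξ‖ₑ ^ 2 ≤
      C * (∫⁻ a, u a ^ r) ^ (1 / r) * (∫⁻ t, w t ^ r) ^ (1 / r) *
        eLpNorm f 3 (volume.restrict U) ^ 2 := by
  obtain ⟨d, hd2, hd3, hrd⟩ : ∃ d : ℝ, 2 < d ∧ d < 3 ∧ r < d := by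
    refine ⟨(max r 2 + 3) / 2, ?_, ?_, ?_⟩
    all_goals
      have h3 := le_max_left r 2
      have h4 := le_max_right r 2
      have h5 : max r 2 < 3 := max_lt hr3 (by norm_num)
      linarith
  set q : ℝ := 2 * d / (d - 1) with hq
  have hd1 : 0 < d - 1 := by linarith
  have hq3 : 3 < q := by rw [hq, lt_div_iff₀ hd1]; linarith
  have hq4 : q < 4 := by rw [hq, div_lt_iff₀ hd1]; linarith
  have hqd : 1 - 2 / q = 1 / d := by
    rw [hq]
    field_simp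
    ring
  have hqp : ENNReal.ofReal (2 * q / (q - 1)) < 3 := by
    have h1 : 2 * q / (q - 1) < 3 := by
      rw [div_lt_iff₀ (by linarith)]
      linarith
    rw [← ENNReal.ofReal_ofNat, ENNReal.ofReal_lt_ofReal_iff (by norm_num)]
    exact h1
  obtain ⟨K, hK⟩ := framesT q hq3 hq4 3 hqp κ hκ
  rw [hqd] at hK
  have hfin : K0 * ((K : ℝ≥0∞) * 64 * ENNReal.ofReal (cW d r)) ≠ ∞ :=
    ENNReal.mul_ne_top K0_ne (ENNReal.mul_ne_top (ENNReal.mul_ne_top ENNReal.coe_ne_top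
      (by norm_num)) ENNReal.ofReal_ne_top)
  refine ⟨(K0 * ((K : ℝ≥0∞) * 64 * ENNReal.ofReal (cW d r))).toNNReal, ?_⟩
  rw [ENNReal.coe_toNNReal hfin]
  intro U f e u w hU hUb hf hT hu hw
  exact stepW d r hr hrd U hU hUb 3 (by norm_num) f hf e K (fun g hg A C hA hC =>
    hK e A C U g e.orthonormal.linearIndependent hA hC hU hUb (fun x hx => by
      rw [e.orthonormal.1 2, mul_one]
      exact hT x hx) hg) u w hu hw

end Pool.Agent.J6H73.TPZ
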